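import Mathlib

set_option autoImplicit false

open Finset

namespace Pool.Agent.CH10ce

/-- A geometric sum whose last term is at least `1 / 2` is at least `7 / 10` of its length. -/
lemma geo_lower (q : ℝ) (hq : 0 ≤ q) (M : ℕ) (hM : 1 / 2 ≤ q ^ (M - 1)) :
    7 / 10 * (M : ℝ) ≤ ∑ i ∈ range M, q ^ i := by
  have h1 : ∑ i ∈ range M, q ^ i = ∑ i ∈ range M, q ^ (M - 1 - i) :=
    (sum_range_reflect (fun i => q ^ i) M).symm
  have h2 : ∑ _i ∈ range M, (14 / 10 : ℝ) ≤ ∑ i ∈ range M, (q ^ i + q ^ (M - 1 - i)) := by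
    refine sum_le_sum ?_
    intro i hi
    rw [mem_range] at hi
    have ha : 0 ≤ q ^ i := pow_nonneg hq _
    have hb : 0 ≤ q ^ (M - 1 - i) := pow_nonneg hq _
    have hab : q ^ i * q ^ (M - 1 - i) = q ^ (M - 1) := by
      rw [← pow_add]
      congr 1
      omega
    have hab2 : 1 / 2 ≤ q ^ i * q ^ (M - 1 - i) := by rw [hab]; exact hM
    by_contra hlt
    push Not at hlt
    nlinarith [sq_nonneg (q ^ i - q ^ (M - 1 - i))]
  rw [sum_add_distrib, ← h1, sum_const, card_range, nsmul_eq_mul] at h2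
  linarith

lemma abel_up (m : ℕ) (w e : ℕ → ℝ) (he : ∀ i ≤ m + 2, 0 ≤ e i)
    (hw : ∀ i < m, w i ≤ w (i + 1)) :
    ∑ i ∈ range (m + 1), w i * (e (i + 2) - e (i + 1)) ≤ w m * e (m + 2) - w 0 * e 1 := by
  induction m with
  | zero => simp; linarith
  | succ m ih =>
    rw [sum_range_succ]
    have h1 := ih (fun i hi => he i (by omega)) (fun i hi => hw i (by omega))
    have h2 := hw m (by omega)
    have h3 := he (m + 2) (by omega)
    have h4 : w m * e (m + 2) ≤ w (m + 1) * e (m + 2) := mul_le_mul_of_nonneg_right h2 h3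
    have h5 : m + 1 + 1 = m + 2 := by ring
    rw [h5]
    nlinarith

lemma abel_down (m : ℕ) (a e : ℕ → ℝ) (he : ∀ i ≤ m + 1, 0 ≤ e i) (h0 : e 0 = 0)
    (ha : ∀ i < m, a (i + 1) ≤ a i) :
    e (m + 1) * a m ≤ ∑ i ∈ range (m + 1), (e (i + 1) - e i) * a i := by
  induction m with
  | zero => simp [h0]
  | succ m ih =>
    rw [sum_range_succ]
    have h1 := ih (fun i hi => he i (by omega)) (fun i hi => ha i (by omega))
    have h2 := ha m (by omega)
    have h3 := he (m + 1) (by omega)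
    have h4 : e (m + 1) * a (m + 1) ≤ e (m + 1) * a m := mul_le_mul_of_nonneg_left h2 h3
    nlinarith

lemma abel_tri (n : ℕ) (r : ℕ → ℝ) (h0 : r 0 = 0) :
    ∑ i ∈ range n, (r (i + 1) - r i) * ((n : ℝ) - i) = ∑ i ∈ range n, r (i + 1) := by
  induction n with
  | zero => simp
  | succ n ih =>
    rw [sum_range_succ _ (n := n), sum_range_succ (fun i => r (i + 1))]
    have h1 : ∑ i ∈ range n, (r (i + 1) - r i) * (((n + 1 : ℕ) : ℝ) - i) =
        ∑ i ∈ range n, (r (i + 1) - r i) * ((n : ℝ) - i) +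
          ∑ i ∈ range n, (r (i + 1) - r i) := by
      rw [← sum_add_distrib]
      refine sum_congr rfl ?_
      intro i _
      push_cast
      ring
    rw [h1, ih, sum_range_sub, h0]
    push_cast
    ring

/-- The final inequality on real numbers. -/
theorem algebra (n h : ℕ) (hn : 1 ≤ n) (hh : n + 1 ≤ h) (r : ℕ → ℝ) (k : ℕ → ℕ) (s κ : ℝ)
    (hκ : 1 ≤ κ) (hs : 0 < s) (hs1 : s < 1) (h0 : r 0 = 0) (h1 : 1 ≤ r 1)
    (hr : ∀ j ≤ n + 1, s * j ≤ r j) (hJ : r (n + 1) = s * (n + 1))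
    (hk0 : k 0 = 0) (hki : ∀ i < n, k i ≤ i) (hkm : ∀ i, i + 1 < n → k i ≤ k (i + 1))
    (K4 : ∀ i < n, ((h : ℝ) - (n + 1) + k i) * (1 - (r (i + 2) - r (i + 1))) ≤
      κ * (r (i + 1) - r (k i)))
    (H2 : ∑ i ∈ range n, (r (i + 1) - r i) * ((n : ℝ) - k i) ≤ s * ((n : ℝ) + 1) ^ 2 / 2)
    (hmono : ∀ i < n, r i ≤ r (i + 1)) :
    (1 - s) * h < 4 * κ := by
  obtain ⟨m, rfl⟩ : ∃ m, n = m + 1 := ⟨n - 1, by omega⟩
  have hhR : ((m : ℝ) + 2) ≤ h := by
    have : ((m + 1 + 1 : ℕ) : ℝ) ≤ h := by exact_mod_cast hh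
    push_cast at this
    linarith
  set e : ℕ → ℝ := fun j => r j - s * j with he
  have he0 : e 0 = 0 := by simp [he, h0]
  have hepos : ∀ j ≤ m + 2, 0 ≤ e j := by
    intro j hj
    have := hr j (by omega)
    simp only [he]
    linarith
  have heJ : e (m + 2) = 0 := by
    simp only [he]
    have := hJ
    push_cast at this ⊢
    have h2 : r (m + 2) = s * (m + 1 + 1) := this
    rw [h2]
    ring
  -- sum of k
  set K : ℝ := ∑ i ∈ range (m + 1), (k i : ℝ) with hK
  set S : ℝ := ∑ i ∈ range (m + 1), r (i + 1) with hS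
  -- first consequence of H2
  have c1 : S ≤ s * ((m : ℝ) + 2) ^ 2 / 2 := by
    have a1 := abel_tri (m + 1) r h0
    rw [← hS] at a1
    have a2 : ∑ i ∈ range (m + 1), (r (i + 1) - r i) * (((m + 1 : ℕ) : ℝ) - i) ≤
        ∑ i ∈ range (m + 1), (r (i + 1) - r i) * (((m + 1 : ℕ) : ℝ) - k i) := by
      refine sum_le_sum ?_
      intro i hi
      rw [mem_range] at hi
      have b1 : (0 : ℝ) ≤ r (i + 1) - r i := by linarith [hmono i hi]
      have b2 : (k i : ℝ) ≤ i := by exact_mod_cast hki i hi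
      exact mul_le_mul_of_nonneg_left (by linarith) b1
    have a3 : s * (((m + 1 : ℕ) : ℝ) + 1) ^ 2 / 2 = s * ((m : ℝ) + 2) ^ 2 / 2 := by
      push_cast; ring
    linarith
  -- second consequence of H2
  have c2 : ((m : ℝ) + 2) ^ 2 / 2 - 2 * (m + 2) + 1 ≤ K := by
    have a1 := abel_down m (fun i => ((m + 1 : ℕ) : ℝ) - k i) e
      (fun i hi => hepos i (by omega)) he0 (by
        intro i hi
        have := hkm i (by omega)
        have b : (k i : ℝ) ≤ k (i + 1) := by exact_mod_cast this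
        linarith)
    have a2 : 0 ≤ e (m + 1) * (((m + 1 : ℕ) : ℝ) - k m) := by
      refine mul_nonneg (hepos _ (by omega)) ?_
      have := hki m (by omega)
      have b : (k m : ℝ) ≤ m := by exact_mod_cast this
      push_cast
      linarith
    have a3 : ∑ i ∈ range (m + 1), (r (i + 1) - r i) * (((m + 1 : ℕ) : ℝ) - k i) =
        s * ∑ i ∈ range (m + 1), (((m + 1 : ℕ) : ℝ) - k i) +
        ∑ i ∈ range (m + 1), (e (i + 1) - e i) * (((m + 1 : ℕ) : ℝ) - k i) := by
      rw [mul_sum, ← sum_add_distrib]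
      refine sum_congr rfl ?_
      intro i _
      simp only [he]
      push_cast
      ring
    have a4 : ∑ i ∈ range (m + 1), (((m + 1 : ℕ) : ℝ) - k i) = ((m : ℝ) + 1) ^ 2 - K := by
      rw [sum_sub_distrib, sum_const, card_range, nsmul_eq_mul, hK]
      push_cast
      ring
    have a5 : s * (((m : ℝ) + 1) ^ 2 - K) ≤ s * (((m : ℝ) + 2) ^ 2 / 2) := by
      have a6 : s * (((m + 1 : ℕ) : ℝ) + 1) ^ 2 / 2 = s * (((m : ℝ) + 2) ^ 2 / 2) := by
        push_cast; ring
      rw [← a4]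
      linarith
    have a7 := le_of_mul_le_mul_left a5 hs
    nlinarith
  -- summation of K4
  have c3 : (1 - s) * (((m : ℝ) + 2) * (h - (m + 2)) + K) ≤ κ * (S - s * K) := by
    set w : ℕ → ℝ := fun i => (h : ℝ) - ((m + 1 : ℕ) + 1) + k i with hw
    have a1 := abel_up m w e hepos (by
        intro i hi
        have := hkm i (by omega)
        have b : (k i : ℝ) ≤ k (i + 1) := by exact_mod_cast this
        simp only [hw]
        linarith)
    rw [heJ, mul_zero, zero_sub] at a1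
    have a2 : ∑ i ∈ range (m + 1), w i * (1 - (r (i + 2) - r (i + 1))) ≤
        ∑ i ∈ range (m + 1), κ * (r (i + 1) - s * k i) := by
      refine sum_le_sum ?_
      intro i hi
      rw [mem_range] at hi
      have b1 := K4 i hi
      have b2 := hr (k i) (by have := hki i hi; omega)
      have b3 : κ * (r (i + 1) - r (k i)) ≤ κ * (r (i + 1) - s * k i) :=
        mul_le_mul_of_nonneg_left (by linarith) (by linarith)
      simp only [hw]
      linarith
    have a3 : ∑ i ∈ range (m + 1), κ * (r (i + 1) - s * k i) = κ * (S - s * K) := by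
      rw [← mul_sum, sum_sub_distrib, ← mul_sum, hS, hK]
    have a4 : ∑ i ∈ range (m + 1), w i * (1 - (r (i + 2) - r (i + 1))) =
        (1 - s) * ∑ i ∈ range (m + 1), w i -
        ∑ i ∈ range (m + 1), w i * (e (i + 2) - e (i + 1)) := by
      rw [mul_sum, ← sum_sub_distrib]
      refine sum_congr rfl ?_
      intro i _
      simp only [he]
      push_cast
      ring
    have a5 : ∑ i ∈ range (m + 1), w i = ((m : ℝ) + 1) * (h - (m + 2)) + K := by
      simp only [hw]
      rw [sum_add_distrib, sum_const, card_range, nsmul_eq_mul, hK]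
      push_cast
      ring
    have a6 : w 0 = (h : ℝ) - (m + 2) := by
      simp only [hw, hk0]
      push_cast
      ring
    have a7 : (1 - s) * ((h : ℝ) - (m + 2)) ≤ w 0 * e 1 := by
      rw [a6]
      have b1 : 1 - s ≤ e 1 := by
        simp only [he]
        push_cast
        linarith
      have b2 : (0 : ℝ) ≤ h - (m + 2) := by linarith
      nlinarith
    rw [a5] at a4
    nlinarith
  -- conclusion
  set J : ℝ := (m : ℝ) + 2 with hJdef
  have hJ2 : 2 ≤ J := by
    have : (0 : ℝ) ≤ m := Nat.cast_nonneg m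
    linarith
  have hκ0 : 0 < κ := by linarith
  have d1 : (1 - s) * (J * (h - J) + K) + κ * s * K ≤ κ * (s * J ^ 2 / 2) := by
    have := mul_le_mul_of_nonneg_left c1 hκ0.le
    nlinarith
  have d2 : (1 - s) * (J * (h - J) + (J ^ 2 / 2 - 2 * J + 1)) +
      κ * s * (J ^ 2 / 2 - 2 * J + 1) ≤ κ * (s * J ^ 2 / 2) := by
    have b1 : (1 - s) * (J ^ 2 / 2 - 2 * J + 1) ≤ (1 - s) * K :=
      mul_le_mul_of_nonneg_left c2 (by linarith)
    have b2 : κ * s * (J ^ 2 / 2 - 2 * J + 1) ≤ κ * s * K :=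
      mul_le_mul_of_nonneg_left c2 (by positivity)
    nlinarith
  have d3 : (1 - s) * (J * h - J ^ 2 / 2) ≤ (2 * J - 1) * κ := by
    have b1 : (1 - s) * (J * h - J ^ 2 / 2) ≤ (κ * s + (1 - s)) * (2 * J - 1) := by
      nlinarith
    have b2 : κ * s + (1 - s) ≤ κ := by nlinarith
    have b3 : (0 : ℝ) ≤ 2 * J - 1 := by linarith
    nlinarith
  have d4 : (1 - s) * (J * h / 2) ≤ (1 - s) * (J * h - J ^ 2 / 2) := by
    refine mul_le_mul_of_nonneg_left ?_ (by linarith)
    nlinarith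
  have d5 : (1 - s) * (J * h / 2) < 2 * J * κ := by nlinarith
  have d6 : ((1 - s) * h) * (J / 2) < (4 * κ) * (J / 2) := by nlinarith
  exact lt_of_mul_lt_mul_right d6 (by linarith)

end Pool.Agent.CH10ce
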