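import Mathlib

set_option autoImplicit false

open Finset

namespace Pool.Agent.CH10ce

lemma abel' (m : ℕ) (a b : ℕ → ℝ) :
    ∑ i ∈ range (m + 1), a i * (b (i + 1) - b i) =
      a m * b (m + 1) - a 0 * b 0 - ∑ i ∈ range m, (a (i + 1) - a i) * b (i + 1) := by
  induction m with
  | zero => simp; ring
  | succ m ih =>
    rw [sum_range_succ, ih, sum_range_succ (fun i => (a (i + 1) - a i) * b (i + 1)) m]
    ring

/-- The largest index `k ≤ i` with `y k < r (i + 1)`. -/
noncomputable def kap (y r : ℕ → ℝ) (i : ℕ) : ℕ := by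
  classical
  exact Nat.findGreatest (fun k => y k < r (i + 1)) i

lemma kap_le (y r : ℕ → ℝ) (i : ℕ) : kap y r i ≤ i := by
  unfold kap
  exact Nat.findGreatest_le i

lemma kap_spec (y r : ℕ → ℝ) (i : ℕ) (h0 : y 0 < r (i + 1)) : y (kap y r i) < r (i + 1) := by
  classical
  unfold kap
  exact Nat.findGreatest_spec (P := fun k => y k < r (i + 1)) (Nat.zero_le i) h0

lemma kap_gt (y r : ℕ → ℝ) (i k : ℕ) (h1 : kap y r i < k) (h2 : k ≤ i) : r (i + 1) ≤ y k := by
  classical
  unfold kap at h1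
  have := Nat.findGreatest_is_greatest (P := fun k => y k < r (i + 1)) h1 h2
  exact not_lt.mp this

lemma kap_mono (y r : ℕ → ℝ) (i : ℕ) (h0 : y 0 < r (i + 1)) (hr : r (i + 1) ≤ r (i + 2)) :
    kap y r i ≤ kap y r (i + 1) := by
  classical
  have h1 := kap_spec y r i h0
  have h2 := kap_le y r i
  have h3 : y (kap y r i) < r (i + 1 + 1) := lt_of_lt_of_le h1 hr
  have : kap y r i ≤ Nat.findGreatest (fun k => y k < r (i + 1 + 1)) (i + 1) :=
    Nat.le_findGreatest (by omega) h3
  simpa [kap] using this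

/-- The area between the graphs of `y` and `r`, row by row. -/
lemma area (n : ℕ) (r y : ℕ → ℝ) (h0 : ∀ i < n, y 0 < r (i + 1))
    (hstep : ∀ j ≤ n, r j ≤ r (j + 1)) (hy : ∀ k ≤ n, r k ≤ y k) :
    ∑ i ∈ range n, ((r (i + 1) - r i) * ((i : ℝ) - kap y r i) + max (y (kap y r i) - r i) 0) ≤
      ∑ k ∈ range (n + 1), (y k - r k) := by
  classical
  set f : ℕ → ℕ → ℝ := fun k i => if k ≤ i then min (y k) (r (i + 1)) - min (y k) (r i) else 0
    with hf
  have hfnn : ∀ k, ∀ i < n, 0 ≤ f k i := by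
    intro k i hi
    simp only [hf]
    split_ifs
    · have := hstep i hi.le
      have h2 : min (y k) (r i) ≤ min (y k) (r (i + 1)) := min_le_min_left _ this
      linarith
    · exact le_refl _
  have hcol : ∀ k ≤ n, ∑ i ∈ range n, f k i ≤ y k - r k := by
    intro k hk
    have key : ∀ m, k ≤ m → ∑ i ∈ range m, f k i ≤ min (y k) (r m) - r k := by
      intro m hm
      induction m, hm using Nat.le_induction with
      | base =>
        have h1 : ∑ i ∈ range k, f k i = 0 := by
          refine sum_eq_zero ?_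
          intro i hi
          rw [mem_range] at hi
          simp only [hf]
          rw [if_neg (by omega)]
        rw [h1, min_eq_right (hy k hk)]
        linarith
      | succ m hm ih =>
        rw [sum_range_succ]
        have h1 : f k m = min (y k) (r (m + 1)) - min (y k) (r m) := by
          simp only [hf]
          rw [if_pos hm]
        rw [h1]
        linarith
    have h1 := key n hk
    have h2 : min (y k) (r n) ≤ y k := min_le_left _ _
    linarith
  have hrow : ∀ i < n, (r (i + 1) - r i) * ((i : ℝ) - kap y r i) +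
      max (y (kap y r i) - r i) 0 ≤ ∑ k ∈ range (n + 1), f k i := by
    intro i hi
    have hk1 := kap_le y r i
    have hk2 := kap_spec y r i (h0 i hi)
    set κ := kap y r i with hκ
    have hsub : Icc κ i ⊆ range (n + 1) := by
      intro k hk
      rw [mem_Icc] at hk
      rw [mem_range]
      omega
    have h1 : ∑ k ∈ Icc κ i, f k i ≤ ∑ k ∈ range (n + 1), f k i :=
      sum_le_sum_of_subset_of_nonneg hsub (fun k _ _ => hfnn k i hi)
    have h2 : ∑ k ∈ Icc κ i, f k i = f κ i + ∑ k ∈ Ioc κ i, f k i := by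
      rw [← Ioc_insert_left hk1, sum_insert (by simp)]
    have h3 : ∑ k ∈ Ioc κ i, f k i = (r (i + 1) - r i) * ((i : ℝ) - κ) := by
      have : ∑ k ∈ Ioc κ i, f k i = ∑ _k ∈ Ioc κ i, (r (i + 1) - r i) := by
        refine sum_congr rfl ?_
        intro k hk
        rw [mem_Ioc] at hk
        have hg := kap_gt y r i k hk.1 hk.2
        have hg2 := hstep i hi.le
        simp only [hf]
        rw [if_pos hk.2, min_eq_right hg, min_eq_right (hg2.trans hg)]
      rw [this, sum_const, Nat.card_Ioc, nsmul_eq_mul, Nat.cast_sub hk1]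
      ring
    have h4 : f κ i = max (y κ - r i) 0 := by
      simp only [hf]
      rw [if_pos hk1, min_eq_left hk2.le]
      rcases le_total (y κ) (r i) with h | h
      · rw [min_eq_left h, max_eq_right (by linarith)]
        ring
      · rw [min_eq_right h, max_eq_left (by linarith)]
    rw [h2, h3, h4] at h1
    linarith
  calc _ ≤ ∑ i ∈ range n, ∑ k ∈ range (n + 1), f k i :=
        sum_le_sum (fun i hi => hrow i (mem_range.mp hi))
    _ = ∑ k ∈ range (n + 1), ∑ i ∈ range n, f k i := sum_comm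
    _ ≤ ∑ k ∈ range (n + 1), (y k - r k) :=
        sum_le_sum (fun k hk => hcol k (by rw [mem_range] at hk; omega))

/-- The adversary lemma. -/
theorem lemmaP (m : ℕ) (c s N D : ℝ) (r y θ E : ℕ → ℝ)
    (hc : 1 ≤ c) (hs0 : 0 < s) (r0 : r 0 = 0) (y0 : y 0 = 0)
    (hr : ∀ j ≤ m + 2, s * j ≤ r j) (hrJ : r (m + 2) = s * (m + 2))
    (hstep : ∀ j ≤ m + 1, r j ≤ r (j + 1)) (hlip : ∀ j ≤ m + 1, r (j + 1) ≤ r j + 1)
    (hy : ∀ k ≤ m + 1, r k ≤ y k)
    (hθ0 : ∀ k, 0 ≤ θ k) (hθ1 : ∀ k, θ k ≤ 1) (hθd : ∀ k, θ (k + 1) ≤ θ k)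
    (hθi : ∀ k, θ k ≤ θ (k + 1) + 1 / c)
    (hT : ∀ j, 1 ≤ j → j ≤ m + 1 → ∀ k < j, y k < r j →
      c * (1 - θ k) * (1 - (r (j + 1) - r j)) ≤ (1 - θ k) * (r j - y k) + (y k - r k))
    (hE : ∀ i < m, 0 ≤ E (i + 1) ∧ s * (i + 1) + E (i + 1) ≤ r (i + 1))
    (hEn : E (m + 1) = 0) (hED : ∀ i < m, E (i + 1) - E (i + 2) ≤ D)
    (hN1 : 1 ≤ N) (hN : 1 + (1 - s) - s / c ≤ N * (s - D)) (hcμ : s ≤ c * (1 - s)) :
    (c * (1 - s) - s) * ∑ i ∈ range (m + 1), (1 - θ i) + N * ∑ i ∈ range m, E (i + 1) ≤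
      N * ∑ k ∈ range (m + 2), (y k - s * k) := by
  classical
  have hrpos : ∀ j, j ≤ m + 1 → 0 < r (j + 1) := by
    intro j hj
    have h1 := hr (j + 1) (by omega)
    push_cast at h1
    have : (0 : ℝ) ≤ j := Nat.cast_nonneg j
    nlinarith
  have h0 : ∀ i < m + 1, y 0 < r (i + 1) := by
    intro i hi
    rw [y0]
    exact hrpos i (by omega)
  set e : ℕ → ℝ := fun j => r j - s * j with he
  have he0 : e 0 = 0 := by simp [he, r0]
  have heJ : e (m + 2) = 0 := by
    simp only [he]
    rw [hrJ]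
    push_cast
    ring
  have henn : ∀ j ≤ m + 2, 0 ≤ e j := by
    intro j hj
    have := hr j hj
    simp only [he]
    linarith
  set κ : ℕ → ℕ := kap y r with hκ
  set w : ℕ → ℝ := fun i => 1 - θ (κ i) with hw
  set g : ℕ → ℝ := fun i => (i : ℝ) - κ i with hg
  have hκle : ∀ i, κ i ≤ i := kap_le y r
  have hκm : ∀ i < m, κ i ≤ κ (i + 1) := fun i hi =>
    kap_mono y r i (h0 i (by omega)) (hstep (i + 1) (by omega))
  have hθanti : ∀ a b, a ≤ b → θ b ≤ θ a := by
    intro a b hab
    induction b, hab using Nat.le_induction with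
    | base => exact le_refl _
    | succ b _ ih => exact (hθd b).trans ih
  have hθchain : ∀ a b, a ≤ b → θ a ≤ θ b + ((b : ℝ) - a) / c := by
    intro a b hab
    induction b, hab using Nat.le_induction with
    | base => simp
    | succ b _ ih =>
      have h1 := hθi b
      push_cast
      have h2 : ((b : ℝ) + 1 - a) / c = ((b : ℝ) - a) / c + 1 / c := by ring
      rw [h2]
      linarith
  have hwm : ∀ i < m, w i ≤ w (i + 1) := by
    intro i hi
    have := hθanti _ _ (hκm i hi)
    simp only [hw]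
    linarith
  have hw0 : ∀ i, 0 ≤ w i := by
    intro i
    have := hθ1 (κ i)
    simp only [hw]
    linarith
  have hw1 : ∀ i, w i ≤ 1 := by
    intro i
    have := hθ0 (κ i)
    simp only [hw]
    linarith
  have hgnn : ∀ i, 0 ≤ g i := by
    intro i
    have : (κ i : ℝ) ≤ i := by exact_mod_cast hκle i
    simp only [hg]
    linarith
  have hg0 : g 0 = 0 := by
    have : κ 0 = 0 := Nat.le_zero.mp (hκle 0)
    simp [hg, this]
  have hwlow : ∀ i, 1 - θ i - g i / c ≤ w i := by
    intro i
    have := hθchain _ _ (hκle i)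
    simp only [hw, hg]
    linarith
  have hliprange : ∀ a b, a ≤ b → b ≤ m + 2 → r b - r a ≤ (b : ℝ) - a := by
    intro a b hab
    induction b, hab using Nat.le_induction with
    | base => intro _; simp
    | succ b _ ih =>
      intro hb
      have h1 := ih (by omega)
      have h2 := hlip b (by omega)
      push_cast
      linarith
  -- the inequalities T
  have hTi : ∀ i < m + 1, c * w i * (1 - (r (i + 2) - r (i + 1))) ≤
      g i + w i * (r (i + 1) - r i) + max (y (κ i) - r i) 0 := by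
    intro i hi
    have h1 := hT (i + 1) (by omega) (by omega) (κ i) (by have := hκle i; omega)
      (kap_spec y r i (h0 i hi))
    have h2 := hliprange (κ i) i (hκle i) (by omega)
    have h3 : θ (κ i) * (y (κ i) - r i) ≤ max (y (κ i) - r i) 0 := by
      rcases le_total (y (κ i) - r i) 0 with h | h
      · rw [max_eq_right h]
        exact mul_nonpos_of_nonneg_of_nonpos (hθ0 _) h
      · rw [max_eq_left h]
        have := hθ1 (κ i)
        nlinarith
    simp only [hw, hg]
    have h4 : (1 - θ (κ i)) * (r (i + 1) - y (κ i)) + (y (κ i) - r (κ i)) =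
        (r i - r (κ i)) + (1 - θ (κ i)) * (r (i + 1) - r i) + θ (κ i) * (y (κ i) - r i) := by
      ring
    rw [h4] at h1
    have h5 : r (i + 1 + 1) = r (i + 2) := rfl
    rw [h5] at h1
    linarith
  have harea := area (m + 1) r y h0 hstep hy
  -- combine
  have hsumT : ∑ i ∈ range (m + 1), (c * w i * (1 - (r (i + 2) - r (i + 1))) - g i -
      w i * (r (i + 1) - r i)) ≤ ∑ i ∈ range (m + 1), max (y (κ i) - r i) 0 := by
    refine sum_le_sum ?_
    intro i hi
    have := hTi i (mem_range.mp hi)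
    linarith
  have hmaxnn : 0 ≤ ∑ i ∈ range (m + 1), max (y (κ i) - r i) 0 :=
    sum_nonneg (fun i _ => le_max_right _ _)
  rw [sum_add_distrib] at harea
  have hN0 : 0 ≤ N := by linarith
  have hNarea := mul_le_mul_of_nonneg_left harea hN0
  rw [mul_add] at hNarea
  have hNmax : ∑ i ∈ range (m + 1), max (y (κ i) - r i) 0 ≤
      N * ∑ i ∈ range (m + 1), max (y (κ i) - r i) 0 := le_mul_of_one_le_left hmaxnn hN1
  -- expansion in terms of e
  have x1 : ∑ i ∈ range (m + 1), (c * w i * (1 - (r (i + 2) - r (i + 1))) - g i -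
      w i * (r (i + 1) - r i)) =
      (c * (1 - s) - s) * ∑ i ∈ range (m + 1), w i - ∑ i ∈ range (m + 1), g i -
      c * ∑ i ∈ range (m + 1), w i * (e (i + 1 + 1) - e (i + 1)) -
      ∑ i ∈ range (m + 1), w i * (e (i + 1) - e i) := by
    rw [mul_sum, mul_sum, ← sum_sub_distrib, ← sum_sub_distrib, ← sum_sub_distrib]
    refine sum_congr rfl ?_
    intro i _
    simp only [he]
    push_cast
    ring
  have x2 : ∑ i ∈ range (m + 1), (r (i + 1) - r i) * ((i : ℝ) - kap y r i) =
      s * ∑ i ∈ range (m + 1), g i + ∑ i ∈ range (m + 1), g i * (e (i + 1) - e i) := by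
    rw [mul_sum, ← sum_add_distrib]
    refine sum_congr rfl ?_
    intro i _
    simp only [he, hg, hκ]
    push_cast
    ring
  have x3 : ∑ k ∈ range (m + 2), (y k - s * k) =
      ∑ k ∈ range (m + 1 + 1), (y k - r k) + (∑ i ∈ range m, e (i + 1) + e (m + 1)) := by
    have h1 : ∑ i ∈ range m, e (i + 1) + e (m + 1) = ∑ k ∈ range (m + 2), e k := by
      rw [← sum_range_succ (fun i => e (i + 1)) m, sum_range_succ' e (m + 1), he0, add_zero]
    rw [h1, ← sum_add_distrib]
    refine sum_congr rfl ?_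
    intro k _
    simp only [he]
    ring
  -- Abel summations
  have y1 : ∑ i ∈ range (m + 1), w i * (e (i + 1 + 1) - e (i + 1)) ≤ 0 := by
    rw [abel' m w (fun i => e (i + 1))]
    have h1 : e (m + 1 + 1) = 0 := heJ
    simp only [h1]
    have h2 : 0 ≤ w 0 * e (0 + 1) := mul_nonneg (hw0 0) (henn 1 (by omega))
    have h3 : 0 ≤ ∑ i ∈ range m, (w (i + 1) - w i) * e (i + 1 + 1) := by
      refine sum_nonneg ?_
      intro i hi
      rw [mem_range] at hi
      exact mul_nonneg (by linarith [hwm i hi]) (henn _ (by omega))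
    linarith
  have y2 : ∑ i ∈ range (m + 1), w i * (e (i + 1) - e i) ≤ e (m + 1) := by
    rw [abel' m w e, he0]
    have h3 : 0 ≤ ∑ i ∈ range m, (w (i + 1) - w i) * e (i + 1) := by
      refine sum_nonneg ?_
      intro i hi
      rw [mem_range] at hi
      exact mul_nonneg (by linarith [hwm i hi]) (henn _ (by omega))
    have h4 : w m * e (m + 1) ≤ 1 * e (m + 1) :=
      mul_le_mul_of_nonneg_right (hw1 m) (henn _ (by omega))
    linarith
  have y3 : ∑ i ∈ range (m + 1), g i * (e (i + 1) - e i) =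
      g m * e (m + 1) - ∑ i ∈ range m, (g (i + 1) - g i) * e (i + 1) := by
    rw [abel' m g e, he0]
    ring
  have y4 : ∑ i ∈ range m, (g (i + 1) - g i) * E (i + 1) ≤ D * ∑ i ∈ range (m + 1), g i := by
    have h1 := abel' m g E
    rw [hEn, hg0] at h1
    have h2 : ∑ i ∈ range m, (g (i + 1) - g i) * E (i + 1) =
        - ∑ i ∈ range (m + 1), g i * (E (i + 1) - E i) := by linarith
    rw [h2, ← sum_neg_distrib, mul_sum]
    refine sum_le_sum ?_
    intro i hi
    rw [mem_range] at hi
    rcases Nat.eq_zero_or_pos i with h | h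
    · subst h
      rw [hg0]
      simp
    · obtain ⟨p, rfl⟩ : ∃ p, i = p + 1 := ⟨i - 1, by omega⟩
      have h3 := hED p (by omega)
      have h4 := hgnn (p + 1)
      have h5 : E (p + 1 + 1) = E (p + 2) := rfl
      rw [h5]
      nlinarith
  have y5 : ∑ i ∈ range m, (1 - (g (i + 1) - g i)) * E (i + 1) ≤
      ∑ i ∈ range m, (1 - (g (i + 1) - g i)) * e (i + 1) := by
    refine sum_le_sum ?_
    intro i hi
    rw [mem_range] at hi
    have h1 : (κ i : ℝ) ≤ κ (i + 1) := by exact_mod_cast hκm i hi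
    have h2 : 0 ≤ 1 - (g (i + 1) - g i) := by
      simp only [hg]
      push_cast
      linarith
    have h3 : E (i + 1) ≤ e (i + 1) := by
      have := (hE i hi).2
      simp only [he]
      push_cast
      linarith
    exact mul_le_mul_of_nonneg_left h3 h2
  have y6 : ∑ i ∈ range m, (1 - (g (i + 1) - g i)) * E (i + 1) =
      ∑ i ∈ range m, E (i + 1) - ∑ i ∈ range m, (g (i + 1) - g i) * E (i + 1) := by
    rw [← sum_sub_distrib]
    refine sum_congr rfl ?_
    intro i _
    ring
  have y7 : ∑ i ∈ range m, (1 - (g (i + 1) - g i)) * e (i + 1) =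
      ∑ i ∈ range m, e (i + 1) - ∑ i ∈ range m, (g (i + 1) - g i) * e (i + 1) := by
    rw [← sum_sub_distrib]
    refine sum_congr rfl ?_
    intro i _
    ring
  have hG0 : 0 ≤ ∑ i ∈ range (m + 1), g i := sum_nonneg (fun i _ => hgnn i)
  have y8 : ∑ i ∈ range (m + 1), (1 - θ i) - (∑ i ∈ range (m + 1), g i) / c ≤
      ∑ i ∈ range (m + 1), w i := by
    rw [sum_div, ← sum_sub_distrib]
    exact sum_le_sum (fun i _ => hwlow i)
  -- final assembly
  set W := ∑ i ∈ range (m + 1), w i with hW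
  set G := ∑ i ∈ range (m + 1), g i with hG
  set TH := ∑ i ∈ range (m + 1), (1 - θ i) with hTH
  set ES := ∑ i ∈ range m, E (i + 1) with hES
  set eS := ∑ i ∈ range m, e (i + 1) with heS
  set Q := ∑ i ∈ range m, (g (i + 1) - g i) * e (i + 1) with hQ
  set QE := ∑ i ∈ range m, (g (i + 1) - g i) * E (i + 1) with hQE
  rw [x1] at hsumT
  rw [x2, y3] at hNarea
  rw [x3]
  rw [y6, y7] at y5
  have hgm := hgnn m
  have hem := henn (m + 1) (by omega)
  have z1 : 0 ≤ g m * e (m + 1) := mul_nonneg hgm hem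
  have z2 : ES - D * G ≤ eS - Q := by linarith
  have z3 : N * (ES - D * G) ≤ N * (eS - Q) := mul_le_mul_of_nonneg_left z2 hN0
  have z4 : e (m + 1) ≤ N * e (m + 1) := le_mul_of_one_le_left hem hN1
  have z5 : (c * (1 - s) - s) * (TH - G / c) ≤ (c * (1 - s) - s) * W :=
    mul_le_mul_of_nonneg_left y8 (by linarith)
  have hcpos : 0 < c := by linarith
  have z6 : (c * (1 - s) - s) * (G / c) = G * (1 - s - s / c) := by
    field_simp
  have z7 : (1 + (1 - s) - s / c) * G ≤ N * (s - D) * G := mul_le_mul_of_nonneg_right hN hG0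
  have z8 : 0 ≤ N * (g m * e (m + 1)) := mul_nonneg hN0 z1
  have z9 : c * ∑ i ∈ range (m + 1), w i * (e (i + 1 + 1) - e (i + 1)) ≤ 0 :=
    mul_nonpos_of_nonneg_of_nonpos hcpos.le y1
  nlinarith

end Pool.Agent.CH10ce
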