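import Mathlib

set_option autoImplicit false

open Finset

namespace Pool.Agent.CH10ce

variable {V : Type*} [DecidableEq V]

/-- The set of vertices reached from `y` by a walk of length at least `1` and at most `t`. -/
def ball (N : V → Finset V) : ℕ → V → Finset V
  | 0, _ => ∅
  | t + 1, y => N y ∪ (ball N t y).biUnion N

@[simp] lemma ball_zero (N : V → Finset V) (y : V) : ball N 0 y = ∅ := rfl

lemma ball_succ (N : V → Finset V) (t : ℕ) (y : V) :
    ball N (t + 1) y = N y ∪ (ball N t y).biUnion N := rfl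

lemma ball_one (N : V → Finset V) (y : V) : ball N 1 y = N y := by
  simp [ball_succ]

lemma nbr_subset_ball (N : V → Finset V) {t : ℕ} (ht : 1 ≤ t) (y : V) : N y ⊆ ball N t y := by
  obtain ⟨t, rfl⟩ : ∃ u, t = u + 1 := ⟨t - 1, by omega⟩
  rw [ball_succ]
  exact subset_union_left

lemma ball_subset_succ (N : V → Finset V) (t : ℕ) (y : V) : ball N t y ⊆ ball N (t + 1) y := by
  induction t with
  | zero => simp
  | succ t ih =>
    rw [ball_succ N (t + 1), ball_succ N t]
    exact union_subset_union_right (biUnion_subset_biUnion_of_subset_left _ ih)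

lemma ball_mono (N : V → Finset V) {s t : ℕ} (h : s ≤ t) (y : V) : ball N s y ⊆ ball N t y := by
  induction t, h using Nat.le_induction with
  | base => exact Subset.refl _
  | succ t _ ih => exact ih.trans (ball_subset_succ N t y)

lemma nbr_of_mem_ball (N : V → Finset V) {t : ℕ} {x y : V} (hx : x ∈ ball N t y) :
    N x ⊆ ball N (t + 1) y := by
  intro z hz
  rw [ball_succ, mem_union, mem_biUnion]
  exact Or.inr ⟨x, hx, hz⟩

lemma ball_trans (N : V → Finset V) {s t : ℕ} {x y z : V} (hx : x ∈ ball N s y)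
    (hz : z ∈ ball N t x) : z ∈ ball N (s + t) y := by
  induction t generalizing z with
  | zero => simp at hz
  | succ t ih =>
    rw [ball_succ, mem_union, mem_biUnion] at hz
    have hb : ball N (s + (t + 1)) y = N y ∪ (ball N (s + t) y).biUnion N := rfl
    rw [hb, mem_union, mem_biUnion]
    right
    rcases hz with hz | ⟨a, ha, hz⟩
    · exact ⟨x, ball_mono N (by omega) y hx, hz⟩
    · exact ⟨a, ih ha, hz⟩

lemma ball_subset_of_mem (N : V → Finset V) {s t u : ℕ} {x y : V} (hx : x ∈ ball N s y)
    (hu : s + t ≤ u) : ball N t x ⊆ ball N u y :=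
  fun _ hz => ball_mono N hu y (ball_trans N hx hz)

lemma ball_subset_ambient (N : V → Finset V) (U : Finset V) (hN : ∀ y ∈ U, N y ⊆ U) (t : ℕ)
    {y : V} (hy : y ∈ U) : ball N t y ⊆ U := by
  induction t with
  | zero => simp
  | succ t ih =>
    rw [ball_succ]
    refine union_subset (hN y hy) ?_
    intro z hz
    rw [mem_biUnion] at hz
    obtain ⟨a, ha, hz⟩ := hz
    exact hN a (ih ha) hz

lemma ball_mono_nbr (N N' : V → Finset V) (h : ∀ y, N y ⊆ N' y) (t : ℕ) (y : V) :
    ball N t y ⊆ ball N' t y := by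
  induction t with
  | zero => simp
  | succ t ih =>
    rw [ball_succ, ball_succ]
    refine union_subset_union (h y) ?_
    intro z hz
    rw [mem_biUnion] at hz ⊢
    obtain ⟨a, ha, hz⟩ := hz
    exact ⟨a, ih ha, h a hz⟩

/-- Double counting of the pairs at distance at most `s` or at most `t` inside `R`. -/
lemma double_count (N : V → Finset V) (R : Finset V) (s t : ℕ)
    (h : ∀ y ∈ R, y ∉ ball N (s + t) y) :
    ∑ y ∈ R, #(ball N s y ∩ R) + ∑ y ∈ R, #(ball N t y ∩ R) ≤ #R ^ 2 := by
  have e : ∀ u : ℕ, ∀ y ∈ R, #(ball N u y ∩ R) = ∑ z ∈ R, if z ∈ ball N u y then 1 else 0 := by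
    intro u y _
    rw [inter_comm, ← Finset.filter_mem_eq_inter, card_filter]
  rw [sum_congr rfl (e s), sum_congr rfl (e t)]
  rw [sum_comm (s := R) (t := R) (f := fun y z => if z ∈ ball N t y then 1 else 0)]
  rw [← sum_add_distrib]
  have hle : ∀ y ∈ R, ((∑ z ∈ R, if z ∈ ball N s y then 1 else 0) +
      ∑ x ∈ R, if y ∈ ball N t x then 1 else 0) ≤ #R := by
    intro y hy
    rw [← sum_add_distrib, card_eq_sum_ones]
    refine sum_le_sum ?_
    intro z hz
    by_cases h1 : z ∈ ball N s y
    · by_cases h2 : y ∈ ball N t z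
      · exact absurd (ball_trans N h1 h2) (h y hy)
      · simp [h1, h2]
    · by_cases h2 : y ∈ ball N t z
      · simp [h1, h2]
      · simp [h1, h2]
  calc _ ≤ ∑ _y ∈ R, #R := sum_le_sum hle
    _ = #R ^ 2 := by rw [sum_const, smul_eq_mul, sq]

lemma exists_walk (N : V → Finset V) {t : ℕ} {y z : V} (h : z ∈ ball N t y) :
    ∃ (l : ℕ) (w : ℕ → V), 1 ≤ l ∧ l ≤ t ∧ w 0 = y ∧ w l = z ∧ ∀ i < l, w (i + 1) ∈ N (w i) := by
  induction t generalizing z with
  | zero => simp at h
  | succ t ih =>
    rw [ball_succ, mem_union, mem_biUnion] at h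
    rcases h with h | ⟨a, ha, h⟩
    · refine ⟨1, fun i => if i = 0 then y else z, le_refl _, by omega, by simp, by simp, ?_⟩
      intro i hi
      have : i = 0 := by omega
      subst this
      simpa using h
    · obtain ⟨l, w, h1, h2, h3, h4, h5⟩ := ih ha
      refine ⟨l + 1, fun i => if i ≤ l then w i else z, by omega, by omega, by simp [h3],
        by simp, ?_⟩
      intro i hi
      rcases Nat.lt_or_ge i l with hil | hil
      · have a1 : i + 1 ≤ l := by omega
        have a2 : i ≤ l := by omega
        simp only [a1, a2, if_true]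
        exact h5 i hil
      · have a0 : i = l := by omega
        subst a0
        have a1 : ¬ (i + 1 ≤ i) := by omega
        simp only [a1, le_refl, if_true, if_false]
        rw [h4]
        exact h

lemma walk_mem_ball (N : V → Finset V) (w : ℕ → V) (l : ℕ)
    (hw : ∀ i < l, w (i + 1) ∈ N (w i)) (i j : ℕ) (hij : i < j) (hj : j ≤ l) :
    w j ∈ ball N (j - i) (w i) := by
  induction j, hij using Nat.le_induction with
  | base =>
    have : i.succ - i = 1 := by omega
    rw [this, ball_one]
    exact hw i (by omega)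
  | succ j hij ih =>
    have h1 := ih (by omega)
    have h2 : j + 1 - i = (j - i) + 1 := by omega
    rw [h2]
    exact nbr_of_mem_ball N h1 (hw j (by omega))

/-- A closed walk of length at most `L` gives a directed cycle of length at most `L`. -/
theorem exists_cycle (N : V → Finset V) (hloop : ∀ v, v ∉ N v) (L : ℕ) (y : V)
    (hy : y ∈ ball N L y) :
    ∃ m : ℕ, 2 ≤ m ∧ m ≤ L ∧ ∃ c : Fin m → V, Function.Injective c ∧
      ∀ i, c (finRotate m i) ∈ N (c i) := by
  classical
  have hex : ∃ m, ∃ z, z ∈ ball N m z := ⟨L, y, hy⟩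
  set m := Nat.find hex with hm
  obtain ⟨z, hz⟩ : ∃ z, z ∈ ball N m z := Nat.find_spec hex
  have hmin : ∀ l < m, ∀ x, x ∉ ball N l x := by
    intro l hl x hx
    exact Nat.find_min hex hl ⟨x, hx⟩
  have hmL : m ≤ L := Nat.find_min' hex ⟨y, hy⟩
  obtain ⟨l, w, h1, h2, h3, h4, h5⟩ := exists_walk N hz
  have hlm : l = m := by
    by_contra hne
    have hlt : l < m := by omega
    have := walk_mem_ball N w l h5 0 l (by omega) le_rfl
    rw [h4, h3] at this
    exact hmin l hlt z this
  rw [hlm] at h4 h5
  have hm2 : 2 ≤ m := by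
    by_contra hlt
    have hm1 : m = 1 := by omega
    rw [hm1, ball_one] at hz
    exact hloop z hz
  refine ⟨m, hm2, hmL, fun i => w i, ?_, ?_⟩
  · have key : ∀ i j : ℕ, i < j → j < m → w i ≠ w j := by
      intro i j hij hj heq
      have := walk_mem_ball N w m h5 i j hij hj.le
      rw [← heq] at this
      exact hmin (j - i) (by omega) (w i) this
    intro i j hij
    simp only at hij
    rcases lt_trichotomy (i : ℕ) (j : ℕ) with h | h | h
    · exact absurd hij (key i j h j.2)
    · exact Fin.ext h
    · exact absurd hij.symm (key j i h i.2)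
  · intro i
    obtain ⟨p, hp⟩ : ∃ p, m = p + 1 := ⟨m - 1, by omega⟩
    have hw : w ((finRotate m i : Fin m) : ℕ) = w ((i : ℕ) + 1) := by
      clear_value m
      subst hp
      rw [coe_finRotate]
      split_ifs with hi
      · rw [hi, Fin.val_last, h4, h3]
      · rfl
    simp only [hw]
    exact h5 i i.2

end Pool.Agent.CH10ce
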