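import Pool.Agent.Lib.CH10ce.Core

set_option autoImplicit false

open Finset

namespace Pool.Agent.CH10ce

variable {V : Type*} [DecidableEq V] {N : V → Finset V} {U : Finset V} {d : ℕ}

/-- The chain argument for a set of starting vertices. -/
lemma Setup.chain_set (S : Setup N U d) (A B X : Finset V) (hA : A ⊆ U) (lam : ℝ)
    (hlam : ∀ y ∈ A, lam * d ≤ #(N y ∩ A)) (M : ℕ) (hne : X.Nonempty) (hXA : X ⊆ A)
    (hXB : ∀ x ∈ X, x ∉ B) (hdis : ∀ x ∈ X, Disjoint (ball N M x) B) :
    lam * (∑ i ∈ range M, ratio U d ^ i) * d + ratio U d ^ M * #X ≤ #(A \ B) := by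
  classical
  set Q : ℕ → Finset V := fun m => (A \ B).filter fun y => Disjoint (ball N m y) B with hQ
  have hxQ : ∀ m ≤ M, X ⊆ Q m := by
    intro m hm x hx
    simp only [hQ, mem_filter, mem_sdiff]
    exact ⟨⟨hXA hx, hXB x hx⟩, disjoint_of_subset_left (ball_mono N hm x) (hdis x hx)⟩
  have key : ∀ i ≤ M, lam * (∑ i ∈ range i, ratio U d ^ i) * d + ratio U d ^ i * #X ≤
      #(Q (M - i)) := by
    intro i hi
    induction i with
    | zero =>
      simp only [range_zero, sum_empty, mul_zero, zero_mul, pow_zero, one_mul, zero_add]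
      exact_mod_cast card_le_card (hxQ (M - 0) (by omega))
    | succ i ih =>
      have h1 := ih (by omega)
      obtain ⟨m, hm⟩ : ∃ m, M - i = m + 1 := ⟨M - i - 1, by omega⟩
      have hm' : M - (i + 1) = m := by omega
      rw [hm] at h1
      rw [hm']
      have hd := S.dR
      have h2 := S.expand (Q m) (Q (m + 1)) (by
        intro y hy
        simp only [hQ, mem_filter] at hy ⊢
        exact ⟨hy.1, disjoint_of_subset_left (ball_subset_succ N m y) hy.2⟩) (by
        intro y hy
        simp only [hQ, mem_filter, mem_sdiff] at hy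
        exact hA hy.1.1) (hne.mono (hxQ (m + 1) (by omega))) lam (by
        intro y hy
        simp only [hQ, mem_filter, mem_sdiff] at hy
        refine ⟨N y ∩ A, inter_subset_left, ?_, hlam y hy.1.1⟩
        intro z hz
        rw [mem_inter] at hz
        simp only [hQ, mem_filter, mem_sdiff]
        have hz1 : z ∈ ball N 1 y := by rw [ball_one]; exact hz.1
        refine ⟨⟨hz.2, ?_⟩, ?_⟩
        · exact Finset.disjoint_left.mp hy.2 (ball_mono N (by omega) y hz1)
        · exact disjoint_of_subset_left (ball_subset_of_mem N hz1 (by omega)) hy.2)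
      refine le_trans ?_ h2
      rw [geom_sum_succ, pow_succ]
      have h4 := mul_le_mul_of_nonneg_left h1 S.ratio_nonneg
      have h5 : (lam + ratio U d * ((#(Q (m + 1)) : ℝ) / d)) * d =
          lam * d + ratio U d * #(Q (m + 1)) := by
        field_simp
      rw [h5]
      nlinarith
  have h1 := key M le_rfl
  rw [Nat.sub_self] at h1
  refine h1.trans ?_
  exact_mod_cast card_le_card (filter_subset _ _)

/-- Averaging: some vertex has small balls. -/
lemma Setup.avg (S : Setup N U d) (s t : ℕ) (hcyc : ∀ y ∈ U, y ∉ ball N (s + t) y) :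
    ∃ y ∈ U, #(ball N s y) + #(ball N t y) ≤ #U := by
  by_contra hcon
  push Not at hcon
  have h1 := double_count N U s t hcyc
  have h2 : ∀ u, ∀ y ∈ U, #(ball N u y ∩ U) = #(ball N u y) := by
    intro u y hy
    rw [inter_eq_left.mpr (ball_subset_ambient N U S.sub u hy)]
  rw [sum_congr rfl (h2 s), sum_congr rfl (h2 t), ← sum_add_distrib] at h1
  have h3 : ∑ _y ∈ U, #U < ∑ y ∈ U, (#(ball N s y) + #(ball N t y)) :=
    sum_lt_sum_of_nonempty S.ne hcon
  rw [sum_const, smul_eq_mul, ← sq] at h3
  omega

/-- A closed neighbourhood system: some vertex of `A` has few out-neighbours in `A`. -/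
lemma Setup.closed (S : Setup N U d) (A : Finset V) (hA : A ⊆ U) (hne : A.Nonempty) (lam : ℝ)
    (hlam : ∀ y ∈ A, lam * d ≤ #(N y ∩ A)) :
    ((#U : ℝ) / d) * lam ≤ (#A : ℝ) / d := by
  obtain ⟨y, hy, hext⟩ := S.ext A hA hne
  have h1 := hlam y hy
  have hd := S.dR
  have hU := S.UR
  have h2 : (#(N y ∩ A) : ℝ) * #U ≤ d * #A := by exact_mod_cast hext
  have h3 : lam * d * #U ≤ d * #A := (mul_le_mul_of_nonneg_right h1 hU.le).trans h2
  rw [div_mul_eq_mul_div]
  refine div_le_div_of_nonneg_right ?_ hd.le
  have h4 : d * (#U * lam) ≤ d * (#A : ℝ) := by linarith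
  exact le_of_mul_le_mul_left h4 hd

/-- Counting multiples: for `v ≥ 0` the number of `k` in `1, …, n` with `a (n + 1 - k) ≤ v`,
multiplied by `a`, is at most `v`. -/
lemma count_multiples (a v : ℝ) (ha : 0 < a) (hv : 0 ≤ v) (n : ℕ) :
    ∑ k ∈ Icc 1 n, (if a * ((n : ℝ) + 1 - k) ≤ v then a else 0) ≤ v := by
  classical
  have key : ∀ n : ℕ, ∑ k ∈ Icc 1 n, (if a * ((n : ℝ) + 1 - k) ≤ v then a else 0) ≤ v ∧
      ∑ k ∈ Icc 1 n, (if a * ((n : ℝ) + 1 - k) ≤ v then a else 0) ≤ a * n := by
    intro n
    induction n with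
    | zero => simp [hv]
    | succ n ih =>
      have e : ∑ k ∈ Icc 1 (n + 1), (if a * (((n + 1 : ℕ) : ℝ) + 1 - k) ≤ v then a else 0) =
          (if a * ((n : ℝ) + 1) ≤ v then a else 0) +
          ∑ k ∈ Icc 1 n, (if a * ((n : ℝ) + 1 - k) ≤ v then a else 0) := by
        have h1 : Icc 1 (n + 1) = insert 1 ((Icc 1 n).image (· + 1)) := by
          ext k
          simp only [mem_Icc, mem_insert, mem_image]
          constructor
          · rintro ⟨h1, h2⟩
            rcases Nat.eq_or_lt_of_le h1 with h | h
            · exact Or.inl h.symm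
            · exact Or.inr ⟨k - 1, by omega, by omega⟩
          · rintro (h | ⟨b, hb, rfl⟩)
            · omega
            · omega
        rw [h1, sum_insert, sum_image]
        · congr 1
          · push_cast
            have : a * ((n : ℝ) + 1 + 1 - 1) = a * ((n : ℝ) + 1) := by ring
            rw [this]
          · refine sum_congr rfl ?_
            intro k _
            push_cast
            have : a * ((n : ℝ) + 1 + 1 - (k + 1)) = a * ((n : ℝ) + 1 - k) := by ring
            rw [this]
        · intro x _ y _ hxy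
          simpa using hxy
        · simp only [mem_image, mem_Icc, not_exists, not_and]
          intro x hx
          omega
      rw [e]
      obtain ⟨ih1, ih2⟩ := ih
      split_ifs with h
      · constructor
        · linarith
        · push_cast
          linarith
      · constructor
        · linarith
        · push_cast
          linarith
  exact (key n).1

end Pool.Agent.CH10ce
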