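import Pool.Agent.Lib.CH10ce.Area

set_option autoImplicit false

open Finset

namespace Pool.Agent.CH10ce

/-- The largest minorant of `r` with increments at most `1`. -/
noncomputable def lipm (r : ℕ → ℝ) : ℕ → ℝ
  | 0 => 0
  | j + 1 => min (r (j + 1)) (lipm r j + 1)

lemma lipm_zero (r : ℕ → ℝ) : lipm r 0 = 0 := rfl

lemma lipm_succ (r : ℕ → ℝ) (j : ℕ) : lipm r (j + 1) = min (r (j + 1)) (lipm r j + 1) := rfl

lemma lipm_le (r : ℕ → ℝ) (h0 : r 0 = 0) (j : ℕ) : lipm r j ≤ r j := by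
  cases j with
  | zero => rw [lipm_zero, h0]
  | succ j => rw [lipm_succ]; exact min_le_left _ _

lemma lipm_lip (r : ℕ → ℝ) (j : ℕ) : lipm r (j + 1) ≤ lipm r j + 1 := by
  rw [lipm_succ]
  exact min_le_right _ _

lemma lipm_ge (r : ℕ → ℝ) (s : ℝ) (hs1 : s ≤ 1) (J : ℕ) (hr : ∀ j ≤ J, s * j ≤ r j) :
    ∀ j ≤ J, s * j ≤ lipm r j := by
  intro j hj
  induction j with
  | zero => rw [lipm_zero]; simp
  | succ j ih =>
    rw [lipm_succ]
    refine le_min (hr (j + 1) hj) ?_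
    have := ih (by omega)
    push_cast
    linarith

lemma lipm_step (r : ℕ → ℝ) (h0 : r 0 = 0) (j : ℕ) (hstep : r j ≤ r (j + 1)) :
    lipm r j ≤ lipm r (j + 1) := by
  rw [lipm_succ]
  refine le_min ((lipm_le r h0 j).trans hstep) ?_
  linarith

lemma lipm_one (r : ℕ → ℝ) (h1 : 1 ≤ r 1) : lipm r 1 = 1 := by
  have h2 : lipm r 1 = min (r 1) (0 + 1) := rfl
  rw [h2, zero_add]
  exact min_eq_right h1

lemma lipm_closed (r : ℕ → ℝ) (h0 : r 0 = 0) (c : ℝ) (hc : 1 ≤ c) (j : ℕ)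
    (hnn : 0 ≤ lipm r j) (hC : c * (1 - (r (j + 1) - r j)) ≤ r j) :
    c * (1 - (lipm r (j + 1) - lipm r j)) ≤ lipm r j := by
  have hle := lipm_le r h0 j
  rw [lipm_succ]
  rcases le_total (r (j + 1)) (lipm r j + 1) with h | h
  · rw [min_eq_left h]
    nlinarith
  · rw [min_eq_right h]
    have : c * (1 - (lipm r j + 1 - lipm r j)) = 0 := by ring
    rw [this]
    exact hnn

lemma lipm_T (r : ℕ → ℝ) (h0 : r 0 = 0) (c : ℝ) (hc : 1 ≤ c) (j k : ℕ) (yk θ : ℝ)
    (hθ1 : θ ≤ 1) (hyk : r k ≤ yk) (hlt : yk < lipm r j)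
    (hT : yk < r j → c * (1 - θ) * (1 - (r (j + 1) - r j)) ≤ (1 - θ) * (r j - yk) + (yk - r k)) :
    c * (1 - θ) * (1 - (lipm r (j + 1) - lipm r j)) ≤
      (1 - θ) * (lipm r j - yk) + (yk - lipm r k) := by
  have hle := lipm_le r h0 j
  have hlek := lipm_le r h0 k
  have hTT := hT (lt_of_lt_of_le hlt hle)
  rw [lipm_succ]
  rcases le_total (r (j + 1)) (lipm r j + 1) with h | h
  · rw [min_eq_left h]
    have h1 : 0 ≤ (1 - θ) * (r j - lipm r j) := mul_nonneg (by linarith) (by linarith)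
    have h2 : (1 - θ) * (r j - lipm r j) ≤ c * ((1 - θ) * (r j - lipm r j)) :=
      le_mul_of_one_le_left h1 hc
    nlinarith
  · rw [min_eq_right h]
    have : c * (1 - θ) * (1 - (lipm r j + 1 - lipm r j)) = 0 := by ring
    rw [this]
    have h1 : 0 ≤ (1 - θ) * (lipm r j - yk) := mul_nonneg (by linarith) (by linarith)
    linarith

lemma lipm_growth (r : ℕ → ℝ) (h0 : r 0 = 0) (h1 : 1 ≤ r 1) (c : ℝ) (hc : 1 ≤ c) (J : ℕ)
    (hnn : ∀ j ≤ J, 0 ≤ lipm r j)
    (hC : ∀ j, 1 ≤ j → j < J → c * (1 - (r (j + 1) - r j)) ≤ r j) :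
    ∀ j ≤ J, ∑ i ∈ range j, (1 - 1 / c) ^ i ≤ lipm r j := by
  intro j hj
  have hcpos : 0 < c := by linarith
  have hq : 0 ≤ 1 - 1 / c := by
    have : 1 / c ≤ 1 := by rw [div_le_one hcpos]; exact hc
    linarith
  induction j with
  | zero => rw [lipm_zero]; simp
  | succ j ih =>
    rcases Nat.eq_zero_or_pos j with h | h
    · subst h
      rw [zero_add, lipm_one r h1]
      simp
    · have h2 := ih (by omega)
      have h3 := lipm_closed r h0 c hc j (hnn j (by omega)) (hC j h (by omega))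
      rw [geom_sum_succ]
      have h4 := mul_le_mul_of_nonneg_left h2 hq
      have h5 : (1 - 1 / c) * lipm r j + 1 ≤ lipm r (j + 1) := by
        have h6 : c * ((1 - 1 / c) * lipm r j + 1) ≤ c * lipm r (j + 1) := by
          have e1 : c * ((1 - 1 / c) * lipm r j + 1) = c * lipm r j - lipm r j + c := by
            field_simp
          rw [e1]
          nlinarith
        exact le_of_mul_le_mul_left h6 hcpos
      linarith

/-- Second order Bernoulli bound. -/
lemma bern2 (z : ℝ) (hz0 : 0 ≤ z) (hz1 : z ≤ 1) (M : ℕ) :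
    (M : ℝ) * z - (M : ℝ) * (M - 1) / 2 * z ^ 2 ≤ 1 - (1 - z) ^ M := by
  induction M with
  | zero => simp
  | succ M ih =>
    have h1 : (1 - z) * (1 - z) ^ M ≤
        (1 - z) * (1 - ((M : ℝ) * z - (M : ℝ) * (M - 1) / 2 * z ^ 2)) :=
      mul_le_mul_of_nonneg_left (by linarith) (by linarith)
    have e : (1 - z) ^ (M + 1) = (1 - z) * (1 - z) ^ M := by ring
    rw [e]
    push_cast
    have h2 : 0 ≤ (M : ℝ) * (M - 1) := by
      rcases Nat.eq_zero_or_pos M with h | h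
      · subst h; simp
      · have : (1 : ℝ) ≤ M := by exact_mod_cast h
        nlinarith
    have h3 : 0 ≤ (M : ℝ) * (M - 1) * z ^ 3 := mul_nonneg h2 (by positivity)
    nlinarith

/-- Lower bound for the sum of `1 - q ^ M`. -/
lemma sum_phi (z : ℝ) (hz0 : 0 ≤ z) (hz1 : z ≤ 1) (n : ℕ) :
    (n : ℝ) * (n - 1) / 2 * z - (n : ℝ) * (n - 1) * (n - 2) / 6 * z ^ 2 ≤
      ∑ M ∈ range n, (1 - (1 - z) ^ M) := by
  induction n with
  | zero => simp
  | succ n ih =>
    rw [sum_range_succ]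
    have h1 := bern2 z hz0 hz1 n
    push_cast
    nlinarith

/-- Averages of the first terms of an antitone sequence decrease. -/
lemma avg_antitone (ψ : ℕ → ℝ) (hψ : Antitone ψ) (n m : ℕ) (hnm : n ≤ m) :
    (n : ℝ) * ∑ i ∈ range m, ψ i ≤ (m : ℝ) * ∑ i ∈ range n, ψ i := by
  induction m, hnm using Nat.le_induction with
  | base => exact le_refl _
  | succ m hm ih =>
    rw [sum_range_succ]
    have h1 : (n : ℝ) * ψ m ≤ ∑ i ∈ range n, ψ i := by
      have h2 : ∑ _i ∈ range n, ψ m ≤ ∑ i ∈ range n, ψ i := by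
        refine sum_le_sum ?_
        intro i hi
        rw [mem_range] at hi
        exact hψ (by omega)
      rw [sum_const, card_range, nsmul_eq_mul] at h2
      exact h2
    push_cast
    nlinarith

/-- The sum of the first `n` values `1 - q ^ (τ - 2 - i)`, compared with the full sum. -/
lemma theta_low (q : ℝ) (hq0 : 0 ≤ q) (hq1 : q ≤ 1) (τ n m : ℕ) (hnm : n ≤ m) :
    (n : ℝ) * ∑ i ∈ range m, (1 - q ^ (τ - 2 - i)) ≤
      (m : ℝ) * ∑ i ∈ range n, (1 - q ^ (τ + i - (n + 1))) := by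
  have h1 : ∑ i ∈ range n, (1 - q ^ (τ + i - (n + 1))) =
      ∑ i ∈ range n, (1 - q ^ (τ - 2 - i)) := by
    rw [← sum_range_reflect]
    refine sum_congr rfl ?_
    intro i hi
    rw [mem_range] at hi
    have : τ + (n - 1 - i) - (n + 1) = τ - 2 - i := by omega
    rw [this]
  rw [h1]
  refine avg_antitone (fun i => 1 - q ^ (τ - 2 - i)) ?_ n m hnm
  intro a b hab
  have : q ^ (τ - 2 - a) ≤ q ^ (τ - 2 - b) := pow_le_pow_of_le_one hq0 hq1 (by omega)
  simp only
  linarith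

lemma theta_full (q : ℝ) (τ m : ℕ) (hm : m = τ - 1 ∨ m = τ) (hτ : 1 ≤ τ) :
    ∑ i ∈ range m, (1 - q ^ (τ - 2 - i)) = ∑ M ∈ range (τ - 1), (1 - q ^ M) := by
  obtain ⟨p, rfl⟩ : ∃ p, τ = p + 1 := ⟨τ - 1, by omega⟩
  have h0 : ∑ i ∈ range p, (1 - q ^ (p + 1 - 2 - i)) = ∑ M ∈ range p, (1 - q ^ M) := by
    rw [← sum_range_reflect]
    refine sum_congr rfl ?_
    intro i hi
    rw [mem_range] at hi
    have : p + 1 - 2 - (p - 1 - i) = i := by omega
    rw [this]
  have hp : p + 1 - 1 = p := by omega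
  rcases hm with h | h
  · rw [h, hp]
    exact h0
  · rw [h, sum_range_succ, h0, hp]
    have : p + 1 - 2 - p = 0 := by omega
    rw [this]
    simp

end Pool.Agent.CH10ce
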