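import Pool.Agent.Lib.CH10ce.NumMain
import Pool.Agent.Lib.CH10ce.Lip

set_option autoImplicit false

open Finset

namespace Pool.Agent.CH10ce

/-- The correction terms. -/
noncomputable def Eseq (e1 e2 e3 : ℝ) : ℕ → ℝ
  | 1 => e1
  | 2 => e2
  | 3 => e3
  | 4 => e3
  | 5 => 3 / 4 * e3
  | 6 => 1 / 2 * e3
  | 7 => 1 / 4 * e3
  | _ => 0

lemma Eseq_big (e1 e2 e3 : ℝ) (j : ℕ) (hj : 8 ≤ j) : Eseq e1 e2 e3 j = 0 := by
  obtain ⟨p, rfl⟩ : ∃ p, j = p + 8 := ⟨j - 8, by omega⟩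
  rfl

lemma Eseq_sum (e1 e2 e3 : ℝ) (m : ℕ) (hm : 7 ≤ m) :
    ∑ i ∈ range m, Eseq e1 e2 e3 (i + 1) = e1 + e2 + 7 / 2 * e3 := by
  induction m, hm using Nat.le_induction with
  | base =>
    simp only [sum_range_succ, sum_range_zero, Eseq]
    ring
  | succ m hm ih =>
    rw [sum_range_succ, ih, Eseq_big _ _ _ (m + 1) (by omega), add_zero]

/-- A geometric sum of length at most `8` is too large. -/
lemma small_J (z s : ℝ) (hz0 : 0 < z) (hz1 : z < 1 / 12) (hs : s * (1 + 4 * z) ≤ 1) (n : ℕ)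
    (hn1 : 1 ≤ n) (hn : n ≤ 7) (h : ∑ i ∈ range (n + 1), (1 - z) ^ i ≤ s * ((n : ℝ) + 1)) :
    False := by
  have h1 : (∑ i ∈ range (n + 1), (1 - z) ^ i) * (1 + 4 * z) ≤ (n : ℝ) + 1 := by
    have h2 := mul_le_mul_of_nonneg_right h (by linarith : (0 : ℝ) ≤ 1 + 4 * z)
    have h3 : (0 : ℝ) ≤ (n : ℝ) + 1 := by positivity
    nlinarith
  have hz2 : 0 < z ^ 2 := by positivity
  have hz3 : 0 < z ^ 3 := by positivity
  have hz4 : 0 < z ^ 4 := by positivity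
  have hz5 : 0 < z ^ 5 := by positivity
  have hz6 : 0 < z ^ 6 := by positivity
  have hz7 : 0 < z ^ 7 := by positivity
  have b0 : 0 ≤ 1 / 12 - z := by linarith
  have b1 : 0 ≤ z * (1 / 12 - z) := by positivity
  have b2 : 0 ≤ z ^ 2 * (1 / 12 - z) := by positivity
  have b3 : 0 ≤ z ^ 3 * (1 / 12 - z) := by positivity
  have b4 : 0 ≤ z ^ 4 * (1 / 12 - z) := by positivity
  have b5 : 0 ≤ z ^ 5 * (1 / 12 - z) := by positivity
  have b6 : 0 ≤ z ^ 6 * (1 / 12 - z) := by positivity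
  have b7 : 0 ≤ z ^ 7 * (1 / 12 - z) := by positivity
  have d1 : 0 ≤ z * (1 / 12 - z) ^ 2 := by positivity
  interval_cases n <;> simp only [sum_range_succ, sum_range_zero] at h1 <;> push_cast at h1 <;>
    nlinarith

/-- The lower bounds for the beginning of the sequence. -/
lemma low_E (z s0 : ℝ) (hz0 : 0 < z) (hz1 : z < 1 / 12) (hs : s0 * (1 + 4 * z) ≤ 1)
    (hs0 : 0 < s0) :
    3 - 3 * z + z ^ 2 - 3 * s0 ≤ ∑ i ∈ range 4, (1 - z) ^ i - 4 * s0 ∧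
    3 / 4 * (3 - 3 * z + z ^ 2 - 3 * s0) ≤ ∑ i ∈ range 5, (1 - z) ^ i - 5 * s0 ∧
    1 / 2 * (3 - 3 * z + z ^ 2 - 3 * s0) ≤ ∑ i ∈ range 6, (1 - z) ^ i - 6 * s0 ∧
    1 / 4 * (3 - 3 * z + z ^ 2 - 3 * s0) ≤ ∑ i ∈ range 7, (1 - z) ^ i - 7 * s0 := by
  have hz2 : 0 < z ^ 2 := by positivity
  have hz3 : 0 < z ^ 3 := by positivity
  have hz4 : 0 < z ^ 4 := by positivity
  have hz5 : 0 < z ^ 5 := by positivity
  have hz6 : 0 < z ^ 6 := by positivity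
  have b0 : 0 ≤ 1 / 12 - z := by linarith
  have b1 : 0 ≤ z * (1 / 12 - z) := by positivity
  have b2 : 0 ≤ z ^ 2 * (1 / 12 - z) := by positivity
  have b3 : 0 ≤ z ^ 3 * (1 / 12 - z) := by positivity
  have b4 : 0 ≤ z ^ 4 * (1 / 12 - z) := by positivity
  have b5 : 0 ≤ z ^ 5 * (1 / 12 - z) := by positivity
  have b6 : 0 ≤ z ^ 6 * (1 / 12 - z) := by positivity
  have hpos : 0 < 1 + 4 * z := by linarith
  simp only [sum_range_succ, sum_range_zero]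
  refine ⟨?_, ?_, ?_, ?_⟩
  · refine le_of_mul_le_mul_right ?_ hpos
    nlinarith
  · refine le_of_mul_le_mul_right ?_ hpos
    nlinarith
  · refine le_of_mul_le_mul_right ?_ hpos
    nlinarith
  · refine le_of_mul_le_mul_right ?_ hpos
    nlinarith

end Pool.Agent.CH10ce
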