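import Pool.Agent.Lib.CH10ce.Contra

set_option autoImplicit false

open Finset

namespace Pool.Agent.CH10ce

lemma sum_id_real (n : ℕ) : ∑ k ∈ range (n + 1), (k : ℝ) = (n : ℝ) * (n + 1) / 2 := by
  induction n with
  | zero => simp
  | succ n ih =>
    rw [sum_range_succ, ih]
    push_cast
    ring

/-- The purely real part of the argument. -/
theorem real_contra (n τ1 τ2 : ℕ) (L c s : ℝ) (r y1 y2 : ℕ → ℝ)
    (hτ : τ1 = τ2 ∨ τ1 = τ2 + 1) (hLdef : L = (τ1 : ℝ) + τ2) (hL : 17 ≤ L) (hnτ : n + 1 ≤ τ1)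
    (hc1 : L - 5 < c) (hc2 : c ≤ L - 4) (hs : 7 / 10 ≤ s) (hsL : s ≤ c / L)
    (r0 : r 0 = 0) (r1 : 1 ≤ r 1) (hr : ∀ j ≤ n + 1, s * j ≤ r j)
    (hrJ : r (n + 1) = s * ((n : ℝ) + 1)) (hstep : ∀ j ≤ n, r j ≤ r (j + 1))
    (hC : ∀ j, 1 ≤ j → j ≤ n → c * (1 - (r (j + 1) - r j)) ≤ r j)
    (y10 : y1 0 = 0) (y20 : y2 0 = 0)
    (hy1 : ∀ k ≤ n, r k ≤ y1 k) (hy2 : ∀ k ≤ n, r k ≤ y2 k)
    (hT1 : ∀ j k, 1 ≤ k → k < j → j ≤ n → y1 k < r j →
      c * (1 - (1 - 1 / c) ^ (τ1 + k - (n + 1))) * (1 - (r (j + 1) - r j)) ≤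
        (1 - (1 - 1 / c) ^ (τ1 + k - (n + 1))) * (r j - y1 k) + (y1 k - r k))
    (hT2 : ∀ j k, 1 ≤ k → k < j → j ≤ n → y2 k < r j →
      c * (1 - (1 - 1 / c) ^ (τ2 + k - (n + 1))) * (1 - (r (j + 1) - r j)) ≤
        (1 - (1 - 1 / c) ^ (τ2 + k - (n + 1))) * (r j - y2 k) + (y2 k - r k))
    (hB : ∑ k ∈ range (n + 1), (y1 k + y2 k) ≤ s * ((n : ℝ) + 1) ^ 2) : False := by
  have hLpos : 0 < L := by linarith
  have hc12 : 12 < c := by linarith
  have hcpos : 0 < c := by linarith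
  have hc' : 1 ≤ c := by linarith
  obtain ⟨z, hz⟩ : ∃ z : ℝ, z = 1 / c := ⟨_, rfl⟩
  have hz0 : 0 < z := by rw [hz]; positivity
  have hz1 : z < 1 / 12 := by
    rw [hz]
    exact one_div_lt_one_div_of_lt (by norm_num) hc12
  have hcz : c * z = 1 := by rw [hz]; field_simp
  rw [← hz] at hT1 hT2
  obtain ⟨s0, hs0⟩ : ∃ s0 : ℝ, s0 = c / L := ⟨_, rfl⟩
  have hs0L : s0 * L = c := by rw [hs0]; field_simp
  rw [← hs0] at hsL
  have hs0pos : 0 < s0 := by linarith
  have hs0z : s0 * (1 + 4 * z) ≤ 1 := by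
    have h1 : s0 * (c + 4) ≤ c := by
      rw [← hs0L]
      refine mul_le_mul_of_nonneg_left ?_ hs0pos.le
      rw [hs0L]
      linarith
    have h2 : c * (s0 * (1 + 4 * z)) ≤ c * 1 := by
      have : c * (s0 * (1 + 4 * z)) = s0 * (c + 4 * (c * z)) := by ring
      rw [this, hcz]
      linarith
    exact le_of_mul_le_mul_left h2 hcpos
  have hs01 : s0 < 1 := by
    rw [hs0, div_lt_one hLpos]
    linarith
  have hs1 : s < 1 := by linarith
  have hspos : 0 < s := by linarith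
  have hsz : s * (1 + 4 * z) ≤ 1 :=
    (mul_le_mul_of_nonneg_right hsL (by linarith)).trans hs0z
  have hn1 : 1 ≤ n := by
    by_contra hlt
    have h0 : n = 0 := by omega
    subst h0
    simp only [zero_add, Nat.cast_zero, mul_one] at hrJ
    linarith
  -- the Lipschitz minorant
  set ρ : ℕ → ℝ := lipm r with hρ
  have ρ0 : ρ 0 = 0 := lipm_zero r
  have hρge : ∀ j ≤ n + 1, s * j ≤ ρ j := lipm_ge r s hs1.le (n + 1) hr
  have hρle : ∀ j, ρ j ≤ r j := lipm_le r r0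
  have hρJ : ρ (n + 1) = s * ((n : ℝ) + 1) := by
    refine le_antisymm ((hρle (n + 1)).trans hrJ.le) ?_
    have := hρge (n + 1) le_rfl
    push_cast at this
    exact this
  have hρnn : ∀ j ≤ n + 1, 0 ≤ ρ j := by
    intro j hj
    have h1 := hρge j hj
    have h2 : 0 ≤ s * (j : ℝ) := by positivity
    linarith
  have hρstep : ∀ j ≤ n, ρ j ≤ ρ (j + 1) := fun j hj => lipm_step r r0 j (hstep j hj)
  have hρlip : ∀ j, ρ (j + 1) ≤ ρ j + 1 := lipm_lip r
  have hρC : ∀ j, 1 ≤ j → j ≤ n → c * (1 - (ρ (j + 1) - ρ j)) ≤ ρ j := by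
    intro j h1 h2
    exact lipm_closed r r0 c hc' j (hρnn j (by omega)) (hC j h1 h2)
  have hgrow : ∀ j ≤ n + 1, ∑ i ∈ range j, (1 - z) ^ i ≤ ρ j := by
    have := lipm_growth r r0 r1 c hc' (n + 1) hρnn (fun j h1 h2 => hC j h1 (by omega))
    rw [← hz] at this
    exact this
  -- `n ≥ 8`
  have hn8 : 8 ≤ n := by
    by_contra hlt
    refine small_J z s hz0 hz1 hsz n hn1 (by omega) ?_
    have := hgrow (n + 1) le_rfl
    rw [hρJ] at this
    exact this
  obtain ⟨m, rfl⟩ : ∃ m, n = m + 1 := ⟨n - 1, by omega⟩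
  have hm7 : 7 ≤ m := by omega
  -- the correction terms
  obtain ⟨e1, he1⟩ : ∃ e1 : ℝ, e1 = 1 - s0 := ⟨_, rfl⟩
  obtain ⟨e2, he2⟩ : ∃ e2 : ℝ, e2 = 2 - z - 2 * s0 := ⟨_, rfl⟩
  obtain ⟨e3, he3⟩ : ∃ e3 : ℝ, e3 = 3 - 3 * z + z ^ 2 - 3 * s0 := ⟨_, rfl⟩
  have hz2 : 0 < z ^ 2 := by positivity
  have hs0u : s0 ≤ 1 - 3 * z := by
    have h1 : 0 ≤ z * (1 - 12 * z) := mul_nonneg hz0.le (by linarith)
    have h2 : (1 - 3 * z) * (1 + 4 * z) = 1 + z * (1 - 12 * z) := by ring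
    refine le_of_mul_le_mul_right (a := 1 + 4 * z) ?_ (by linarith)
    rw [h2]
    linarith
  have he12 : e1 ≤ e2 := by rw [he1, he2]; linarith
  have he23 : e2 ≤ e3 := by rw [he2, he3]; linarith
  have he1p : 0 ≤ e1 := by rw [he1]; linarith
  have he3p : 0 ≤ e3 := by linarith
  have he3u : e3 ≤ 1 := by
    have h1 : z ^ 2 ≤ z := by
      rw [sq]
      exact mul_le_of_le_one_right hz0.le (by linarith)
    rw [he3]
    linarith
  set E : ℕ → ℝ := Eseq e1 e2 e3 with hE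
  obtain ⟨D, hD⟩ : ∃ D : ℝ, D = e3 / 4 := ⟨_, rfl⟩
  have hsD : 0 < s - D := by rw [hD]; linarith
  obtain ⟨N, hN⟩ : ∃ N : ℝ, N = (1 + (1 - s) - s / c) / (s - D) := ⟨_, rfl⟩
  have hsc : s / c = s * z := by rw [hz]; ring
  have hNmul : N * (s - D) = 1 + (1 - s) - s / c := by
    rw [hN, div_mul_cancel₀ _ hsD.ne']
  have hcμ : s ≤ c * (1 - s) := by
    have h1 : c * (1 - s0) ≤ c * (1 - s) := mul_le_mul_of_nonneg_left (by linarith) hcpos.le
    have h2 : s0 ≤ c * (1 - s0) := by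
      have h3 : s0 * 4 ≤ s0 * (L - c) := mul_le_mul_of_nonneg_left (by linarith) hs0pos.le
      have h4 : c * (1 - s0) = s0 * (L - c) := by linear_combination (-1) * hs0L
      rw [h4]
      linarith
    linarith
  have hN1 : 1 ≤ N := by
    rw [hN, le_div_iff₀ hsD, one_mul, hsc]
    have h1 : s * z ≤ 1 - s := by
      have h2 : c * (s * z) ≤ c * (1 - s) := by
        have : c * (s * z) = s * (c * z) := by ring
        rw [this, hcz]
        linarith
      exact le_of_mul_le_mul_left h2 hcpos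
    have h3 : 0 ≤ D := by rw [hD]; linarith
    linarith
  have hlowE := low_E z s0 hz0 hz1 hs0z hs0pos
  have hEm : ∀ i < m, 0 ≤ E (i + 1) ∧ s * ((i : ℝ) + 1) + E (i + 1) ≤ ρ (i + 1) := by
    intro i hi
    rcases Nat.lt_or_ge i 7 with h7 | h7
    · have hg := hgrow (i + 1) (by omega)
      obtain ⟨l4, l5, l6, l7⟩ := hlowE
      rw [← he3] at l4 l5 l6 l7
      interval_cases i
      · simp only [sum_range_succ, sum_range_zero] at hg
        refine ⟨he1p, ?_⟩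
        change s * (((0 : ℕ) : ℝ) + 1) + e1 ≤ ρ (0 + 1)
        rw [he1]
        push_cast
        linarith
      · simp only [sum_range_succ, sum_range_zero] at hg
        refine ⟨by change 0 ≤ e2; linarith, ?_⟩
        change s * (((1 : ℕ) : ℝ) + 1) + e2 ≤ ρ (1 + 1)
        rw [he2]
        push_cast
        linarith
      · simp only [sum_range_succ, sum_range_zero] at hg
        refine ⟨he3p, ?_⟩
        change s * (((2 : ℕ) : ℝ) + 1) + e3 ≤ ρ (2 + 1)
        have h2 : (1 - z) ^ 2 = 1 - 2 * z + z ^ 2 := by ring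
        rw [h2] at hg
        rw [he3]
        push_cast
        linarith
      · refine ⟨he3p, ?_⟩
        change s * (((3 : ℕ) : ℝ) + 1) + e3 ≤ ρ (3 + 1)
        push_cast
        linarith
      · refine ⟨by change 0 ≤ 3 / 4 * e3; linarith, ?_⟩
        change s * (((4 : ℕ) : ℝ) + 1) + 3 / 4 * e3 ≤ ρ (4 + 1)
        push_cast
        linarith
      · refine ⟨by change 0 ≤ 1 / 2 * e3; linarith, ?_⟩
        change s * (((5 : ℕ) : ℝ) + 1) + 1 / 2 * e3 ≤ ρ (5 + 1)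
        push_cast
        linarith
      · refine ⟨by change 0 ≤ 1 / 4 * e3; linarith, ?_⟩
        change s * (((6 : ℕ) : ℝ) + 1) + 1 / 4 * e3 ≤ ρ (6 + 1)
        push_cast
        linarith
    · have h0 : E (i + 1) = 0 := Eseq_big _ _ _ _ (by omega)
      rw [h0]
      refine ⟨le_refl _, ?_⟩
      have := hρge (i + 1) (by omega)
      push_cast at this
      linarith
  have hEn : E (m + 1) = 0 := Eseq_big _ _ _ _ (by omega)
  have hED : ∀ i < m, E (i + 1) - E (i + 2) ≤ D := by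
    intro i hi
    rcases Nat.lt_or_ge i 7 with h7 | h7
    · interval_cases i
      · change e1 - e2 ≤ D; linarith
      · change e2 - e3 ≤ D; linarith
      · change e3 - e3 ≤ D; linarith
      · change e3 - 3 / 4 * e3 ≤ D; linarith
      · change 3 / 4 * e3 - 1 / 2 * e3 ≤ D; linarith
      · change 1 / 2 * e3 - 1 / 4 * e3 ≤ D; linarith
      · change 1 / 4 * e3 - 0 ≤ D; linarith
    · have h0 : E (i + 1) = 0 := Eseq_big _ _ _ _ (by omega)
      have h1 : E (i + 2) = 0 := Eseq_big _ _ _ _ (by omega)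
      rw [h0, h1]
      linarith
  -- the adversary lemma for both radii
  have hq0 : (0 : ℝ) ≤ 1 - z := by linarith
  have hq1 : 1 - z ≤ 1 := by linarith
  have key : ∀ (τ : ℕ) (y : ℕ → ℝ), y 0 = 0 → (∀ k ≤ m + 1, r k ≤ y k) →
      (∀ j k, 1 ≤ k → k < j → j ≤ m + 1 → y k < r j →
        c * (1 - (1 - z) ^ (τ + k - (m + 1 + 1))) * (1 - (r (j + 1) - r j)) ≤
        (1 - (1 - z) ^ (τ + k - (m + 1 + 1))) * (r j - y k) + (y k - r k)) →
      (c * (1 - s) - s) * ∑ i ∈ range (m + 1), (1 - (1 - z) ^ (τ + i - (m + 1 + 1))) +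
        N * ∑ i ∈ range m, E (i + 1) ≤ N * ∑ k ∈ range (m + 2), (y k - s * k) := by
    intro τ y hy0 hyr hT
    refine lemmaP m c s N D ρ y (fun k => (1 - z) ^ (τ + k - (m + 1 + 1))) E hc' hspos ρ0 hy0
      (fun j hj => hρge j hj) ?_ (fun j hj => hρstep j hj) (fun j _ => hρlip j)
      (fun k hk => (hρle k).trans (hyr k hk)) (fun k => pow_nonneg hq0 _)
      (fun k => pow_le_one₀ hq0 hq1) (fun k => pow_le_pow_of_le_one hq0 hq1 (by omega))
      ?_ ?_ hEm hEn hED hN1 hNmul.symm.le hcμ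
    · rw [hρJ]
      push_cast
      ring
    · intro k
      rw [← hz]
      rcases Nat.lt_or_ge (τ + k) (m + 1 + 1) with h | h
      · have h1 : τ + k - (m + 1 + 1) = 0 := by omega
        have h2 : τ + (k + 1) - (m + 1 + 1) = 0 := by omega
        rw [h1, h2]
        linarith
      · have h1 : τ + (k + 1) - (m + 1 + 1) = (τ + k - (m + 1 + 1)) + 1 := by omega
        rw [h1, pow_succ]
        have h2 : (1 - z) ^ (τ + k - (m + 1 + 1)) ≤ 1 := pow_le_one₀ hq0 hq1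
        have h3 : (1 - z) ^ (τ + k - (m + 1 + 1)) * z ≤ 1 * z :=
          mul_le_mul_of_nonneg_right h2 hz0.le
        linarith
    · intro j hj1 hj2 k hkj hlt
      rcases Nat.eq_zero_or_pos k with h | h
      · subst h
        rw [hy0, ρ0]
        have h1 := hρC j hj1 hj2
        have h2 : 0 ≤ 1 - (1 - z) ^ (τ + 0 - (m + 1 + 1)) := by
          have : (1 - z) ^ (τ + 0 - (m + 1 + 1)) ≤ 1 := pow_le_one₀ hq0 hq1
          linarith
        have h3 := mul_le_mul_of_nonneg_left h1 h2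
        have h4 : c * (1 - (1 - z) ^ (τ + 0 - (m + 1 + 1))) * (1 - (ρ (j + 1) - ρ j)) =
            (1 - (1 - z) ^ (τ + 0 - (m + 1 + 1))) * (c * (1 - (ρ (j + 1) - ρ j))) := by ring
        rw [h4]
        refine h3.trans (le_of_eq ?_)
        ring
      · exact lipm_T r r0 c hc' j k (y k) _ (pow_le_one₀ hq0 hq1) (hyr k (by omega)) hlt
          (hT j k h hkj hj2)
  have P1 := key τ1 y1 y10 hy1 hT1
  have P2 := key τ2 y2 y20 hy2 hT2
  rw [Eseq_sum e1 e2 e3 m hm7] at P1 P2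
  obtain ⟨T1, hT1def⟩ : ∃ T1 : ℝ,
    T1 = ∑ i ∈ range (m + 1), (1 - (1 - z) ^ (τ1 + i - (m + 1 + 1))) := ⟨_, rfl⟩
  obtain ⟨T2, hT2def⟩ : ∃ T2 : ℝ,
    T2 = ∑ i ∈ range (m + 1), (1 - (1 - z) ^ (τ2 + i - (m + 1 + 1))) := ⟨_, rfl⟩
  rw [← hT1def] at P1
  rw [← hT2def] at P2
  have hsumY : ∑ k ∈ range (m + 2), (y1 k - s * k) + ∑ k ∈ range (m + 2), (y2 k - s * k) ≤
      s * ((m : ℝ) + 2) := by
    have h1 : ∑ k ∈ range (m + 2), (y1 k - s * k) + ∑ k ∈ range (m + 2), (y2 k - s * k) =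
        ∑ k ∈ range (m + 1 + 1), (y1 k + y2 k) - 2 * s * ∑ k ∈ range (m + 1 + 1), (k : ℝ) := by
      rw [mul_sum, ← sum_sub_distrib, ← sum_add_distrib]
      refine sum_congr rfl ?_
      intro k _
      ring
    rw [h1, sum_id_real]
    push_cast at hB ⊢
    linarith
  have hN0 : 0 ≤ N := by linarith
  have hsum : (c * (1 - s) - s) * (T1 + T2) + 2 * N * (e1 + e2 + 7 / 2 * e3) ≤
      N * (s * ((m : ℝ) + 2)) := by
    have := mul_le_mul_of_nonneg_left hsumY hN0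
    linarith
  have hfin : (s - D) * ((c * (1 - s) - s) * (T1 + T2)) ≤
      (1 + (1 - s) - s / c) * (s * ((m : ℝ) + 2) - 2 * (e1 + e2 + 7 / 2 * e3)) := by
    rw [← hNmul]
    have := mul_le_mul_of_nonneg_left hsum hsD.le
    linarith
  -- lower bounds for `T1 + T2`
  have hp1 : (m + 1 : ℕ) ≤ τ1 - 1 := by omega
  have hcastp : ((τ1 - 1 : ℕ) : ℝ) = (τ1 : ℝ) - 1 := by
    rw [Nat.cast_sub (by omega)]
    simp
  have hth1 := theta_low (1 - z) hq0 hq1 τ1 (m + 1) (τ1 - 1) hp1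
  have hth2 := theta_low (1 - z) hq0 hq1 τ2 (m + 1) (τ1 - 1) hp1
  rw [theta_full (1 - z) τ1 (τ1 - 1) (Or.inl rfl) (by omega), ← hT1def] at hth1
  rw [theta_full (1 - z) τ2 (τ1 - 1) (by omega) (by omega), ← hT2def] at hth2
  have hph1 := sum_phi z hz0.le (by linarith) (τ1 - 1)
  have hph2 := sum_phi z hz0.le (by linarith) (τ2 - 1)
  have hcastp2 : ((τ2 - 1 : ℕ) : ℝ) = (τ2 : ℝ) - 1 := by
    rw [Nat.cast_sub (by omega)]
    simp
  rw [hcastp] at hth1 hth2 hph1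
  rw [hcastp2] at hph2
  obtain ⟨p, hp⟩ : ∃ p : ℝ, p = (τ1 : ℝ) - 1 := ⟨_, rfl⟩
  rw [← hp] at hth1 hth2 hph1
  have hmp : ((m + 1 : ℕ) : ℝ) ≤ p := by
    rw [hp, ← hcastp]
    exact_mod_cast hp1
  have hm8 : (8 : ℝ) ≤ ((m + 1 : ℕ) : ℝ) := by exact_mod_cast hn8
  have hmnn : (0 : ℝ) ≤ ((m + 1 : ℕ) : ℝ) := by positivity
  obtain ⟨nn, hnn⟩ : ∃ nn : ℝ, nn = ((m + 1 : ℕ) : ℝ) := ⟨_, rfl⟩
  rw [← hnn] at hmp hm8 hmnn hth1 hth2
  have hnnm : (m : ℝ) + 2 = nn + 1 := by rw [hnn]; push_cast; ring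
  rw [hnnm] at hfin
  have hpp : 0 < p := by linarith
  -- `Φ`
  have main : ∀ Ph : ℝ, nn * (Ph * z ^ 2) ≤ p * (T1 + T2) →
      4 * c * p * (2 * c - (c + 1) * s) * (s * (nn + 1) * c ^ 2 * L - 2 * numS c L) <
      nn * ((4 * c ^ 2 * L * s - numE c L) * (c - (c + 1) * s)) * Ph → False := by
    intro Ph hPh hnum
    have hnumE : numE c L = c ^ 2 * L * e3 := by
      rw [he3]
      unfold numE
      linear_combination (3 * c * L - L * (c * z + 1)) * hcz + 3 * c ^ 2 * hs0L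
    have hnumS : numS c L = c ^ 2 * L * (e1 + e2 + 7 / 2 * e3) := by
      rw [he1, he2, he3]
      unfold numS
      linear_combination ((23 / 2) * c * L - (7 / 2) * L * (c * z + 1)) * hcz +
        (27 / 2) * c ^ 2 * hs0L
    have h1 : nn * ((4 * c ^ 2 * L * s - numE c L) * (c - (c + 1) * s)) * Ph =
        4 * c ^ 4 * L * ((s - D) * (c * (1 - s) - s)) * (nn * (Ph * z ^ 2)) := by
      rw [hnumE, hD]
      have : c ^ 4 * z ^ 2 = c ^ 2 := by
        have : c ^ 4 * z ^ 2 = c ^ 2 * (c * z) ^ 2 := by ring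
        rw [this, hcz]
        ring
      linear_combination (-(4 * L * (s - e3 / 4) * (c * (1 - s) - s) * nn * Ph)) * this
    have h2 : 4 * c * p * (2 * c - (c + 1) * s) * (s * (nn + 1) * c ^ 2 * L - 2 * numS c L) =
        4 * c ^ 4 * L * (p * ((1 + (1 - s) - s / c) *
          (s * (nn + 1) - 2 * (e1 + e2 + 7 / 2 * e3)))) := by
      rw [hnumS, hsc]
      linear_combination (4 * c ^ 3 * L * p * s *
        (s * (nn + 1) - 2 * (e1 + e2 + 7 / 2 * e3))) * hcz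
    rw [h1, h2] at hnum
    have h3 : 0 < 4 * c ^ 4 * L := by positivity
    have h4 : 0 ≤ (s - D) * (c * (1 - s) - s) := mul_nonneg hsD.le (by linarith)
    have h5 := mul_le_mul_of_nonneg_left hPh h4
    have h6 := mul_le_mul_of_nonneg_left hfin hpp.le
    have h7 : 4 * c ^ 4 * L * ((s - D) * (c * (1 - s) - s)) * (nn * (Ph * z ^ 2)) =
        4 * c ^ 4 * L * (((s - D) * (c * (1 - s) - s)) * (nn * (Ph * z ^ 2))) := by ring
    rw [h7] at hnum
    have h8 := lt_of_mul_lt_mul_left hnum h3.le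
    have h9 : (s - D) * (c * (1 - s) - s) * (p * (T1 + T2)) =
        p * ((s - D) * ((c * (1 - s) - s) * (T1 + T2))) := by ring
    rw [h9] at h5
    exact absurd (lt_of_lt_of_le h8 (h5.trans h6)) (lt_irrefl _)
  rcases hτ with hττ | hττ
  · -- even
    have hLp : L = 2 * p + 2 := by
      rw [hLdef, hp, hττ]
      ring
    have hpE : pEven L = p := by unfold pEven; rw [hLp]; ring
    have hp8 : 8 ≤ p := by linarith
    have hnum := numeric_even c L s nn (by linarith) hc1 hc2 hs (by rw [← hs0]; exact hsL) hm8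
      (by rw [hpE]; exact hmp)
    rw [hpE] at hnum
    refine main (phEven c L) ?_ hnum
    have hτ2p : (τ2 : ℝ) - 1 = p := by rw [hp, hττ]
    rw [hτ2p] at hph2
    have hcz2 : phEven c L * z ^ 2 = 2 * (p * (p - 1) / 2 * z - p * (p - 1) * (p - 2) / 6 * z ^ 2) := by
      unfold phEven
      rw [hpE]
      linear_combination (p * (p - 1) * z) * hcz
    rw [hcz2]
    have a1 := mul_le_mul_of_nonneg_left hph1 hmnn
    have a2 := mul_le_mul_of_nonneg_left hph2 hmnn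
    linarith
  · -- odd
    have hLp : L = 2 * p + 1 := by
      rw [hLdef, hp, hττ]
      push_cast
      ring
    have hpO : pOdd L = p := by unfold pOdd; rw [hLp]; ring
    have hnum := numeric_odd c L s nn hL hc1 hc2 hs (by rw [← hs0]; exact hsL) hm8
      (by rw [hpO]; exact hmp)
    rw [hpO] at hnum
    refine main (phOdd c L) ?_ hnum
    have hτ2p : (τ2 : ℝ) - 1 = p - 1 := by
      rw [hp, hττ]
      push_cast
      ring
    rw [hτ2p] at hph2
    have hcz2 : phOdd c L * z ^ 2 = (p * (p - 1) / 2 * z - p * (p - 1) * (p - 2) / 6 * z ^ 2) +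
        ((p - 1) * (p - 1 - 1) / 2 * z - (p - 1) * (p - 1 - 1) * (p - 1 - 2) / 6 * z ^ 2) := by
      unfold phOdd
      rw [hpO]
      linear_combination ((p - 1) ^ 2 * z) * hcz
    rw [hcz2]
    have a1 := mul_le_mul_of_nonneg_left hph1 hmnn
    have a2 := mul_le_mul_of_nonneg_left hph2 hmnn
    linarith

end Pool.Agent.CH10ce
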