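import Pool.Agent.Lib.CH10ce.Ball
import Pool.Agent.Lib.CH10ce.Algebra

set_option autoImplicit false

open Finset

namespace Pool.Agent.CH10ce

variable {V : Type*} [DecidableEq V]

/-- The extremal set-up: `U` is closed under taking out-neighbours, all out-degrees in `U` are at
least `d`, and every non-empty subset `P` of `U` has a vertex with at most `d * #P / #U`
out-neighbours in `P`. -/
structure Setup (N : V → Finset V) (U : Finset V) (d : ℕ) : Prop where
  ne : U.Nonempty
  sub : ∀ y ∈ U, N y ⊆ U
  dpos : 0 < d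
  deg : ∀ y ∈ U, d ≤ #(N y)
  ext : ∀ P ⊆ U, P.Nonempty → ∃ y ∈ P, #(N y ∩ P) * #U ≤ d * #P

/-- The contraction ratio `1 - d / #U`. -/
noncomputable def ratio (U : Finset V) (d : ℕ) : ℝ := 1 - (d : ℝ) / #U

/-- The normalised size of the ball of radius `t` around `y`. -/
noncomputable def bsize (N : V → Finset V) (d t : ℕ) (y : V) : ℝ := (#(ball N t y) : ℝ) / d

variable {N : V → Finset V} {U : Finset V} {d : ℕ}

lemma Setup.dR (S : Setup N U d) : (0 : ℝ) < d := by exact_mod_cast S.dpos

lemma Setup.d_le (S : Setup N U d) : d ≤ #U := by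
  obtain ⟨y, hy⟩ := S.ne
  exact (S.deg y hy).trans (card_le_card (S.sub y hy))

lemma Setup.UR (S : Setup N U d) : (0 : ℝ) < #U := by
  have := S.dpos
  have := S.d_le
  have : 0 < #U := by omega
  exact_mod_cast this

lemma Setup.ratio_nonneg (S : Setup N U d) : 0 ≤ ratio U d := by
  unfold ratio
  have h1 := S.UR
  have h2 : (d : ℝ) ≤ #U := by exact_mod_cast S.d_le
  have : (d : ℝ) / #U ≤ 1 := by
    rw [div_le_one h1]
    exact h2
  linarith

lemma Setup.ratio_le_one (S : Setup N U d) : ratio U d ≤ 1 := by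
  unfold ratio
  have h1 := S.UR
  have h2 := S.dR
  have : 0 ≤ (d : ℝ) / #U := by positivity
  linarith

/-- The expansion property of `Setup` in the form that is used: if `y` realises the minimum
inside `Q'`, then a set `Q` containing `Q'` and a set `A` of out-neighbours of `y` is large. -/
lemma Setup.expand (S : Setup N U d) (Q Q' : Finset V) (hQ' : Q' ⊆ Q) (hQU : Q' ⊆ U)
    (hne : Q'.Nonempty) (lam : ℝ)
    (h : ∀ y ∈ Q', ∃ A ⊆ N y, A ⊆ Q ∧ lam * d ≤ #A) :
    (lam + ratio U d * ((#Q' : ℝ) / d)) * d ≤ #Q := by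
  obtain ⟨y, hy, hext⟩ := S.ext Q' hQU hne
  obtain ⟨A, hAN, hAQ, hA⟩ := h y hy
  have h1 : #(Q' ∪ A) + #(Q' ∩ A) = #Q' + #A := card_union_add_card_inter Q' A
  have h2 : #(Q' ∪ A) ≤ #Q := card_le_card (union_subset hQ' hAQ)
  have h3 : #(Q' ∩ A) ≤ #(N y ∩ Q') := by
    refine card_le_card ?_
    rw [inter_comm]
    exact inter_subset_inter_right hAN
  have h4 : (#(N y ∩ Q') : ℝ) * #U ≤ d * #Q' := by exact_mod_cast hext
  have hU := S.UR
  have hd := S.dR
  have h5 : (#(N y ∩ Q') : ℝ) ≤ d * #Q' / #U := by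
    rw [le_div_iff₀ hU]
    exact h4
  have h1' : (#(Q' ∪ A) : ℝ) + #(Q' ∩ A) = #Q' + #A := by exact_mod_cast h1
  have h2' : (#(Q' ∪ A) : ℝ) ≤ #Q := by exact_mod_cast h2
  have h3' : (#(Q' ∩ A) : ℝ) ≤ #(N y ∩ Q') := by exact_mod_cast h3
  have h6 : (lam + ratio U d * ((#Q' : ℝ) / d)) * d = lam * d + #Q' - d * #Q' / #U := by
    unfold ratio
    field_simp
    ring
  rw [h6]
  linarith

lemma Setup.step (S : Setup N U d) (t : ℕ) {y : V} (hy : y ∈ U) :
    1 + ratio U d * bsize N d t y ≤ bsize N d (t + 1) y := by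
  have hd := S.dR
  rcases (ball N t y).eq_empty_or_nonempty with he | hne
  · unfold bsize
    rw [he, card_empty, Nat.cast_zero, zero_div, mul_zero, add_zero, le_div_iff₀ hd, one_mul]
    have h1 := S.deg y hy
    have h2 := card_le_card (nbr_subset_ball N (t := t + 1) (by omega) y)
    exact_mod_cast h1.trans h2
  · have hU := ball_subset_ambient N U S.sub t hy
    have := S.expand (ball N (t + 1) y) (ball N t y) (ball_subset_succ N t y) hU hne 1 (by
      intro x hx
      refine ⟨N x, Subset.refl _, nbr_of_mem_ball N hx, ?_⟩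
      rw [one_mul]
      exact_mod_cast S.deg x (hU hx))
    unfold bsize
    rw [le_div_iff₀ hd]
    exact this

lemma Setup.geo_le (S : Setup N U d) (t : ℕ) {y : V} (hy : y ∈ U) :
    ∑ i ∈ range t, ratio U d ^ i ≤ bsize N d t y := by
  induction t with
  | zero => simp [bsize]
  | succ t ih =>
    rw [geom_sum_succ]
    have h1 := S.step t hy
    have h2 := mul_le_mul_of_nonneg_left ih S.ratio_nonneg
    linarith

lemma Setup.bsize_mono (S : Setup N U d) {s t : ℕ} (h : s ≤ t) (y : V) :
    bsize N d s y ≤ bsize N d t y := by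
  unfold bsize
  have hd := S.dR
  have : (#(ball N s y) : ℝ) ≤ #(ball N t y) := by exact_mod_cast card_le_card (ball_mono N h y)
  exact div_le_div_of_nonneg_right this hd.le

lemma Setup.one_le_bsize (S : Setup N U d) {t : ℕ} (ht : 1 ≤ t) {y : V} (hy : y ∈ U) :
    1 ≤ bsize N d t y := by
  refine le_trans ?_ (S.bsize_mono ht y)
  have h := S.step 0 hy
  simpa [bsize] using h

/-- The chain argument. -/
lemma Setup.chain (S : Setup N U d) (A B : Finset V) (hA : A ⊆ U) (lam : ℝ)
    (hlam : ∀ y ∈ A, lam * d ≤ #(N y ∩ A)) (M : ℕ) (x : V) (hx : x ∈ A) (hxB : x ∉ B)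
    (hdis : Disjoint (ball N M x) B) :
    lam * (∑ i ∈ range M, ratio U d ^ i) * d ≤ #(A \ B) := by
  classical
  set Q : ℕ → Finset V := fun m => (A \ B).filter fun y => Disjoint (ball N m y) B with hQ
  have hxQ : ∀ m ≤ M, x ∈ Q m := by
    intro m hm
    simp only [hQ, mem_filter, mem_sdiff]
    exact ⟨⟨hx, hxB⟩, disjoint_of_subset_left (ball_mono N hm x) hdis⟩
  have key : ∀ i ≤ M, lam * (∑ i ∈ range i, ratio U d ^ i) * d ≤ #(Q (M - i)) := by
    intro i hi
    induction i with
    | zero => simp
    | succ i ih =>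
      have h1 := ih (by omega)
      obtain ⟨m, hm⟩ : ∃ m, M - i = m + 1 := ⟨M - i - 1, by omega⟩
      have hm' : M - (i + 1) = m := by omega
      rw [hm] at h1
      rw [hm']
      have hd := S.dR
      have h2 := S.expand (Q m) (Q (m + 1)) (by
        intro y hy
        simp only [hQ, mem_filter] at hy ⊢
        exact ⟨hy.1, disjoint_of_subset_left (ball_subset_succ N m y) hy.2⟩) (by
        intro y hy
        simp only [hQ, mem_filter, mem_sdiff] at hy
        exact hA hy.1.1) ⟨x, hxQ (m + 1) (by omega)⟩ lam (by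
        intro y hy
        simp only [hQ, mem_filter, mem_sdiff] at hy
        refine ⟨N y ∩ A, inter_subset_left, ?_, hlam y hy.1.1⟩
        intro z hz
        rw [mem_inter] at hz
        simp only [hQ, mem_filter, mem_sdiff]
        have hz1 : z ∈ ball N 1 y := by rw [ball_one]; exact hz.1
        refine ⟨⟨hz.2, ?_⟩, ?_⟩
        · exact Finset.disjoint_left.mp hy.2 (ball_mono N (by omega) y hz1)
        · exact disjoint_of_subset_left (ball_subset_of_mem N hz1 (by omega)) hy.2)
      refine le_trans ?_ h2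
      rw [geom_sum_succ]
      have h3 : lam * (∑ i ∈ range i, ratio U d ^ i) ≤ (#(Q (m + 1)) : ℝ) / d := by
        rw [le_div_iff₀ hd]
        exact h1
      have h4 := mul_le_mul_of_nonneg_left h3 S.ratio_nonneg
      refine mul_le_mul_of_nonneg_right ?_ hd.le
      nlinarith
  have h1 := key M le_rfl
  rw [Nat.sub_self] at h1
  refine h1.trans ?_
  exact_mod_cast card_le_card (filter_subset _ _)

/-- The main estimate. -/
theorem Setup.core (S : Setup N U d) (h : ℕ) (hh : 1 ≤ h)
    (hcyc : ∀ y ∈ U, y ∉ ball N (h + h) y) (κ : ℝ) (hκ : 1 ≤ κ)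
    (hgeo : ∀ M ≤ h, (M : ℝ) ≤ κ * ∑ i ∈ range M, ratio U d ^ i) :
    ∃ μ : ℝ, μ * h < 4 * κ ∧ ∀ y ∈ U, (1 - μ) * h ≤ bsize N d h y := by
  classical
  have hd := S.dR
  obtain ⟨⟨v, J⟩, hvJ, hmax⟩ := Finset.exists_max_image (U ×ˢ Icc 1 h)
    (fun p => ((p.2 : ℝ) - bsize N d p.2 p.1) / p.2) (by
      obtain ⟨y, hy⟩ := S.ne
      exact ⟨(y, 1), by simp [hy, hh]⟩)
  rw [mem_product, mem_Icc] at hvJ
  obtain ⟨hv, hJ1, hJh⟩ := hvJ
  simp only at hv hJ1 hJh
  set μ : ℝ := ((J : ℝ) - bsize N d J v) / J with hμ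
  have hJpos : (0 : ℝ) < J := by exact_mod_cast hJ1
  have hbJ : bsize N d J v = (1 - μ) * J := by
    rw [hμ]
    field_simp
    ring
  have hb : ∀ y ∈ U, ∀ t ≤ h, (1 - μ) * t ≤ bsize N d t y := by
    intro y hy t ht
    rcases Nat.eq_zero_or_pos t with h0 | hpos
    · subst h0
      simp [bsize]
    · have htpos : (0 : ℝ) < t := by exact_mod_cast hpos
      have := hmax (y, t) (by simp [hy]; omega)
      simp only at this
      rw [div_le_iff₀ htpos] at this
      linarith
  refine ⟨μ, ?_, fun y hy => hb y hy h le_rfl⟩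
  rcases le_or_gt μ 0 with hμ0 | hμ0
  · have : μ * h ≤ 0 := mul_nonpos_of_nonpos_of_nonneg hμ0 (Nat.cast_nonneg h)
    linarith
  have hs : 0 < 1 - μ := by
    have h1 := S.one_le_bsize hJ1 hv
    rw [hbJ] at h1
    by_contra hle
    push Not at hle
    have : (1 - μ) * J ≤ 0 := mul_nonpos_of_nonpos_of_nonneg hle hJpos.le
    linarith
  have hJ2 : 2 ≤ J := by
    by_contra hlt
    have hJ1' : J = 1 := by omega
    have h1 := S.one_le_bsize hJ1 hv
    rw [hbJ, hJ1'] at h1
    push_cast at h1
    linarith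
  obtain ⟨n, hn⟩ : ∃ n, J = n + 1 := ⟨J - 1, by omega⟩
  have hn1 : 1 ≤ n := by omega
  have hnh : n + 1 ≤ h := by omega
  have hJR : (J : ℝ) = n + 1 := by rw [hn]; push_cast; ring
  set s : ℝ := 1 - μ with hsdef
  set r : ℕ → ℝ := fun j => bsize N d j v with hr
  set cov : V → ℝ := fun x => (#(ball N h x ∩ ball N J v) : ℝ) with hcov
  -- the basic lower bound for `cov`
  have hcovlow : ∀ x ∈ U, ∀ m ≤ h, ball N m x ⊆ ball N h x ∩ ball N J v → s * m * d ≤ cov x := by
    intro x hx m hm hsub
    have h1 := hb x hx m hm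
    have h2 : (#(ball N m x) : ℝ) ≤ cov x := by
      simp only [hcov]
      exact_mod_cast card_le_card hsub
    unfold bsize at h1
    rw [le_div_iff₀ hd] at h1
    linarith
  have hballU : ∀ j, ball N j v ⊆ U := fun j => ball_subset_ambient N U S.sub j hv
  -- the indices `k`
  set P : ℕ → ℕ → Prop := fun i k => k = 0 ∨
    ∃ x ∈ ball N (i + 1) v, cov x < s * ((J - k : ℕ) : ℝ) * d with hP
  set k : ℕ → ℕ := fun i => Nat.findGreatest (P i) i with hk
  have hki : ∀ i, k i ≤ i := fun i => Nat.findGreatest_le i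
  have hkspec : ∀ i, P i (k i) := fun i => Nat.findGreatest_spec (Nat.zero_le i) (Or.inl rfl)
  have hk0 : k 0 = 0 := Nat.le_zero.mp (hki 0)
  have hkm : ∀ i, k i ≤ k (i + 1) := by
    intro i
    refine Nat.le_findGreatest ((hki i).trans (by omega)) ?_
    rcases hkspec i with h0 | ⟨x, hx, hlt⟩
    · exact Or.inl h0
    · exact Or.inr ⟨x, ball_mono N (by omega) v hx, hlt⟩
  have hkgreat : ∀ i < n, ∀ x ∈ ball N (i + 1) v, s * ((n : ℝ) - k i) * d ≤ cov x := by
    intro i hi x hx
    have hkn : k i ≤ n := (hki i).trans (by omega)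
    have hcast : ((n - k i : ℕ) : ℝ) = (n : ℝ) - k i := Nat.cast_sub hkn
    rcases Nat.lt_or_ge (k i) i with hlt | hge
    · have hnot : ¬ P i (k i + 1) :=
        Nat.findGreatest_is_greatest (Nat.lt_succ_self _) hlt
      simp only [hP] at hnot
      push Not at hnot
      have h1 := hnot.2 x hx
      have h2 : J - (k i + 1) = n - k i := by omega
      rw [h2, hcast] at h1
      exact h1
    · have hkeq : k i = i := le_antisymm (hki i) hge
      have h1 := hcovlow x (hballU _ hx) (n - i) (by omega) (by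
        refine subset_inter (ball_mono N (by omega) x) ?_
        exact ball_subset_of_mem N hx (by omega))
      have hcast2 : ((n - i : ℕ) : ℝ) = (n : ℝ) - i := Nat.cast_sub (by omega)
      rw [hcast2] at h1
      rw [hkeq]
      exact h1
  have hrmono : ∀ i, r i ≤ r (i + 1) := fun i => S.bsize_mono (by omega) v
  have hrmono' : ∀ i j, i ≤ j → r i ≤ r j := fun i j hij => S.bsize_mono hij v
  have hcard : ∀ j, (#(ball N j v) : ℝ) = r j * d := by
    intro j
    change (#(ball N j v) : ℝ) = (#(ball N j v) : ℝ) / d * d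
    rw [div_mul_cancel₀ _ hd.ne']
  -- the inequalities K4
  have K4 : ∀ i < n, ((h : ℝ) - (n + 1) + k i) * (1 - (r (i + 2) - r (i + 1))) ≤
      κ * (r (i + 1) - r (k i)) := by
    intro i hi
    have hkn : k i ≤ i := hki i
    have hsub : ball N (k i) v ⊆ ball N (i + 1) v := ball_mono N (by omega) v
    have hMcast : ((h - (n + 1) + k i : ℕ) : ℝ) = (h : ℝ) - (n + 1) + k i := by
      rw [Nat.cast_add, Nat.cast_sub hnh]
      push_cast
      ring
    have hrk : 0 ≤ r (i + 1) - r (k i) := by linarith [hrmono' (k i) (i + 1) (by omega)]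
    set lam : ℝ := 1 - (r (i + 2) - r (i + 1)) with hlam
    -- the starting vertex
    obtain ⟨x, hx, hxB, hdis⟩ : ∃ x ∈ ball N (i + 1) v, x ∉ ball N (k i) v ∧
        Disjoint (ball N (h - (n + 1) + k i) x) (ball N (k i) v) := by
      rcases hkspec i with h0 | ⟨x, hx, hlt⟩
      · rw [h0]
        have h1 := S.one_le_bsize (t := i + 1) (by omega) hv
        have hne : (ball N (i + 1) v).Nonempty := by
          rw [nonempty_iff_ne_empty]
          intro he
          unfold bsize at h1
          rw [he] at h1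
          simp at h1
          linarith
        obtain ⟨x, hx⟩ := hne
        exact ⟨x, hx, by simp, by simp⟩
      · refine ⟨x, hx, ?_, ?_⟩
        · intro hxB
          have h1 := hcovlow x (hballU _ hx) (J - k i) (by omega) (by
            refine subset_inter (ball_mono N (by omega) x) ?_
            exact ball_subset_of_mem N hxB (by omega))
          linarith
        · rw [Finset.disjoint_left]
          intro y hy hyB
          have hyU : y ∈ U := hballU _ hyB
          have h1 := hb y hyU (J - k i) (by omega)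
          have h2 : ball N (J - k i) y ⊆ ball N h x ∩ ball N J v := by
            refine subset_inter ?_ ?_
            · exact ball_subset_of_mem N hy (by omega)
            · exact ball_subset_of_mem N hyB (by omega)
          have h3 : (#(ball N (J - k i) y) : ℝ) ≤ cov x := by
            simp only [hcov]
            exact_mod_cast card_le_card h2
          unfold bsize at h1
          rw [le_div_iff₀ hd] at h1
          linarith
    have hchain := S.chain (ball N (i + 1) v) (ball N (k i) v) (hballU _) lam (by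
      intro y hy
      have h1 : d ≤ #(N y) := S.deg y (hballU _ hy)
      have h2 : #(N y \ ball N (i + 1) v) + #(N y ∩ ball N (i + 1) v) = #(N y) :=
        card_sdiff_add_card_inter _ _
      have h3 : #(N y \ ball N (i + 1) v) ≤ #(ball N (i + 2) v \ ball N (i + 1) v) :=
        card_le_card (sdiff_subset_sdiff (nbr_of_mem_ball N hy) (Subset.refl _))
      have h4 : #(ball N (i + 2) v \ ball N (i + 1) v) + #(ball N (i + 1) v) =
          #(ball N (i + 2) v) := card_sdiff_add_card_eq_card (ball_subset_succ N (i + 1) v)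
      have h1' : (d : ℝ) ≤ #(N y) := by exact_mod_cast h1
      have h2' : (#(N y \ ball N (i + 1) v) : ℝ) + #(N y ∩ ball N (i + 1) v) = #(N y) := by
        exact_mod_cast h2
      have h3' : (#(N y \ ball N (i + 1) v) : ℝ) ≤ #(ball N (i + 2) v \ ball N (i + 1) v) := by
        exact_mod_cast h3
      have h4' : (#(ball N (i + 2) v \ ball N (i + 1) v) : ℝ) + #(ball N (i + 1) v) =
          #(ball N (i + 2) v) := by exact_mod_cast h4
      rw [hcard (i + 1), hcard (i + 2)] at h4'
      rw [hlam]
      nlinarith) (h - (n + 1) + k i) x hx hxB hdis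
    have hsd : (#(ball N (i + 1) v \ ball N (k i) v) : ℝ) = (r (i + 1) - r (k i)) * d := by
      have h4 : #(ball N (i + 1) v \ ball N (k i) v) + #(ball N (k i) v) =
          #(ball N (i + 1) v) := card_sdiff_add_card_eq_card hsub
      have h4' : (#(ball N (i + 1) v \ ball N (k i) v) : ℝ) + #(ball N (k i) v) =
          #(ball N (i + 1) v) := by exact_mod_cast h4
      rw [hcard, hcard] at h4'
      linarith
    rw [hsd] at hchain
    have hchain' := le_of_mul_le_mul_right hchain hd
    have hM := hgeo (h - (n + 1) + k i) (by omega)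
    rw [hMcast] at hM
    rcases le_or_gt 0 lam with hl | hl
    · have h1 := mul_le_mul_of_nonneg_right hM hl
      have h2 := mul_le_mul_of_nonneg_left hchain' (by linarith : (0 : ℝ) ≤ κ)
      nlinarith
    · have h0 : (0 : ℝ) ≤ (h : ℝ) - (n + 1) + k i := by
        rw [← hMcast]
        exact Nat.cast_nonneg _
      have h1 : ((h : ℝ) - (n + 1) + k i) * lam ≤ 0 :=
        mul_nonpos_of_nonneg_of_nonpos h0 hl.le
      have h2 : 0 ≤ κ * (r (i + 1) - r (k i)) := mul_nonneg (by linarith) hrk
      linarith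
  -- the inequality H2
  have H2 : ∑ i ∈ range n, (r (i + 1) - r i) * ((n : ℝ) - k i) ≤
      s * ((n : ℝ) + 1) ^ 2 / 2 := by
    have h1 : ∀ m ≤ n, ∑ i ∈ range m, ((r (i + 1) - r i) * d) * (s * ((n : ℝ) - k i) * d) ≤
        ∑ x ∈ ball N m v, cov x := by
      intro m hm
      induction m with
      | zero => simp
      | succ m ih =>
        rw [sum_range_succ, ← sum_sdiff (ball_subset_succ N m v)]
        have h2 : ((r (m + 1) - r m) * d) * (s * ((n : ℝ) - k m) * d) ≤
            ∑ x ∈ ball N (m + 1) v \ ball N m v, cov x := by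
          have h3 : ∑ _x ∈ ball N (m + 1) v \ ball N m v, (s * ((n : ℝ) - k m) * d) ≤
              ∑ x ∈ ball N (m + 1) v \ ball N m v, cov x := by
            refine sum_le_sum ?_
            intro x hx
            rw [mem_sdiff] at hx
            exact hkgreat m (by omega) x hx.1
          rw [sum_const, nsmul_eq_mul] at h3
          have h4 : #(ball N (m + 1) v \ ball N m v) + #(ball N m v) =
              #(ball N (m + 1) v) := card_sdiff_add_card_eq_card (ball_subset_succ N m v)
          have h4' : (#(ball N (m + 1) v \ ball N m v) : ℝ) + #(ball N m v) =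
              #(ball N (m + 1) v) := by exact_mod_cast h4
          rw [hcard, hcard] at h4'
          have h5 : (#(ball N (m + 1) v \ ball N m v) : ℝ) = (r (m + 1) - r m) * d := by
            linarith
          rw [h5] at h3
          exact h3
        linarith [ih (by omega)]
    have h2 : ∑ x ∈ ball N n v, cov x ≤ ∑ x ∈ ball N J v, cov x := by
      refine sum_le_sum_of_subset_of_nonneg (ball_mono N (by omega) v) ?_
      intro x _ _
      simp only [hcov]
      exact Nat.cast_nonneg _
    have h3 := double_count N (ball N J v) h h (fun y hy => hcyc y (hballU _ hy))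
    have h3' : ∑ x ∈ ball N J v, cov x + ∑ x ∈ ball N J v, cov x ≤
        (#(ball N J v) : ℝ) ^ 2 := by
      simp only [hcov]
      exact_mod_cast h3
    rw [hcard J] at h3'
    have h4 := h1 n le_rfl
    have h5 : ∑ i ∈ range n, ((r (i + 1) - r i) * d) * (s * ((n : ℝ) - k i) * d) =
        (s * d ^ 2) * ∑ i ∈ range n, (r (i + 1) - r i) * ((n : ℝ) - k i) := by
      rw [mul_sum]
      refine sum_congr rfl ?_
      intro i _
      ring
    have h6 : r J = s * (n + 1) := by
      simp only [hr]
      rw [hbJ, hJR]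
    rw [h6] at h3'
    rw [h5] at h4
    have h7 : (s * d ^ 2) * ∑ i ∈ range n, (r (i + 1) - r i) * ((n : ℝ) - k i) ≤
        (s * d ^ 2) * (s * ((n : ℝ) + 1) ^ 2 / 2) := by nlinarith
    exact le_of_mul_le_mul_left h7 (by positivity)
  have hfin := algebra n h hn1 hnh r k s κ hκ hs (by linarith) (by simp [hr, bsize])
    (S.one_le_bsize le_rfl hv) (by
      intro j hj
      exact hb v hv j (by omega)) (by
      simp only [hr]
      rw [← hn, hbJ, hJR]) hk0 (fun i _ => hki i) (fun i _ => hkm i) K4 H2
    (fun i _ => hrmono i)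
  have : 1 - s = μ := by rw [hsdef]; ring
  rw [this] at hfin
  exact hfin

end Pool.Agent.CH10ce
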