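import Pool.Agent.Lib.CH10ce.Chain
import Pool.Agent.Lib.CH10ce.Contra2

set_option autoImplicit false

open Finset

namespace Pool.Agent.CH10ce

variable {V : Type*} [DecidableEq V] {N : V → Finset V} {U : Finset V} {d : ℕ}

/-- Vertices of `R` covering much of `R`. -/
noncomputable def covSet (N : V → Finset V) (d : ℕ) (R : Finset V) (s : ℝ) (n τ k : ℕ) :
    Finset V := by
  classical
  exact R.filter fun x => s * ((n : ℝ) + 1 - k) * d ≤ #(ball N τ x ∩ R)

lemma mem_covSet (N : V → Finset V) (d : ℕ) (R : Finset V) (s : ℝ) (n τ k : ℕ) (x : V) :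
    x ∈ covSet N d R s n τ k ↔ x ∈ R ∧ s * ((n : ℝ) + 1 - k) * d ≤ #(ball N τ x ∩ R) := by
  unfold covSet
  simp

/-- The sizes of these sets. -/
noncomputable def covSize (N : V → Finset V) (d : ℕ) (R : Finset V) (s : ℝ) (n τ k : ℕ) : ℝ :=
  if k = 0 then 0 else (#(covSet N d R s n τ k) : ℝ) / d

lemma covSize_sum (N : V → Finset V) (d : ℕ) (hd : (0 : ℝ) < d) (R : Finset V) (s : ℝ)
    (hs : 0 < s) (n τ : ℕ) :
    s * d * (d * ∑ k ∈ range (n + 1), covSize N d R s n τ k) ≤
      ∑ x ∈ R, (#(ball N τ x ∩ R) : ℝ) := by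
  classical
  have h1 : d * ∑ k ∈ range (n + 1), covSize N d R s n τ k =
      ∑ k ∈ Icc 1 n, (#(covSet N d R s n τ k) : ℝ) := by
    have e : range (n + 1) = insert 0 (Icc 1 n) := by
      ext k
      simp only [mem_range, mem_insert, mem_Icc]
      omega
    rw [e, sum_insert (by simp), mul_add]
    have h0 : covSize N d R s n τ 0 = 0 := by simp [covSize]
    rw [h0, mul_zero, zero_add, mul_sum]
    refine sum_congr rfl ?_
    intro k hk
    rw [mem_Icc] at hk
    unfold covSize
    rw [if_neg (by omega)]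
    field_simp
  rw [h1]
  have h2 : ∀ k, (#(covSet N d R s n τ k) : ℝ) =
      ∑ x ∈ R, if (s * d) * ((n : ℝ) + 1 - k) ≤ #(ball N τ x ∩ R) then (1 : ℝ) else 0 := by
    intro k
    have : covSet N d R s n τ k =
        R.filter fun x => (s * d) * ((n : ℝ) + 1 - k) ≤ #(ball N τ x ∩ R) := by
      ext x
      rw [mem_covSet, mem_filter]
      have e : s * d * ((n : ℝ) + 1 - k) = s * ((n : ℝ) + 1 - k) * d := by ring
      rw [e]
    rw [this, card_filter]
    push_cast
    rfl
  rw [sum_congr rfl (fun k _ => h2 k), sum_comm, mul_sum]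
  refine sum_le_sum ?_
  intro x _
  have h3 := count_multiples (s * d) (#(ball N τ x ∩ R) : ℝ) (by positivity)
    (Nat.cast_nonneg _) n
  refine le_trans (le_of_eq ?_) h3
  rw [mul_sum]
  refine sum_congr rfl ?_
  intro k _
  split_ifs <;> simp

/-- The core of the argument for the additive error `4`. -/
theorem Setup.core4 (S : Setup N U d) (τ1 τ2 : ℕ) (hτ : τ1 = τ2 ∨ τ1 = τ2 + 1)
    (hcyc : ∀ y ∈ U, y ∉ ball N (τ1 + τ2) y) (hL : 17 ≤ (τ1 : ℝ) + τ2)
    (hc1 : (τ1 : ℝ) + τ2 - 5 < (#U : ℝ) / d) (hc2 : (#U : ℝ) / d ≤ (τ1 : ℝ) + τ2 - 4) :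
    False := by
  classical
  have hd := S.dR
  have hU := S.UR
  obtain ⟨c, hc⟩ : ∃ c : ℝ, c = (#U : ℝ) / d := ⟨_, rfl⟩
  rw [← hc] at hc1 hc2
  have hcpos : 0 < c := by rw [hc]; positivity
  have hratio : ratio U d = 1 - 1 / c := by
    unfold ratio
    rw [hc, one_div_div]
  have hτ1pos : 1 ≤ τ1 := by
    by_contra hlt
    have h0 : τ1 = 0 := by omega
    have h1 : τ2 = 0 := by omega
    rw [h0, h1] at hL
    norm_num at hL
  obtain ⟨y0, hy0, hle0⟩ := S.avg τ1 τ2 hcyc
  have hsum0 : bsize N d τ1 y0 + bsize N d τ2 y0 ≤ c := by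
    unfold bsize
    rw [hc, ← add_div]
    refine div_le_div_of_nonneg_right ?_ hd.le
    exact_mod_cast hle0
  -- the ratio is large
  have hq0 := S.ratio_nonneg
  have hq1 := S.ratio_le_one
  have hqhalf : 1 / 2 ≤ ratio U d ^ (τ1 - 1) := by
    have h1 := S.geo_le τ1 hy0
    have h2 := S.geo_le τ2 hy0
    have h3 : (∑ i ∈ range τ1, ratio U d ^ i) * (1 - ratio U d) = 1 - ratio U d ^ τ1 :=
      geom_sum_mul_neg _ _
    have h4 : (∑ i ∈ range τ2, ratio U d ^ i) * (1 - ratio U d) = 1 - ratio U d ^ τ2 :=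
      geom_sum_mul_neg _ _
    have h5 : 1 - ratio U d = 1 / c := by rw [hratio]; ring
    have h6 : ((∑ i ∈ range τ1, ratio U d ^ i) + ∑ i ∈ range τ2, ratio U d ^ i) * (1 / c) ≤
        c * (1 / c) := mul_le_mul_of_nonneg_right (by linarith) (by positivity)
    have h7 : c * (1 / c) = 1 := by field_simp
    have h8 : ratio U d ^ τ1 ≤ ratio U d ^ (τ1 - 1) := pow_le_pow_of_le_one hq0 hq1 (by omega)
    have h9 : ratio U d ^ τ2 ≤ ratio U d ^ (τ1 - 1) := pow_le_pow_of_le_one hq0 hq1 (by omega)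
    rw [h5] at h3 h4
    rw [add_mul, h3, h4, h7] at h6
    linarith
  -- the extremal ball
  obtain ⟨⟨v, J⟩, hvJ, hmin⟩ := Finset.exists_min_image (U ×ˢ Icc 1 τ1)
    (fun p => bsize N d p.2 p.1 / p.2) (by
      obtain ⟨y, hy⟩ := S.ne
      exact ⟨(y, 1), by simp [hy, hτ1pos]⟩)
  rw [mem_product, mem_Icc] at hvJ
  obtain ⟨hv, hJ1, hJh⟩ := hvJ
  simp only at hv hJ1 hJh
  obtain ⟨s, hsdef⟩ : ∃ s : ℝ, s = bsize N d J v / J := ⟨_, rfl⟩
  simp only at hmin
  rw [← hsdef] at hmin
  have hJpos : (0 : ℝ) < J := by exact_mod_cast hJ1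
  have hbJ : bsize N d J v = s * J := by
    rw [hsdef]
    field_simp
  have hb : ∀ y ∈ U, ∀ t ≤ τ1, s * t ≤ bsize N d t y := by
    intro y hy t ht
    rcases Nat.eq_zero_or_pos t with h0 | hpos
    · subst h0
      simp [bsize]
    · have htpos : (0 : ℝ) < t := by exact_mod_cast hpos
      have := hmin (y, t) (by simp [hy]; omega)
      simp only at this
      rwa [le_div_iff₀ htpos] at this
  have hs7 : 7 / 10 ≤ s := by
    have h1 := S.geo_le J hv
    rw [hbJ] at h1
    have h2 : ratio U d ^ (τ1 - 1) ≤ ratio U d ^ (J - 1) :=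
      pow_le_pow_of_le_one hq0 hq1 (by omega)
    have h3 := geo_lower (ratio U d) hq0 J (hqhalf.trans h2)
    have h4 : 7 / 10 * (J : ℝ) ≤ s * J := h3.trans h1
    exact le_of_mul_le_mul_right h4 hJpos
  have hs : 0 < s := by linarith
  have hLpos : 0 < (τ1 : ℝ) + τ2 := by linarith
  have hsL : s ≤ c / ((τ1 : ℝ) + τ2) := by
    rw [le_div_iff₀ hLpos]
    have h1 := hb y0 hy0 τ1 le_rfl
    have h2 := hb y0 hy0 τ2 (by omega)
    linarith
  obtain ⟨n, hn⟩ : ∃ n, J = n + 1 := ⟨J - 1, by omega⟩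
  have hnτ : n + 1 ≤ τ1 := by omega
  have hJR : (J : ℝ) = n + 1 := by rw [hn]; push_cast; ring
  obtain ⟨R, hR⟩ : ∃ R : Finset V, R = ball N (n + 1) v := ⟨_, rfl⟩
  have hballU : ∀ j, ball N j v ⊆ U := fun j => ball_subset_ambient N U S.sub j hv
  have hcard : ∀ j, (#(ball N j v) : ℝ) = bsize N d j v * d := by
    intro j
    unfold bsize
    rw [div_mul_cancel₀ _ hd.ne']
  have hlam : ∀ j, ∀ y ∈ ball N j v,
      (1 - (bsize N d (j + 1) v - bsize N d j v)) * d ≤ #(N y ∩ ball N j v) := by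
    intro j y hy
    have h1 : d ≤ #(N y) := S.deg y (hballU _ hy)
    have h2 : #(N y \ ball N j v) + #(N y ∩ ball N j v) = #(N y) :=
      card_sdiff_add_card_inter _ _
    have h3 : #(N y \ ball N j v) ≤ #(ball N (j + 1) v \ ball N j v) :=
      card_le_card (sdiff_subset_sdiff (nbr_of_mem_ball N hy) (Subset.refl _))
    have h4 : #(ball N (j + 1) v \ ball N j v) + #(ball N j v) =
        #(ball N (j + 1) v) := card_sdiff_add_card_eq_card (ball_subset_succ N j v)
    have h1' : (d : ℝ) ≤ #(N y) := by exact_mod_cast h1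
    have h2' : (#(N y \ ball N j v) : ℝ) + #(N y ∩ ball N j v) = #(N y) := by
      exact_mod_cast h2
    have h3' : (#(N y \ ball N j v) : ℝ) ≤ #(ball N (j + 1) v \ ball N j v) := by
      exact_mod_cast h3
    have h4' : (#(ball N (j + 1) v \ ball N j v) : ℝ) + #(ball N j v) =
        #(ball N (j + 1) v) := by exact_mod_cast h4
    rw [hcard j, hcard (j + 1)] at h4'
    nlinarith
  -- membership in the covering sets
  have hcov : ∀ τ, (τ = τ1 ∨ τ = τ2) → ∀ k, 1 ≤ k → k ≤ n → ∀ x ∈ R, ∀ z ∈ U,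
      ball N (n + 1 - k) z ⊆ ball N τ x ∩ R → x ∈ covSet N d R s n τ k := by
    intro τ hττ k hk1 hkn x hx z hz hsub
    rw [mem_covSet]
    refine ⟨hx, ?_⟩
    have h1 := hb z hz (n + 1 - k) (by omega)
    have h2 : (#(ball N (n + 1 - k) z) : ℝ) ≤ #(ball N τ x ∩ R) := by
      exact_mod_cast card_le_card hsub
    have h3 : ((n + 1 - k : ℕ) : ℝ) = (n : ℝ) + 1 - k := by
      rw [Nat.cast_sub (by omega)]
      push_cast
      ring
    unfold bsize at h1
    rw [le_div_iff₀ hd, h3] at h1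
    linarith
  have hτle : ∀ τ, (τ = τ1 ∨ τ = τ2) → n ≤ τ := by
    intro τ h
    omega
  have hballcov : ∀ τ, (τ = τ1 ∨ τ = τ2) → ∀ k, 1 ≤ k → k ≤ n →
      ball N k v ⊆ covSet N d R s n τ k := by
    intro τ hττ k hk1 hkn x hx
    have hnt := hτle τ hττ
    refine hcov τ hττ k hk1 hkn x ?_ x (hballU _ hx) ?_
    · rw [hR]
      exact ball_mono N (by omega) v hx
    · refine subset_inter (ball_mono N (by omega) x) ?_
      rw [hR]
      exact ball_subset_of_mem N hx (by omega)
  have hyr : ∀ τ, (τ = τ1 ∨ τ = τ2) → ∀ k ≤ n, bsize N d k v ≤ covSize N d R s n τ k := by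
    intro τ hττ k hk
    rcases Nat.eq_zero_or_pos k with h0 | hpos
    · subst h0
      simp [bsize, covSize]
    · unfold covSize bsize
      rw [if_neg (by omega)]
      refine div_le_div_of_nonneg_right ?_ hd.le
      exact_mod_cast card_le_card (hballcov τ hττ k hpos hk)
  have hT : ∀ τ, (τ = τ1 ∨ τ = τ2) → ∀ j k, 1 ≤ k → k < j → j ≤ n →
      covSize N d R s n τ k < bsize N d j v →
      c * (1 - (1 - 1 / c) ^ (τ + k - (n + 1))) *
        (1 - (bsize N d (j + 1) v - bsize N d j v)) ≤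
        (1 - (1 - 1 / c) ^ (τ + k - (n + 1))) * (bsize N d j v - covSize N d R s n τ k) +
        (covSize N d R s n τ k - bsize N d k v) := by
    intro τ hττ j k hk1 hkj hjn hlt
    have hnt := hτle τ hττ
    have hcs : covSize N d R s n τ k = (#(covSet N d R s n τ k) : ℝ) / d := by
      unfold covSize
      rw [if_neg (by omega)]
    rw [hcs] at hlt ⊢
    set C := covSet N d R s n τ k with hC
    set A := ball N j v with hA
    set B := ball N k v with hB
    have hAR : A ⊆ R := by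
      rw [hR]
      exact ball_mono N (by omega) v
    have hBA : B ⊆ A := ball_mono N hkj.le v
    have hlt' : (#C : ℝ) < #A := by
      have h1 : (#C : ℝ) / d < (#A : ℝ) / d := hlt
      rwa [div_lt_div_iff_of_pos_right hd] at h1
    have hltn : #C < #A := by exact_mod_cast hlt'
    have hXne : (A \ C).Nonempty := by
      rw [nonempty_iff_ne_empty]
      intro he
      rw [sdiff_eq_empty_iff_subset] at he
      have := card_le_card he
      omega
    have hch := S.chain_set A B (A \ C) (hballU _)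
      (1 - (bsize N d (j + 1) v - bsize N d j v)) (hlam j) (τ + k - (n + 1)) hXne
      sdiff_subset (by
        intro x hx hxB
        rw [mem_sdiff] at hx
        exact hx.2 (hballcov τ hττ k hk1 (by omega) hxB)) (by
        intro x hx
        rw [mem_sdiff] at hx
        rw [Finset.disjoint_left]
        intro z hz hzB
        refine hx.2 (hcov τ hττ k hk1 (by omega) x (hAR hx.1) z (hballU _ hzB) ?_)
        refine subset_inter (ball_subset_of_mem N hz (by omega)) ?_
        rw [hR]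
        exact ball_subset_of_mem N hzB (by omega))
    have h1 : (#(A \ B) : ℝ) = (bsize N d j v - bsize N d k v) * d := by
      have h4 : #(A \ B) + #B = #A := card_sdiff_add_card_eq_card hBA
      have h4' : (#(A \ B) : ℝ) + #B = #A := by exact_mod_cast h4
      rw [hA, hB, hcard, hcard] at h4'
      rw [hA, hB]
      linarith
    have h2 : (#A : ℝ) - #C ≤ #(A \ C) := by
      have h3 : #A ≤ #(A \ C) + #C := by
        have := le_card_sdiff C A
        omega
      have h3' : (#A : ℝ) ≤ #(A \ C) + #C := by exact_mod_cast h3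
      linarith
    have hgeo : (∑ i ∈ range (τ + k - (n + 1)), ratio U d ^ i) =
        c * (1 - (1 - 1 / c) ^ (τ + k - (n + 1))) := by
      have h3 : (∑ i ∈ range (τ + k - (n + 1)), ratio U d ^ i) * (1 - ratio U d) =
        1 - ratio U d ^ (τ + k - (n + 1)) := geom_sum_mul_neg _ _
      rw [← hratio]
      have h5 : 1 - ratio U d = 1 / c := by rw [hratio]; ring
      rw [h5] at h3
      rw [← h3]
      field_simp
    rw [hgeo, h1, hratio] at hch
    set θ : ℝ := (1 - 1 / c) ^ (τ + k - (n + 1)) with hθ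
    have hθ0 : 0 ≤ θ := by
      rw [hθ, ← hratio]
      exact pow_nonneg hq0 _
    have h6 : θ * ((#A : ℝ) - #C) ≤ θ * #(A \ C) := mul_le_mul_of_nonneg_left h2 hθ0
    have h7 : (#A : ℝ) = bsize N d j v * d := hcard j
    have h8 : (#C : ℝ) = (#C : ℝ) / d * d := by rw [div_mul_cancel₀ _ hd.ne']
    rw [h7] at h6
    set yk : ℝ := (#C : ℝ) / d with hyk
    rw [h8] at h6
    have h9 : (c * (1 - θ) * (1 - (bsize N d (j + 1) v - bsize N d j v))) * d ≤
        ((1 - θ) * (bsize N d j v - yk) + (yk - bsize N d k v)) * d := by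
      nlinarith
    exact le_of_mul_le_mul_right h9 hd
  refine real_contra n τ1 τ2 ((τ1 : ℝ) + τ2) c s (fun j => bsize N d j v)
    (covSize N d R s n τ1) (covSize N d R s n τ2) hτ rfl hL hnτ hc1 hc2 hs7 hsL
    (by simp [bsize]) (S.one_le_bsize le_rfl hv) (fun j hj => hb v hv j (by omega)) ?_
    (fun j _ => S.bsize_mono (by omega) v) ?_ (by simp [covSize]) (by simp [covSize])
    (hyr τ1 (Or.inl rfl)) (hyr τ2 (Or.inr rfl)) (hT τ1 (Or.inl rfl)) (hT τ2 (Or.inr rfl)) ?_
  · have := hbJ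
    rw [hn] at this
    rw [this]
    push_cast
    ring
  · intro j hj1 hjn
    have hne : (ball N j v).Nonempty := by
      have h1 := S.one_le_bsize hj1 hv
      rw [nonempty_iff_ne_empty]
      intro he
      unfold bsize at h1
      rw [he] at h1
      simp at h1
      linarith
    have h1 := S.closed (ball N j v) (hballU j) hne _ (hlam j)
    rw [← hc] at h1
    exact h1
  · rw [sum_add_distrib]
    have h1 := covSize_sum N d hd R s hs n τ1
    have h2 := covSize_sum N d hd R s hs n τ2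
    have h3 := double_count N R τ1 τ2 (fun y hy => hcyc y (by rw [hR] at hy; exact hballU _ hy))
    have h3' : ∑ x ∈ R, (#(ball N τ1 x ∩ R) : ℝ) + ∑ x ∈ R, (#(ball N τ2 x ∩ R) : ℝ) ≤
        (#R : ℝ) ^ 2 := by exact_mod_cast h3
    have h4 : (#R : ℝ) = s * ((n : ℝ) + 1) * d := by
      rw [hR, hcard (n + 1)]
      have := hbJ
      rw [hn] at this
      rw [this]
      push_cast
      ring
    rw [h4] at h3'
    have h5 : (s * d ^ 2) * (∑ k ∈ range (n + 1), covSize N d R s n τ1 k +
        ∑ k ∈ range (n + 1), covSize N d R s n τ2 k) ≤ (s * d ^ 2) * (s * ((n : ℝ) + 1) ^ 2) := by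
      nlinarith
    exact le_of_mul_le_mul_left h5 (by positivity)

end Pool.Agent.CH10ce
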