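import Pool.Agent.Lib.CH10ce.Chain

set_option autoImplicit false

open Finset

namespace Pool.Agent.CH10ce

/-- Existence of the extremal set-up. -/
theorem exists_setup {n k : ℕ} (hn : 0 < n) (N : Fin n → Finset (Fin n))
    (hdeg : ∀ v, n ≤ k * #(N v)) :
    ∃ (U : Finset (Fin n)) (d : ℕ), Setup (fun v => N v ∩ U) U d ∧ #U ≤ k * d := by
  classical
  have : Nonempty (Fin n) := ⟨⟨0, hn⟩⟩
  set C : Finset (Finset (Fin n) × ℕ) :=
    (univ ×ˢ Icc 1 n).filter fun p => p.1.Nonempty ∧ ∀ y ∈ p.1, p.2 ≤ #(N y ∩ p.1) with hC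
  obtain ⟨v0, -, hv0⟩ := Finset.exists_min_image (univ : Finset (Fin n)) (fun v => #(N v))
    univ_nonempty
  have hd0 : 1 ≤ #(N v0) := by
    by_contra hlt
    have : #(N v0) = 0 := by omega
    have h1 := hdeg v0
    rw [this, mul_zero] at h1
    omega
  have hmem0 : ((univ : Finset (Fin n)), #(N v0)) ∈ C := by
    simp only [hC, mem_filter, mem_product, mem_univ, true_and, mem_Icc]
    refine ⟨⟨hd0, ?_⟩, univ_nonempty, ?_⟩
    · exact (card_le_univ _).trans (by simp)
    · intro y _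
      rw [inter_univ]
      exact hv0 y (mem_univ y)
  obtain ⟨⟨U, d⟩, hUd, hmin⟩ := Finset.exists_min_image C
    (fun p => (#p.1 : ℝ) / p.2) ⟨_, hmem0⟩
  have hUd' := hUd
  simp only [hC, mem_filter, mem_product, mem_univ, true_and, mem_Icc] at hUd'
  obtain ⟨⟨hd1, hdn⟩, hne, hUdeg⟩ := hUd'
  have hdR : (0 : ℝ) < d := by exact_mod_cast hd1
  refine ⟨U, d, ⟨hne, fun y _ => inter_subset_right, hd1, hUdeg, ?_⟩, ?_⟩
  · intro P hPU hPne
    by_contra hcon
    push Not at hcon
    obtain ⟨z, hzP, hz⟩ := Finset.exists_min_image P (fun v => #(N v ∩ P)) hPne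
    have hzz := hcon z hzP
    have hint : N z ∩ U ∩ P = N z ∩ P := by
      rw [inter_assoc, inter_eq_right.mpr hPU]
    rw [hint] at hzz
    have hepos : 1 ≤ #(N z ∩ P) := by
      by_contra hlt
      have h0 : #(N z ∩ P) = 0 := by omega
      rw [h0, zero_mul] at hzz
      omega
    have hmemP : (P, #(N z ∩ P)) ∈ C := by
      simp only [hC, mem_filter, mem_product, mem_univ, true_and, mem_Icc]
      refine ⟨⟨hepos, ?_⟩, hPne, fun y hy => hz y hy⟩
      exact (card_le_univ _).trans (by simp)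
    have hmm := hmin _ hmemP
    simp only at hmm
    have heR : (0 : ℝ) < #(N z ∩ P) := by exact_mod_cast hepos
    rw [div_le_div_iff₀ hdR heR] at hmm
    have hmm' : #U * #(N z ∩ P) ≤ #P * d := by exact_mod_cast hmm
    have e1 : #U * #(N z ∩ P) = #(N z ∩ P) * #U := mul_comm _ _
    have e2 : #P * d = d * #P := mul_comm _ _
    omega
  · have hmm := hmin _ hmem0
    simp only at hmm
    have heR : (0 : ℝ) < #(N v0) := by exact_mod_cast hd0
    rw [div_le_div_iff₀ hdR heR] at hmm
    have hmm' : #U * #(N v0) ≤ #(univ : Finset (Fin n)) * d := by exact_mod_cast hmm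
    rw [card_univ, Fintype.card_fin] at hmm'
    have h1 := hdeg v0
    have h2 : #U * #(N v0) ≤ (k * d) * #(N v0) := by
      calc #U * #(N v0) ≤ n * d := hmm'
        _ ≤ (k * #(N v0)) * d := Nat.mul_le_mul_right _ h1
        _ = (k * d) * #(N v0) := by ring
    exact Nat.le_of_mul_le_mul_right h2 (by omega)

end Pool.Agent.CH10ce
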