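import Pool.Agent.Lib.CH10ce.Core

set_option autoImplicit false

open Finset

namespace Pool.Agent.CH10ce

variable {V : Type*} [DecidableEq V] {N : V → Finset V} {U : Finset V} {d : ℕ}

/-- Averaging: some vertex has small balls. -/
lemma Setup.avg (S : Setup N U d) (s t : ℕ) (hcyc : ∀ y ∈ U, y ∉ ball N (s + t) y) :
    ∃ y ∈ U, #(ball N s y) + #(ball N t y) ≤ #U := by
  by_contra hcon
  push Not at hcon
  have h1 := double_count N U s t hcyc
  have h2 : ∀ u, ∀ y ∈ U, #(ball N u y ∩ U) = #(ball N u y) := by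
    intro u y hy
    rw [inter_eq_left.mpr (ball_subset_ambient N U S.sub u hy)]
  rw [sum_congr rfl (h2 s), sum_congr rfl (h2 t), ← sum_add_distrib] at h1
  have h3 : ∑ _y ∈ U, #U < ∑ y ∈ U, (#(ball N s y) + #(ball N t y)) :=
    sum_lt_sum_of_nonempty S.ne hcon
  rw [sum_const, smul_eq_mul, ← sq] at h3
  omega

lemma Setup.geo_bound (S : Setup N U d) (h : ℕ) (hcyc : ∀ y ∈ U, y ∉ ball N (h + h) y) :
    ∀ M ≤ h, (M : ℝ) ≤ 10 / 7 * ∑ i ∈ range M, ratio U d ^ i := by
  intro M hM
  obtain ⟨y, hy, hle⟩ := S.avg h h hcyc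
  have hd := S.dR
  have hU := S.UR
  have h1 := S.geo_le h hy
  have h2 : bsize N d h y ≤ (#U : ℝ) / d / 2 := by
    unfold bsize
    have : (#(ball N h y) : ℝ) + #(ball N h y) ≤ #U := by exact_mod_cast hle
    rw [div_div, div_le_div_iff₀ hd (by positivity)]
    nlinarith
  have h3 : (∑ i ∈ range h, ratio U d ^ i) * (1 - ratio U d) = 1 - ratio U d ^ h :=
    geom_sum_mul_neg _ _
  have h4 : 1 - ratio U d = (d : ℝ) / #U := by unfold ratio; ring
  have h5 : (∑ i ∈ range h, ratio U d ^ i) * ((d : ℝ) / #U) ≤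
      ((#U : ℝ) / d / 2) * ((d : ℝ) / #U) :=
    mul_le_mul_of_nonneg_right (h1.trans h2) (by positivity)
  have h6 : ((#U : ℝ) / d / 2) * ((d : ℝ) / #U) = 1 / 2 := by field_simp
  have h7 : 1 / 2 ≤ ratio U d ^ h := by
    rw [h4] at h3
    linarith
  have h8 : ratio U d ^ h ≤ ratio U d ^ (M - 1) :=
    pow_le_pow_of_le_one S.ratio_nonneg S.ratio_le_one (by omega)
  have h9 := geo_lower (ratio U d) S.ratio_nonneg M (h7.trans h8)
  linarith

/-- The bound on the girth in the extremal set-up. -/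
theorem Setup.girth (S : Setup N U d) (k : ℕ) (hk : #U ≤ k * d)
    (hcyc : ∀ y ∈ U, y ∉ ball N (k + 12) y) : False := by
  have hd := S.dR
  have hU := S.UR
  have hkR : (#U : ℝ) ≤ k * d := by exact_mod_cast hk
  rcases Nat.even_or_odd' (k + 12) with ⟨h, hh | hh⟩
  · have hcyc' : ∀ y ∈ U, y ∉ ball N (h + h) y := by
      intro y hy
      have := hcyc y hy
      rwa [hh, two_mul] at this
    obtain ⟨μ, hμ, hb⟩ := S.core h (by omega) hcyc' (10 / 7) (by norm_num)
      (S.geo_bound h hcyc')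
    obtain ⟨y, hy, hle⟩ := S.avg h h hcyc'
    have h1 := hb y hy
    unfold bsize at h1
    rw [le_div_iff₀ hd] at h1
    have h2 : (#(ball N h y) : ℝ) + #(ball N h y) ≤ #U := by exact_mod_cast hle
    have h3 : (2 * ((1 - μ) * h)) * d ≤ k * d := by linarith
    have h4 := le_of_mul_le_mul_right h3 hd
    have h5 : (k : ℝ) + 12 = 2 * h := by exact_mod_cast hh
    nlinarith
  · have hcyc' : ∀ y ∈ U, y ∉ ball N (h + h) y := by
      intro y hy hmem
      exact hcyc y hy (ball_mono N (by omega) y hmem)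
    obtain ⟨μ, hμ, hb⟩ := S.core h (by omega) hcyc' (10 / 7) (by norm_num)
      (S.geo_bound h hcyc')
    obtain ⟨y, hy, hle⟩ := S.avg h (h + 1) (by
      intro y hy
      have := hcyc y hy
      have e : h + (h + 1) = k + 12 := by omega
      rwa [e])
    have h1 := hb y hy
    have hstep := S.step h hy
    set b := bsize N d h y with hbdef
    set b' := bsize N d (h + 1) y with hb'def
    set c : ℝ := (#U : ℝ) / d with hc
    have hcpos : 0 < c := by positivity
    have hc1 : 1 ≤ c := by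
      rw [hc, le_div_iff₀ hd, one_mul]
      exact_mod_cast S.d_le
    have hck : c ≤ k := by
      rw [hc, div_le_iff₀ hd]
      exact hkR
    have hratio : ratio U d = 1 - 1 / c := by
      unfold ratio
      rw [hc, one_div_div]
    have h2 : b + b' ≤ c := by
      rw [hbdef, hb'def, hc]
      unfold bsize
      rw [← add_div]
      refine div_le_div_of_nonneg_right ?_ hd.le
      exact_mod_cast hle
    rw [hratio] at hstep
    have hstep2 : c * (1 + (1 - 1 / c) * b) ≤ c * b' := mul_le_mul_of_nonneg_left hstep hcpos.le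
    have e1 : c * (1 + (1 - 1 / c) * b) = c + c * b - b := by
      field_simp
      ring
    rw [e1] at hstep2
    have h3 : (2 * c - 1) * b ≤ c * (c - 1) := by nlinarith
    have h4 : (2 * c - 1) * b ≤ (2 * c - 1) * ((2 * c - 1) / 4) := by nlinarith
    have h5 : b ≤ (2 * c - 1) / 4 := le_of_mul_le_mul_left h4 (by linarith)
    have h6 : (k : ℝ) + 12 = 2 * h + 1 := by exact_mod_cast hh
    nlinarith

/-- Existence of the extremal set-up. -/
theorem exists_setup {n k : ℕ} (hn : 0 < n) (N : Fin n → Finset (Fin n))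
    (hdeg : ∀ v, n ≤ k * #(N v)) :
    ∃ (U : Finset (Fin n)) (d : ℕ), Setup (fun v => N v ∩ U) U d ∧ #U ≤ k * d := by
  classical
  have : Nonempty (Fin n) := ⟨⟨0, hn⟩⟩
  set C : Finset (Finset (Fin n) × ℕ) :=
    (univ ×ˢ Icc 1 n).filter fun p => p.1.Nonempty ∧ ∀ y ∈ p.1, p.2 ≤ #(N y ∩ p.1) with hC
  obtain ⟨v0, -, hv0⟩ := Finset.exists_min_image (univ : Finset (Fin n)) (fun v => #(N v))
    univ_nonempty
  have hd0 : 1 ≤ #(N v0) := by
    by_contra hlt
    have : #(N v0) = 0 := by omega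
    have h1 := hdeg v0
    rw [this, mul_zero] at h1
    omega
  have hmem0 : ((univ : Finset (Fin n)), #(N v0)) ∈ C := by
    simp only [hC, mem_filter, mem_product, mem_univ, true_and, mem_Icc]
    refine ⟨⟨hd0, ?_⟩, univ_nonempty, ?_⟩
    · exact (card_le_univ _).trans (by simp)
    · intro y _
      rw [inter_univ]
      exact hv0 y (mem_univ y)
  obtain ⟨⟨U, d⟩, hUd, hmin⟩ := Finset.exists_min_image C
    (fun p => (#p.1 : ℝ) / p.2) ⟨_, hmem0⟩
  have hUd' := hUd
  simp only [hC, mem_filter, mem_product, mem_univ, true_and, mem_Icc] at hUd'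
  obtain ⟨⟨hd1, hdn⟩, hne, hUdeg⟩ := hUd'
  have hdR : (0 : ℝ) < d := by exact_mod_cast hd1
  refine ⟨U, d, ⟨hne, fun y _ => inter_subset_right, hd1, hUdeg, ?_⟩, ?_⟩
  · intro P hPU hPne
    by_contra hcon
    push Not at hcon
    obtain ⟨z, hzP, hz⟩ := Finset.exists_min_image P (fun v => #(N v ∩ P)) hPne
    have hzz := hcon z hzP
    have hint : N z ∩ U ∩ P = N z ∩ P := by
      rw [inter_assoc, inter_eq_right.mpr hPU]
    rw [hint] at hzz
    have hepos : 1 ≤ #(N z ∩ P) := by
      by_contra hlt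
      have h0 : #(N z ∩ P) = 0 := by omega
      rw [h0, zero_mul] at hzz
      omega
    have hmemP : (P, #(N z ∩ P)) ∈ C := by
      simp only [hC, mem_filter, mem_product, mem_univ, true_and, mem_Icc]
      refine ⟨⟨hepos, ?_⟩, hPne, fun y hy => hz y hy⟩
      exact (card_le_univ _).trans (by simp)
    have hmm := hmin _ hmemP
    simp only at hmm
    have heR : (0 : ℝ) < #(N z ∩ P) := by exact_mod_cast hepos
    rw [div_le_div_iff₀ hdR heR] at hmm
    have hmm' : #U * #(N z ∩ P) ≤ #P * d := by exact_mod_cast hmm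
    have e1 : #U * #(N z ∩ P) = #(N z ∩ P) * #U := mul_comm _ _
    have e2 : #P * d = d * #P := mul_comm _ _
    omega
  · have hmm := hmin _ hmem0
    simp only at hmm
    have heR : (0 : ℝ) < #(N v0) := by exact_mod_cast hd0
    rw [div_le_div_iff₀ hdR heR] at hmm
    have hmm' : #U * #(N v0) ≤ #(univ : Finset (Fin n)) * d := by exact_mod_cast hmm
    rw [card_univ, Fintype.card_fin] at hmm'
    have h1 := hdeg v0
    have h2 : #U * #(N v0) ≤ (k * d) * #(N v0) := by
      calc #U * #(N v0) ≤ n * d := hmm'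
        _ ≤ (k * #(N v0)) * d := Nat.mul_le_mul_right _ h1
        _ = (k * d) * #(N v0) := by ring
    exact Nat.le_of_mul_le_mul_right h2 (by omega)

/-- Minimum out-degree at least `n / k` forces a directed cycle of length at most `k + 12`. -/
theorem girth_le (n k : ℕ) (hn : 0 < n) (G : Digraph (Fin n)) (hloop : ∀ v, ¬ G.Adj v v)
    (hdeg : ∀ v, n ≤ k * {w | G.Adj v w}.ncard) :
    ∃ m : ℕ, 2 ≤ m ∧ m ≤ k + 12 ∧ ∃ c : Fin m → Fin n, Function.Injective c ∧
      ∀ i, G.Adj (c i) (c (finRotate m i)) := by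
  classical
  set N : Fin n → Finset (Fin n) := fun v => univ.filter fun w => G.Adj v w with hN
  have hmemN : ∀ v w, w ∈ N v ↔ G.Adj v w := by
    intro v w
    simp [hN]
  have hcard : ∀ v, #(N v) = {w | G.Adj v w}.ncard := by
    intro v
    rw [← Set.ncard_coe_finset]
    congr 1
    ext w
    simp [hN]
  by_cases hex : ∃ y, y ∈ ball N (k + 12) y
  · obtain ⟨y, hy⟩ := hex
    obtain ⟨m, h2, hm, c, hc, hadj⟩ := exists_cycle N
      (fun v hv => hloop v ((hmemN v v).mp hv)) (k + 12) y hy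
    exact ⟨m, h2, hm, c, hc, fun i => (hmemN _ _).mp (hadj i)⟩
  · exfalso
    push Not at hex
    obtain ⟨U, d, S, hUk⟩ := exists_setup (k := k) hn N (fun v => by rw [hcard v]; exact hdeg v)
    refine S.girth k hUk ?_
    intro y _ hmem
    exact hex y (ball_mono_nbr _ N (fun _ => inter_subset_left) _ _ hmem)

end Pool.Agent.CH10ce
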