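import Pool.Agent.Lib.CH10ce.Core4
import Pool.Agent.Lib.CH10ce.Extr

set_option autoImplicit false

open Finset

namespace Pool.Agent.CH10ce

variable {V : Type*} [DecidableEq V] {N : V → Finset V} {U : Finset V} {d : ℕ}

lemma Setup.two_pow (S : Setup N U d) (τ1 τ2 : ℕ) (hcyc : ∀ y ∈ U, y ∉ ball N (τ1 + τ2) y) :
    1 ≤ ratio U d ^ τ1 + ratio U d ^ τ2 := by
  have hd := S.dR
  have hU := S.UR
  obtain ⟨y0, hy0, hle0⟩ := S.avg τ1 τ2 hcyc
  have hsum0 : bsize N d τ1 y0 + bsize N d τ2 y0 ≤ (#U : ℝ) / d := by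
    unfold bsize
    rw [← add_div]
    refine div_le_div_of_nonneg_right ?_ hd.le
    exact_mod_cast hle0
  have h1 := S.geo_le τ1 hy0
  have h2 := S.geo_le τ2 hy0
  have h3 : (∑ i ∈ range τ1, ratio U d ^ i) * (1 - ratio U d) = 1 - ratio U d ^ τ1 :=
    geom_sum_mul_neg _ _
  have h4 : (∑ i ∈ range τ2, ratio U d ^ i) * (1 - ratio U d) = 1 - ratio U d ^ τ2 :=
    geom_sum_mul_neg _ _
  have h5 : 1 - ratio U d = (d : ℝ) / #U := by unfold ratio; ring
  have h6 : ((∑ i ∈ range τ1, ratio U d ^ i) + ∑ i ∈ range τ2, ratio U d ^ i) *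
      ((d : ℝ) / #U) ≤ ((#U : ℝ) / d) * ((d : ℝ) / #U) :=
    mul_le_mul_of_nonneg_right (by linarith) (by positivity)
  have h7 : ((#U : ℝ) / d) * ((d : ℝ) / #U) = 1 := by field_simp
  rw [h5] at h3 h4
  rw [add_mul, h3, h4, h7] at h6
  linarith

/-- In the extremal set-up there is a closed walk of length at most `k + 4`. -/
theorem Setup.girth4 (S : Setup N U d) : ∀ k, 1 ≤ k → #U ≤ k * d →
    ¬ (∀ y ∈ U, y ∉ ball N (k + 4) y) := by
  intro k hk1
  induction k, hk1 using Nat.le_induction with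
  | base =>
    intro hk hcyc
    have h1 := S.two_pow 3 2 hcyc
    have h2 := S.ratio_nonneg
    have h3 : ratio U d ≤ 0 := by
      unfold ratio
      have hd := S.dR
      have hU := S.UR
      have h4 : (#U : ℝ) ≤ d := by
        have : #U ≤ d := by omega
        exact_mod_cast this
      have : 1 ≤ (d : ℝ) / #U := by rw [le_div_iff₀ hU]; linarith
      linarith
    have h5 : ratio U d = 0 := le_antisymm h3 h2
    rw [h5] at h1
    norm_num at h1
  | succ k hk1 ih =>
    intro hk hcyc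
    have hd := S.dR
    have hU := S.UR
    rcases Nat.lt_or_ge (k * d) #U with hlow | hlow
    swap
    · refine ih hlow ?_
      intro y hy hmem
      exact hcyc y hy (ball_mono N (by omega) y hmem)
    have hkR : (#U : ℝ) ≤ ((k : ℝ) + 1) * d := by exact_mod_cast hk
    have hlowR : (k : ℝ) * d < #U := by exact_mod_cast hlow
    obtain ⟨τ1, τ2, hsum, hτ⟩ : ∃ τ1 τ2 : ℕ, τ1 + τ2 = k + 1 + 4 ∧ (τ1 = τ2 ∨ τ1 = τ2 + 1) :=
      ⟨(k + 1 + 4 + 1) / 2, (k + 1 + 4) / 2, by omega, by omega⟩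
    have hcyc' : ∀ y ∈ U, y ∉ ball N (τ1 + τ2) y := by
      rw [hsum]
      exact hcyc
    have hsumR : (τ1 : ℝ) + τ2 = (k : ℝ) + 5 := by
      have : ((τ1 + τ2 : ℕ) : ℝ) = ((k + 1 + 4 : ℕ) : ℝ) := by rw [hsum]
      push_cast at this
      linarith
    rcases Nat.lt_or_ge k 12 with hk12 | hk12
    · -- small values
      have h1 := S.two_pow τ1 τ2 hcyc'
      have hr0 := S.ratio_nonneg
      have hr1 : ratio U d ≤ 1 - 1 / ((k : ℝ) + 1) := by
        unfold ratio
        have : 1 / ((k : ℝ) + 1) ≤ (d : ℝ) / #U := by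
          rw [div_le_div_iff₀ (by positivity) hU]
          linarith
        linarith
      have p1 : ratio U d ^ τ1 ≤ (1 - 1 / ((k : ℝ) + 1)) ^ τ1 := pow_le_pow_left₀ hr0 hr1 _
      have p2 : ratio U d ^ τ2 ≤ (1 - 1 / ((k : ℝ) + 1)) ^ τ2 := pow_le_pow_left₀ hr0 hr1 _
      have h2 : 1 ≤ (1 - 1 / ((k : ℝ) + 1)) ^ τ1 + (1 - 1 / ((k : ℝ) + 1)) ^ τ2 := by linarith
      interval_cases k <;>
      · rcases hτ with h | h
        · first
          | (exfalso; omega)
          | (obtain ⟨a, rfl⟩ : ∃ a, τ2 = a := ⟨_, rfl⟩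
             subst h
             have h3 : τ1 = 3 ∨ τ1 = 4 ∨ τ1 = 5 ∨ τ1 = 6 ∨ τ1 = 7 ∨ τ1 = 8 := by omega
             rcases h3 with h3 | h3 | h3 | h3 | h3 | h3 <;>
             first
             | (exfalso; omega)
             | (rw [h3] at h2; norm_num at h2))
        · first
          | (exfalso; omega)
          | (subst h
             have h3 : τ2 = 2 ∨ τ2 = 3 ∨ τ2 = 4 ∨ τ2 = 5 ∨ τ2 = 6 ∨ τ2 = 7 := by omega
             rcases h3 with h3 | h3 | h3 | h3 | h3 | h3 <;>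
             first
             | (exfalso; omega)
             | (rw [h3] at h2; norm_num at h2))
    · have hk12R : (12 : ℝ) ≤ k := by exact_mod_cast hk12
      refine S.core4 τ1 τ2 hτ hcyc' (by linarith) ?_ ?_
      · rw [hsumR, lt_div_iff₀ hd]
        linarith
      · rw [hsumR, div_le_iff₀ hd]
        linarith

/-- Minimum out-degree at least `n / k` forces a directed cycle of length at most `k + 4`. -/
theorem girth_le4 (n k : ℕ) (hn : 0 < n) (hk : 0 < k) (G : Digraph (Fin n))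
    (hloop : ∀ v, ¬ G.Adj v v) (hdeg : ∀ v, n ≤ k * {w | G.Adj v w}.ncard) :
    ∃ m : ℕ, 2 ≤ m ∧ m ≤ k + 4 ∧ ∃ c : Fin m → Fin n, Function.Injective c ∧
      ∀ i, G.Adj (c i) (c (finRotate m i)) := by
  classical
  set N : Fin n → Finset (Fin n) := fun v => univ.filter fun w => G.Adj v w with hN
  have hmemN : ∀ v w, w ∈ N v ↔ G.Adj v w := by
    intro v w
    simp [hN]
  have hcard : ∀ v, #(N v) = {w | G.Adj v w}.ncard := by
    intro v
    rw [← Set.ncard_coe_finset]
    congr 1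
    ext w
    simp [hN]
  by_cases hex : ∃ y, y ∈ ball N (k + 4) y
  · obtain ⟨y, hy⟩ := hex
    obtain ⟨m, h2, hm, c, hc, hadj⟩ := exists_cycle N
      (fun v hv => hloop v ((hmemN v v).mp hv)) (k + 4) y hy
    exact ⟨m, h2, hm, c, hc, fun i => (hmemN _ _).mp (hadj i)⟩
  · exfalso
    push Not at hex
    obtain ⟨U, d, S, hUk⟩ := exists_setup (k := k) hn N (fun v => by rw [hcard v]; exact hdeg v)
    refine S.girth4 k (by omega) hUk ?_
    intro y _ hmem
    exact hex y (ball_mono_nbr _ N (fun _ => inter_subset_left) _ _ hmem)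

end Pool.Agent.CH10ce
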