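import Mathlib

set_option autoImplicit false

namespace Pool.Agent.CH10ce

/-- `c ^ 2 * L` times the third correction term. -/
noncomputable def numE (c L : ℝ) : ℝ := 3 * c ^ 2 * L - 3 * c * L + L - 3 * c ^ 3

/-- `c ^ 2 * L` times the sum of the correction terms. -/
noncomputable def numS (c L : ℝ) : ℝ :=
  27 / 2 * c ^ 2 * L - 27 / 2 * c ^ 3 - 23 / 2 * c * L + 7 / 2 * L

noncomputable def K1num (c L sn sd p Ph : ℝ) : ℝ :=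
  (4 * c ^ 2 * L * sn - numE c L * sd) * (c * sd - (c + 1) * sn) * Ph -
    4 * c * (2 * c * sd - c * sn - sn) * (sn * (p + 1) * c ^ 2 * L - 2 * numS c L * sd)

noncomputable def K2num (c L sn sd p Ph : ℝ) : ℝ :=
  8 * ((4 * c ^ 2 * L * sn - numE c L * sd) * (c * sd - (c + 1) * sn)) * Ph -
    4 * c * (2 * c * sd - c * sn - sn) * (sn * 9 * c ^ 2 * L - 2 * numS c L * sd) * p

noncomputable def pEven (L : ℝ) : ℝ := L / 2 - 1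

noncomputable def pOdd (L : ℝ) : ℝ := (L - 1) / 2

noncomputable def phEven (c L : ℝ) : ℝ :=
  pEven L * (pEven L - 1) * c - pEven L * (pEven L - 1) * (pEven L - 2) / 3

noncomputable def phOdd (c L : ℝ) : ℝ :=
  (pOdd L - 1) ^ 2 * c - (pOdd L - 1) * (pOdd L - 2) * (2 * pOdd L - 3) / 6

lemma k1_even_a (t y : ℝ) (ht : 0 ≤ t) (hy : 0 ≤ y) (hy1 : y ≤ 1) :
    0 < K1num (13 - y + t) (17 + t) (13 - y + t) (17 + t) (pEven (17 + t)) (phEven (13 - y + t) (17 + t)) := by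
  obtain ⟨w, hw⟩ : ∃ w : ℝ, w = 1 - y := ⟨1 - y, rfl⟩
  have hw0 : 0 ≤ w := by linarith
  obtain ⟨P0, hP0⟩ : ∃ P : ℝ, P = 34438679729 * w ^ 6 + 236333792832 * y ^ 1 * w ^ 5 + 651856708677 * y ^ 2 * w ^ 4 +
      934881379165 * y ^ 3 * w ^ 3 + 740112069804 * y ^ 4 * w ^ 2 +
      307975455618 * y ^ 5 * w ^ 1 + 52783088111 * y ^ 6 := ⟨_, rfl⟩
  obtain ⟨P1, hP1⟩ : ∃ P : ℝ, P = 12428140101 * w ^ 6 + 91236929299 * y ^ 1 * w ^ 5 + 263694588505 * y ^ 2 * w ^ 4 +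
      391780415430 * y ^ 3 * w ^ 3 + 319067634512 * y ^ 4 * w ^ 2 +
      135958340735 * y ^ 5 * w ^ 1 + 23785298388 * y ^ 6 := ⟨_, rfl⟩
  obtain ⟨P2, hP2⟩ : ∃ P : ℝ, P = 1738991628 * w ^ 6 + 14403500329 * y ^ 1 * w ^ 5 + 44722754441 * y ^ 2 * w ^ 4 +
      69775623607 * y ^ 3 * w ^ 3 + 58932623725 * y ^ 4 * w ^ 2 +
      25846050132 * y ^ 5 * w ^ 1 + 4630802432 * y ^ 6 := ⟨_, rfl⟩
  obtain ⟨P3, hP3⟩ : ∃ P : ℝ, P = 117733599 * w ^ 6 + 1239814486 * y ^ 1 * w ^ 5 + 4295493136 * y ^ 2 * w ^ 4 +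
      7151856360 * y ^ 3 * w ^ 3 + 6314163845 * y ^ 4 * w ^ 2 + 2862070672 * y ^ 5 * w ^ 1 +
      526350896 * y ^ 6 := ⟨_, rfl⟩
  obtain ⟨P4, hP4⟩ : ∃ P : ℝ, P = 4591038 * w ^ 6 + 72658608 * y ^ 1 * w ^ 5 + 284708566 * y ^ 2 * w ^ 4 +
      504807943 * y ^ 3 * w ^ 3 + 463871013 * y ^ 4 * w ^ 2 + 216405834 * y ^ 5 * w ^ 1 +
      40701768 * y ^ 6 := ⟨_, rfl⟩
  obtain ⟨P5, hP5⟩ : ∃ P : ℝ, P = 241875 * w ^ 6 + 3961747 * y ^ 1 * w ^ 5 + 15753153 * y ^ 2 * w ^ 4 +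
      28254830 * y ^ 3 * w ^ 3 + 26234594 * y ^ 4 * w ^ 2 + 12359825 * y ^ 5 * w ^ 1 +
      2346780 * y ^ 6 := ⟨_, rfl⟩
  obtain ⟨P6, hP6⟩ : ∃ P : ℝ, P = 18552 * w ^ 6 + 202629 * y ^ 1 * w ^ 5 + 724085 * y ^ 2 * w ^ 4 +
      1241369 * y ^ 3 * w ^ 3 + 1127607 * y ^ 4 * w ^ 2 + 525614 * y ^ 5 * w ^ 1 +
      99368 * y ^ 6 := ⟨_, rfl⟩
  obtain ⟨P7, hP7⟩ : ∃ P : ℝ, P = 777 * w ^ 6 + 6660 * y ^ 1 * w ^ 5 + 21526 * y ^ 2 * w ^ 4 + 35044 * y ^ 3 * w ^ 3 +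
      30921 * y ^ 4 * w ^ 2 + 14176 * y ^ 5 * w ^ 1 + 2656 * y ^ 6 := ⟨_, rfl⟩
  obtain ⟨P8, hP8⟩ : ∃ P : ℝ, P = 12 * w ^ 6 + 92 * y ^ 1 * w ^ 5 + 280 * y ^ 2 * w ^ 4 + 440 * y ^ 3 * w ^ 3 +
      380 * y ^ 4 * w ^ 2 + 172 * y ^ 5 * w ^ 1 + 32 * y ^ 6 := ⟨_, rfl⟩
  have p0 : 0 ≤ P0 := by rw [hP0]; positivity
  have p1 : 0 ≤ P1 := by rw [hP1]; positivity
  have p2 : 0 ≤ P2 := by rw [hP2]; positivity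
  have p3 : 0 ≤ P3 := by rw [hP3]; positivity
  have p4 : 0 ≤ P4 := by rw [hP4]; positivity
  have p5 : 0 ≤ P5 := by rw [hP5]; positivity
  have p6 : 0 ≤ P6 := by rw [hP6]; positivity
  have p7 : 0 ≤ P7 := by rw [hP7]; positivity
  have p8 : 0 ≤ P8 := by rw [hP8]; positivity
  have q1 : 0 ≤ P1 * t ^ 1 := mul_nonneg p1 (pow_nonneg ht _)
  have q2 : 0 ≤ P2 * t ^ 2 := mul_nonneg p2 (pow_nonneg ht _)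
  have q3 : 0 ≤ P3 * t ^ 3 := mul_nonneg p3 (pow_nonneg ht _)
  have q4 : 0 ≤ P4 * t ^ 4 := mul_nonneg p4 (pow_nonneg ht _)
  have q5 : 0 ≤ P5 * t ^ 5 := mul_nonneg p5 (pow_nonneg ht _)
  have q6 : 0 ≤ P6 * t ^ 6 := mul_nonneg p6 (pow_nonneg ht _)
  have q7 : 0 ≤ P7 * t ^ 7 := mul_nonneg p7 (pow_nonneg ht _)
  have q8 : 0 ≤ P8 * t ^ 8 := mul_nonneg p8 (pow_nonneg ht _)
  have e : 24 * K1num (13 - y + t) (17 + t) (13 - y + t) (17 + t) (pEven (17 + t)) (phEven (13 - y + t) (17 + t)) =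
      1 + (P0 + P1 * t ^ 1 + P2 * t ^ 2 + P3 * t ^ 3 + P4 * t ^ 4 + P5 * t ^ 5 + P6 * t ^ 6 + P7 * t ^ 7 + P8 * t ^ 8) := by
    rw [hP0, hP1, hP2, hP3, hP4, hP5, hP6, hP7, hP8, hw]
    unfold K1num numE numS pEven phEven pEven
    ring
  linarith

lemma k1_even_b (t y : ℝ) (ht : 0 ≤ t) (hy : 0 ≤ y) (hy1 : y ≤ 1) :
    0 < K1num (13 - y + t) (17 + t) (7 / 10) 1 (pEven (17 + t)) (phEven (13 - y + t) (17 + t)) := by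
  obtain ⟨w, hw⟩ : ∃ w : ℝ, w = 1 - y := ⟨1 - y, rfl⟩
  have hw0 : 0 ≤ w := by linarith
  obtain ⟨P0, hP0⟩ : ∃ P : ℝ, P = 10079317871 * w ^ 5 + 50175021475 * y ^ 1 * w ^ 4 + 99344520332 * y ^ 2 * w ^ 3 +
      97868314604 * y ^ 3 * w ^ 2 + 48001080466 * y ^ 4 * w ^ 1 + 9381698420 * y ^ 5 := ⟨_, rfl⟩
  obtain ⟨P1, hP1⟩ : ∃ P : ℝ, P = 4306754376 * w ^ 5 + 21182754197 * y ^ 1 * w ^ 4 + 41599893787 * y ^ 2 * w ^ 3 +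
      40777583412 * y ^ 3 * w ^ 2 + 19952684492 * y ^ 4 * w ^ 1 + 3898987486 * y ^ 5 := ⟨_, rfl⟩
  obtain ⟨P2, hP2⟩ : ∃ P : ℝ, P = 896313997 * w ^ 5 + 4333035824 * y ^ 1 * w ^ 4 + 8382532766 * y ^ 2 * w ^ 3 +
      8111349139 * y ^ 3 * w ^ 2 + 3925723262 * y ^ 4 * w ^ 1 + 760184792 * y ^ 5 := ⟨_, rfl⟩
  obtain ⟨P3, hP3⟩ : ∃ P : ℝ, P = 119369878 * w ^ 5 + 571421806 * y ^ 1 * w ^ 4 + 1094583274 * y ^ 2 * w ^ 3 +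
      1048796173 * y ^ 3 * w ^ 2 + 502681645 * y ^ 4 * w ^ 1 + 96416818 * y ^ 5 := ⟨_, rfl⟩
  obtain ⟨P4, hP4⟩ : ∃ P : ℝ, P = 10498290 * w ^ 5 + 50428422 * y ^ 1 * w ^ 4 + 96871406 * y ^ 2 * w ^ 3 +
      93024135 * y ^ 3 * w ^ 2 + 44656290 * y ^ 4 * w ^ 1 + 8573429 * y ^ 5 := ⟨_, rfl⟩
  obtain ⟨P5, hP5⟩ : ∃ P : ℝ, P = 572432 * w ^ 5 + 2783619 * y ^ 1 * w ^ 4 + 5412487 * y ^ 2 * w ^ 3 +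
      5260067 * y ^ 3 * w ^ 2 + 2554989 * y ^ 4 * w ^ 1 + 496222 * y ^ 5 := ⟨_, rfl⟩
  obtain ⟨P6, hP6⟩ : ∃ P : ℝ, P = 17105 * w ^ 5 + 84418 * y ^ 1 * w ^ 4 + 166622 * y ^ 2 * w ^ 3 +
      164408 * y ^ 3 * w ^ 2 + 81097 * y ^ 4 * w ^ 1 + 15998 * y ^ 5 := ⟨_, rfl⟩
  obtain ⟨P7, hP7⟩ : ∃ P : ℝ, P = 210 * w ^ 5 + 1050 * y ^ 1 * w ^ 4 + 2100 * y ^ 2 * w ^ 3 + 2100 * y ^ 3 * w ^ 2 +
      1050 * y ^ 4 * w ^ 1 + 210 * y ^ 5 := ⟨_, rfl⟩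
  have p0 : 0 ≤ P0 := by rw [hP0]; positivity
  have p1 : 0 ≤ P1 := by rw [hP1]; positivity
  have p2 : 0 ≤ P2 := by rw [hP2]; positivity
  have p3 : 0 ≤ P3 := by rw [hP3]; positivity
  have p4 : 0 ≤ P4 := by rw [hP4]; positivity
  have p5 : 0 ≤ P5 := by rw [hP5]; positivity
  have p6 : 0 ≤ P6 := by rw [hP6]; positivity
  have p7 : 0 ≤ P7 := by rw [hP7]; positivity
  have q1 : 0 ≤ P1 * t ^ 1 := mul_nonneg p1 (pow_nonneg ht _)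
  have q2 : 0 ≤ P2 * t ^ 2 := mul_nonneg p2 (pow_nonneg ht _)
  have q3 : 0 ≤ P3 * t ^ 3 := mul_nonneg p3 (pow_nonneg ht _)
  have q4 : 0 ≤ P4 * t ^ 4 := mul_nonneg p4 (pow_nonneg ht _)
  have q5 : 0 ≤ P5 * t ^ 5 := mul_nonneg p5 (pow_nonneg ht _)
  have q6 : 0 ≤ P6 * t ^ 6 := mul_nonneg p6 (pow_nonneg ht _)
  have q7 : 0 ≤ P7 * t ^ 7 := mul_nonneg p7 (pow_nonneg ht _)
  have e : 1200 * K1num (13 - y + t) (17 + t) (7 / 10) 1 (pEven (17 + t)) (phEven (13 - y + t) (17 + t)) =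
      1 + (P0 + P1 * t ^ 1 + P2 * t ^ 2 + P3 * t ^ 3 + P4 * t ^ 4 + P5 * t ^ 5 + P6 * t ^ 6 + P7 * t ^ 7) := by
    rw [hP0, hP1, hP2, hP3, hP4, hP5, hP6, hP7, hw]
    unfold K1num numE numS pEven phEven pEven
    ring
  linarith

lemma k2_even_a (t y : ℝ) (ht : 0 ≤ t) (hy : 0 ≤ y) (hy1 : y ≤ 1) :
    0 < K2num (13 - y + t) (17 + t) (13 - y + t) (17 + t) (pEven (17 + t)) (phEven (13 - y + t) (17 + t)) := by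
  obtain ⟨w, hw⟩ : ∃ w : ℝ, w = 1 - y := ⟨1 - y, rfl⟩
  have hw0 : 0 ≤ w := by linarith
  obtain ⟨P0, hP0⟩ : ∃ P : ℝ, P = 30614946569 * w ^ 6 + 212873825574 * y ^ 1 * w ^ 5 + 592232873265 * y ^ 2 * w ^ 4 +
      854479223305 * y ^ 3 * w ^ 3 + 679405283970 * y ^ 4 * w ^ 2 +
      283630528914 * y ^ 5 * w ^ 1 + 48730389839 * y ^ 6 := ⟨_, rfl⟩
  obtain ⟨P1, hP1⟩ : ∃ P : ℝ, P = 14689672803 * w ^ 6 + 105007605877 * y ^ 1 * w ^ 5 + 298421899927 * y ^ 2 * w ^ 4 +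
      438237374670 * y ^ 3 * w ^ 3 + 353858049674 * y ^ 4 * w ^ 2 +
      149793284123 * y ^ 5 * w ^ 1 + 26068620996 * y ^ 6 := ⟨_, rfl⟩
  obtain ⟨P2, hP2⟩ : ∃ P : ℝ, P = 3040921116 * w ^ 6 + 22459698427 * y ^ 1 * w ^ 5 + 65374559285 * y ^ 2 * w ^ 4 +
      97866734731 * y ^ 3 * w ^ 3 + 80328182845 * y ^ 4 * w ^ 2 +
      34501627848 * y ^ 5 * w ^ 1 + 6084396086 * y ^ 6 := ⟨_, rfl⟩
  obtain ⟨P3, hP3⟩ : ∃ P : ℝ, P = 355710795 * w ^ 6 + 2731112644 * y ^ 1 * w ^ 5 + 8166806824 * y ^ 2 * w ^ 4 +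
      12484362396 * y ^ 3 * w ^ 3 + 10427131781 * y ^ 4 * w ^ 2 +
      4547115064 * y ^ 5 * w ^ 1 + 812940662 * y ^ 6 := ⟨_, rfl⟩
  obtain ⟨P4, hP4⟩ : ∃ P : ℝ, P = 25891224 * w ^ 6 + 208008174 * y ^ 1 * w ^ 5 + 640832818 * y ^ 2 * w ^ 4 +
      1001839075 * y ^ 3 * w ^ 3 + 852212121 * y ^ 4 * w ^ 2 + 377544948 * y ^ 5 * w ^ 1 +
      68456034 * y ^ 6 := ⟨_, rfl⟩
  obtain ⟨P5, hP5⟩ : ∃ P : ℝ, P = 1217193 * w ^ 6 + 10282057 * y ^ 1 * w ^ 5 + 32686185 * y ^ 2 * w ^ 4 +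
      52290542 * y ^ 3 * w ^ 3 + 45316868 * y ^ 4 * w ^ 2 + 20399723 * y ^ 5 * w ^ 1 +
      3752076 * y ^ 6 := ⟨_, rfl⟩
  obtain ⟨P6, hP6⟩ : ∃ P : ℝ, P = 36924 * w ^ 6 + 327603 * y ^ 1 * w ^ 5 + 1072859 * y ^ 2 * w ^ 4 +
      1754165 * y ^ 3 * w ^ 3 + 1547511 * y ^ 4 * w ^ 2 + 707492 * y ^ 5 * w ^ 1 +
      131966 * y ^ 6 := ⟨_, rfl⟩
  obtain ⟨P7, hP7⟩ : ∃ P : ℝ, P = 681 * w ^ 6 + 6270 * y ^ 1 * w ^ 5 + 21016 * y ^ 2 * w ^ 4 + 34984 * y ^ 3 * w ^ 3 +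
      31341 * y ^ 4 * w ^ 2 + 14530 * y ^ 5 * w ^ 1 + 2746 * y ^ 6 := ⟨_, rfl⟩
  obtain ⟨P8, hP8⟩ : ∃ P : ℝ, P = 6 * w ^ 6 + 56 * y ^ 1 * w ^ 5 + 190 * y ^ 2 * w ^ 4 + 320 * y ^ 3 * w ^ 3 +
      290 * y ^ 4 * w ^ 2 + 136 * y ^ 5 * w ^ 1 + 26 * y ^ 6 := ⟨_, rfl⟩
  have p0 : 0 ≤ P0 := by rw [hP0]; positivity
  have p1 : 0 ≤ P1 := by rw [hP1]; positivity
  have p2 : 0 ≤ P2 := by rw [hP2]; positivity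
  have p3 : 0 ≤ P3 := by rw [hP3]; positivity
  have p4 : 0 ≤ P4 := by rw [hP4]; positivity
  have p5 : 0 ≤ P5 := by rw [hP5]; positivity
  have p6 : 0 ≤ P6 := by rw [hP6]; positivity
  have p7 : 0 ≤ P7 := by rw [hP7]; positivity
  have p8 : 0 ≤ P8 := by rw [hP8]; positivity
  have q1 : 0 ≤ P1 * t ^ 1 := mul_nonneg p1 (pow_nonneg ht _)
  have q2 : 0 ≤ P2 * t ^ 2 := mul_nonneg p2 (pow_nonneg ht _)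
  have q3 : 0 ≤ P3 * t ^ 3 := mul_nonneg p3 (pow_nonneg ht _)
  have q4 : 0 ≤ P4 * t ^ 4 := mul_nonneg p4 (pow_nonneg ht _)
  have q5 : 0 ≤ P5 * t ^ 5 := mul_nonneg p5 (pow_nonneg ht _)
  have q6 : 0 ≤ P6 * t ^ 6 := mul_nonneg p6 (pow_nonneg ht _)
  have q7 : 0 ≤ P7 * t ^ 7 := mul_nonneg p7 (pow_nonneg ht _)
  have q8 : 0 ≤ P8 * t ^ 8 := mul_nonneg p8 (pow_nonneg ht _)
  have e : 3 * K2num (13 - y + t) (17 + t) (13 - y + t) (17 + t) (pEven (17 + t)) (phEven (13 - y + t) (17 + t)) =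
      1 + (P0 + P1 * t ^ 1 + P2 * t ^ 2 + P3 * t ^ 3 + P4 * t ^ 4 + P5 * t ^ 5 + P6 * t ^ 6 + P7 * t ^ 7 + P8 * t ^ 8) := by
    rw [hP0, hP1, hP2, hP3, hP4, hP5, hP6, hP7, hP8, hw]
    unfold K2num numE numS pEven phEven pEven
    ring
  linarith

lemma k2_even_b (t y : ℝ) (ht : 0 ≤ t) (hy : 0 ≤ y) (hy1 : y ≤ 1) :
    0 < K2num (13 - y + t) (17 + t) (7 / 10) 1 (pEven (17 + t)) (phEven (13 - y + t) (17 + t)) := by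
  obtain ⟨w, hw⟩ : ∃ w : ℝ, w = 1 - y := ⟨1 - y, rfl⟩
  have hw0 : 0 ≤ w := by linarith
  obtain ⟨P0, hP0⟩ : ∃ P : ℝ, P = 9366843329 * w ^ 5 + 46569496210 * y ^ 1 * w ^ 4 + 92105429585 * y ^ 2 * w ^ 3 +
      90650768480 * y ^ 3 * w ^ 2 + 44424036520 * y ^ 4 * w ^ 1 + 8676150044 * y ^ 5 := ⟨_, rfl⟩
  obtain ⟨P1, hP1⟩ : ∃ P : ℝ, P = 4800013887 * w ^ 5 + 23658660176 * y ^ 1 * w ^ 4 + 46528854928 * y ^ 2 * w ^ 3 +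
      45648807351 * y ^ 3 * w ^ 2 + 22345113290 * y ^ 4 * w ^ 1 + 4366517548 * y ^ 5 := ⟨_, rfl⟩
  obtain ⟨P2, hP2⟩ : ∃ P : ℝ, P = 1090808266 * w ^ 5 + 5332697003 * y ^ 1 * w ^ 4 + 10421507417 * y ^ 2 * w ^ 3 +
      10176683209 * y ^ 3 * w ^ 2 + 4965598427 * y ^ 4 * w ^ 1 + 968533628 * y ^ 5 := ⟨_, rfl⟩
  obtain ⟨P3, hP3⟩ : ∃ P : ℝ, P = 142927762 * w ^ 5 + 695104492 * y ^ 1 * w ^ 4 + 1352309083 * y ^ 2 * w ^ 3 +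
      1315520596 * y ^ 3 * w ^ 2 + 639894388 * y ^ 4 * w ^ 1 + 124506145 * y ^ 5 := ⟨_, rfl⟩
  obtain ⟨P4, hP4⟩ : ∃ P : ℝ, P = 11646708 * w ^ 5 + 56619921 * y ^ 1 * w ^ 4 + 110109464 * y ^ 2 * w ^ 3 +
      107073495 * y ^ 3 * w ^ 2 + 52064742 * y ^ 4 * w ^ 1 + 10127498 * y ^ 5 := ⟨_, rfl⟩
  obtain ⟨P5, hP5⟩ : ∃ P : ℝ, P = 587165 * w ^ 5 + 2868906 * y ^ 1 * w ^ 4 + 5606305 * y ^ 2 * w ^ 3 +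
      5477129 * y ^ 3 * w ^ 2 + 2675142 * y ^ 4 * w ^ 1 + 522577 * y ^ 5 := ⟨_, rfl⟩
  obtain ⟨P6, hP6⟩ : ∃ P : ℝ, P = 16832 * w ^ 5 + 83053 * y ^ 1 * w ^ 4 + 163892 * y ^ 2 * w ^ 3 +
      161678 * y ^ 3 * w ^ 2 + 79732 * y ^ 4 * w ^ 1 + 15725 * y ^ 5 := ⟨_, rfl⟩
  obtain ⟨P7, hP7⟩ : ∃ P : ℝ, P = 210 * w ^ 5 + 1050 * y ^ 1 * w ^ 4 + 2100 * y ^ 2 * w ^ 3 + 2100 * y ^ 3 * w ^ 2 +
      1050 * y ^ 4 * w ^ 1 + 210 * y ^ 5 := ⟨_, rfl⟩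
  have p0 : 0 ≤ P0 := by rw [hP0]; positivity
  have p1 : 0 ≤ P1 := by rw [hP1]; positivity
  have p2 : 0 ≤ P2 := by rw [hP2]; positivity
  have p3 : 0 ≤ P3 := by rw [hP3]; positivity
  have p4 : 0 ≤ P4 := by rw [hP4]; positivity
  have p5 : 0 ≤ P5 := by rw [hP5]; positivity
  have p6 : 0 ≤ P6 := by rw [hP6]; positivity
  have p7 : 0 ≤ P7 := by rw [hP7]; positivity
  have q1 : 0 ≤ P1 * t ^ 1 := mul_nonneg p1 (pow_nonneg ht _)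
  have q2 : 0 ≤ P2 * t ^ 2 := mul_nonneg p2 (pow_nonneg ht _)
  have q3 : 0 ≤ P3 * t ^ 3 := mul_nonneg p3 (pow_nonneg ht _)
  have q4 : 0 ≤ P4 * t ^ 4 := mul_nonneg p4 (pow_nonneg ht _)
  have q5 : 0 ≤ P5 * t ^ 5 := mul_nonneg p5 (pow_nonneg ht _)
  have q6 : 0 ≤ P6 * t ^ 6 := mul_nonneg p6 (pow_nonneg ht _)
  have q7 : 0 ≤ P7 * t ^ 7 := mul_nonneg p7 (pow_nonneg ht _)
  have e : 150 * K2num (13 - y + t) (17 + t) (7 / 10) 1 (pEven (17 + t)) (phEven (13 - y + t) (17 + t)) =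
      1 + (P0 + P1 * t ^ 1 + P2 * t ^ 2 + P3 * t ^ 3 + P4 * t ^ 4 + P5 * t ^ 5 + P6 * t ^ 6 + P7 * t ^ 7) := by
    rw [hP0, hP1, hP2, hP3, hP4, hP5, hP6, hP7, hw]
    unfold K2num numE numS pEven phEven pEven
    ring
  linarith

lemma k1_odd_a (t y : ℝ) (ht : 0 ≤ t) (hy : 0 ≤ y) (hy1 : y ≤ 1) :
    0 < K1num (13 - y + t) (17 + t) (13 - y + t) (17 + t) (pOdd (17 + t)) (phOdd (13 - y + t) (17 + t)) := by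
  obtain ⟨w, hw⟩ : ∃ w : ℝ, w = 1 - y := ⟨1 - y, rfl⟩
  have hw0 : 0 ≤ w := by linarith
  obtain ⟨P0, hP0⟩ : ∃ P : ℝ, P = 28570674911 * w ^ 6 + 203114208330 * y ^ 1 * w ^ 5 + 573524082225 * y ^ 2 * w ^ 4 +
      836401265596 * y ^ 3 * w ^ 3 + 670491409161 * y ^ 4 * w ^ 2 +
      281733860538 * y ^ 5 * w ^ 1 + 48663086975 * y ^ 6 := ⟨_, rfl⟩
  obtain ⟨P1, hP1⟩ : ∃ P : ℝ, P = 9525543612 * w ^ 6 + 74648039140 * y ^ 1 * w ^ 5 + 224203510792 * y ^ 2 * w ^ 4 +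
      341656788318 * y ^ 3 * w ^ 3 + 283293216758 * y ^ 4 * w ^ 2 +
      122344947080 * y ^ 5 * w ^ 1 + 21627479424 * y ^ 6 := ⟨_, rfl⟩
  obtain ⟨P2, hP2⟩ : ∃ P : ℝ, P = 1125590280 * w ^ 6 + 10865639308 * y ^ 1 * w ^ 5 + 36223058882 * y ^ 2 * w ^ 4 +
      58887771973 * y ^ 3 * w ^ 3 + 51089649835 * y ^ 4 * w ^ 2 +
      22833772014 * y ^ 5 * w ^ 1 + 4148882456 * y ^ 6 := ⟨_, rfl⟩
  obtain ⟨P3, hP3⟩ : ∃ P : ℝ, P = 44394975 * w ^ 6 + 822195949 * y ^ 1 * w ^ 5 + 3283303759 * y ^ 2 * w ^ 4 +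
      5843754612 * y ^ 3 * w ^ 3 + 5363467310 * y ^ 4 * w ^ 2 + 2493654883 * y ^ 5 * w ^ 1 +
      466877924 * y ^ 6 := ⟨_, rfl⟩
  obtain ⟨P4, hP4⟩ : ∃ P : ℝ, P = 15492 * w ^ 6 + 43196523 * y ^ 1 * w ^ 5 + 212698465 * y ^ 2 * w ^ 4 +
      410955202 * y ^ 3 * w ^ 3 + 395077596 * y ^ 4 * w ^ 2 + 189517224 * y ^ 5 * w ^ 1 +
      36323520 * y ^ 6 := ⟨_, rfl⟩
  obtain ⟨P5, hP5⟩ : ∃ P : ℝ, P = 2719831 * y ^ 1 * w ^ 5 + 12693387 * y ^ 2 * w ^ 4 + 24234746 * y ^ 3 * w ^ 3 +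
      23263913 * y ^ 4 * w ^ 2 + 11189177 * y ^ 5 * w ^ 1 + 2154588 * y ^ 6 := ⟨_, rfl⟩
  obtain ⟨P6, hP6⟩ : ∃ P : ℝ, P = 13692 * w ^ 6 + 173673 * y ^ 1 * w ^ 5 + 652205 * y ^ 2 * w ^ 4 +
      1146209 * y ^ 3 * w ^ 3 + 1056747 * y ^ 4 * w ^ 2 + 497474 * y ^ 5 * w ^ 1 +
      94712 * y ^ 6 := ⟨_, rfl⟩
  obtain ⟨P7, hP7⟩ : ∃ P : ℝ, P = 729 * w ^ 6 + 6372 * y ^ 1 * w ^ 5 + 20806 * y ^ 2 * w ^ 4 + 34084 * y ^ 3 * w ^ 3 +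
      30201 * y ^ 4 * w ^ 2 + 13888 * y ^ 5 * w ^ 1 + 2608 * y ^ 6 := ⟨_, rfl⟩
  obtain ⟨P8, hP8⟩ : ∃ P : ℝ, P = 12 * w ^ 6 + 92 * y ^ 1 * w ^ 5 + 280 * y ^ 2 * w ^ 4 + 440 * y ^ 3 * w ^ 3 +
      380 * y ^ 4 * w ^ 2 + 172 * y ^ 5 * w ^ 1 + 32 * y ^ 6 := ⟨_, rfl⟩
  have p0 : 0 ≤ P0 := by rw [hP0]; positivity
  have p1 : 0 ≤ P1 := by rw [hP1]; positivity
  have p2 : 0 ≤ P2 := by rw [hP2]; positivity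
  have p3 : 0 ≤ P3 := by rw [hP3]; positivity
  have p4 : 0 ≤ P4 := by rw [hP4]; positivity
  have p5 : 0 ≤ P5 := by rw [hP5]; positivity
  have p6 : 0 ≤ P6 := by rw [hP6]; positivity
  have p7 : 0 ≤ P7 := by rw [hP7]; positivity
  have p8 : 0 ≤ P8 := by rw [hP8]; positivity
  have q1 : 0 ≤ P1 * t ^ 1 := mul_nonneg p1 (pow_nonneg ht _)
  have q2 : 0 ≤ P2 * t ^ 2 := mul_nonneg p2 (pow_nonneg ht _)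
  have q3 : 0 ≤ P3 * t ^ 3 := mul_nonneg p3 (pow_nonneg ht _)
  have q4 : 0 ≤ P4 * t ^ 4 := mul_nonneg p4 (pow_nonneg ht _)
  have q5 : 0 ≤ P5 * t ^ 5 := mul_nonneg p5 (pow_nonneg ht _)
  have q6 : 0 ≤ P6 * t ^ 6 := mul_nonneg p6 (pow_nonneg ht _)
  have q7 : 0 ≤ P7 * t ^ 7 := mul_nonneg p7 (pow_nonneg ht _)
  have q8 : 0 ≤ P8 * t ^ 8 := mul_nonneg p8 (pow_nonneg ht _)
  have qx : 0 ≤ 31866 * t ^ 3 * (t - 7) ^ 2 * w ^ 6 := by positivity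
  have e : 24 * K1num (13 - y + t) (17 + t) (13 - y + t) (17 + t) (pOdd (17 + t)) (phOdd (13 - y + t) (17 + t)) =
      1 + (P0 + P1 * t ^ 1 + P2 * t ^ 2 + P3 * t ^ 3 + P4 * t ^ 4 + P5 * t ^ 5 + P6 * t ^ 6 + P7 * t ^ 7 + P8 * t ^ 8 + 31866 * t ^ 3 * (t - 7) ^ 2 * w ^ 6) := by
    rw [hP0, hP1, hP2, hP3, hP4, hP5, hP6, hP7, hP8, hw]
    unfold K1num numE numS pOdd phOdd pOdd
    ring
  linarith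

lemma k1_odd_b (t y : ℝ) (ht : 0 ≤ t) (hy : 0 ≤ y) (hy1 : y ≤ 1) :
    0 < K1num (13 - y + t) (17 + t) (7 / 10) 1 (pOdd (17 + t)) (phOdd (13 - y + t) (17 + t)) := by
  obtain ⟨w, hw⟩ : ∃ w : ℝ, w = 1 - y := ⟨1 - y, rfl⟩
  have hw0 : 0 ≤ w := by linarith
  obtain ⟨P0, hP0⟩ : ∃ P : ℝ, P = 9104400863 * w ^ 5 + 45597030283 * y ^ 1 * w ^ 4 + 90748458182 * y ^ 2 * w ^ 3 +
      89800488134 * y ^ 3 * w ^ 2 + 44216211979 * y ^ 4 * w ^ 1 + 8671668167 * y ^ 5 := ⟨_, rfl⟩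
  obtain ⟨P1, hP1⟩ : ∃ P : ℝ, P = 3947195232 * w ^ 5 + 19471109336 * y ^ 1 * w ^ 4 + 38341862788 * y ^ 2 * w ^ 3 +
      37677976668 * y ^ 3 * w ^ 2 + 18478779290 * y ^ 4 * w ^ 1 + 3618743746 * y ^ 5 := ⟨_, rfl⟩
  obtain ⟨P2, hP2⟩ : ∃ P : ℝ, P = 843428584 * w ^ 5 + 4077945158 * y ^ 1 * w ^ 4 + 7890532460 * y ^ 2 * w ^ 3 +
      7637044726 * y ^ 3 * w ^ 2 + 3697179755 * y ^ 4 * w ^ 1 + 716150645 * y ^ 5 := ⟨_, rfl⟩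
  obtain ⟨P3, hP3⟩ : ∃ P : ℝ, P = 115493566 * w ^ 5 + 552487285 * y ^ 1 * w ^ 4 + 1057597015 * y ^ 2 * w ^ 3 +
      1012681402 * y ^ 3 * w ^ 2 + 485054356 * y ^ 4 * w ^ 1 + 92976250 * y ^ 5 := ⟨_, rfl⟩
  obtain ⟨P4, hP4⟩ : ∃ P : ℝ, P = 10356765 * w ^ 5 + 49728768 * y ^ 1 * w ^ 4 + 95488040 * y ^ 2 * w ^ 3 +
      91656711 * y ^ 3 * w ^ 2 + 43980549 * y ^ 4 * w ^ 1 + 8439875 * y ^ 5 := ⟨_, rfl⟩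
  obtain ⟨P5, hP5⟩ : ∃ P : ℝ, P = 570374 * w ^ 5 + 2773329 * y ^ 1 * w ^ 4 + 5391907 * y ^ 2 * w ^ 3 +
      5239487 * y ^ 3 * w ^ 2 + 2544699 * y ^ 4 * w ^ 1 + 494164 * y ^ 5 := ⟨_, rfl⟩
  obtain ⟨P6, hP6⟩ : ∃ P : ℝ, P = 17105 * w ^ 5 + 84418 * y ^ 1 * w ^ 4 + 166622 * y ^ 2 * w ^ 3 +
      164408 * y ^ 3 * w ^ 2 + 81097 * y ^ 4 * w ^ 1 + 15998 * y ^ 5 := ⟨_, rfl⟩
  obtain ⟨P7, hP7⟩ : ∃ P : ℝ, P = 210 * w ^ 5 + 1050 * y ^ 1 * w ^ 4 + 2100 * y ^ 2 * w ^ 3 + 2100 * y ^ 3 * w ^ 2 +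
      1050 * y ^ 4 * w ^ 1 + 210 * y ^ 5 := ⟨_, rfl⟩
  have p0 : 0 ≤ P0 := by rw [hP0]; positivity
  have p1 : 0 ≤ P1 := by rw [hP1]; positivity
  have p2 : 0 ≤ P2 := by rw [hP2]; positivity
  have p3 : 0 ≤ P3 := by rw [hP3]; positivity
  have p4 : 0 ≤ P4 := by rw [hP4]; positivity
  have p5 : 0 ≤ P5 := by rw [hP5]; positivity
  have p6 : 0 ≤ P6 := by rw [hP6]; positivity
  have p7 : 0 ≤ P7 := by rw [hP7]; positivity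
  have q1 : 0 ≤ P1 * t ^ 1 := mul_nonneg p1 (pow_nonneg ht _)
  have q2 : 0 ≤ P2 * t ^ 2 := mul_nonneg p2 (pow_nonneg ht _)
  have q3 : 0 ≤ P3 * t ^ 3 := mul_nonneg p3 (pow_nonneg ht _)
  have q4 : 0 ≤ P4 * t ^ 4 := mul_nonneg p4 (pow_nonneg ht _)
  have q5 : 0 ≤ P5 * t ^ 5 := mul_nonneg p5 (pow_nonneg ht _)
  have q6 : 0 ≤ P6 * t ^ 6 := mul_nonneg p6 (pow_nonneg ht _)
  have q7 : 0 ≤ P7 * t ^ 7 := mul_nonneg p7 (pow_nonneg ht _)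
  have e : 1200 * K1num (13 - y + t) (17 + t) (7 / 10) 1 (pOdd (17 + t)) (phOdd (13 - y + t) (17 + t)) =
      1 + (P0 + P1 * t ^ 1 + P2 * t ^ 2 + P3 * t ^ 3 + P4 * t ^ 4 + P5 * t ^ 5 + P6 * t ^ 6 + P7 * t ^ 7) := by
    rw [hP0, hP1, hP2, hP3, hP4, hP5, hP6, hP7, hw]
    unfold K1num numE numS pOdd phOdd pOdd
    ring
  linarith

lemma k2_odd_a (t y : ℝ) (ht : 0 ≤ t) (hy : 0 ≤ y) (hy1 : y ≤ 1) :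
    0 < K2num (13 - y + t) (17 + t) (13 - y + t) (17 + t) (pOdd (17 + t)) (phOdd (13 - y + t) (17 + t)) := by
  obtain ⟨w, hw⟩ : ∃ w : ℝ, w = 1 - y := ⟨1 - y, rfl⟩
  have hw0 : 0 ≤ w := by linarith
  obtain ⟨P0, hP0⟩ : ∃ P : ℝ, P = 28570674911 * w ^ 6 + 203114208330 * y ^ 1 * w ^ 5 + 573524082225 * y ^ 2 * w ^ 4 +
      836401265596 * y ^ 3 * w ^ 3 + 670491409161 * y ^ 4 * w ^ 2 +
      281733860538 * y ^ 5 * w ^ 1 + 48663086975 * y ^ 6 := ⟨_, rfl⟩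
  obtain ⟨P1, hP1⟩ : ∃ P : ℝ, P = 13349276772 * w ^ 6 + 98108006398 * y ^ 1 * w ^ 5 + 283827346204 * y ^ 2 * w ^ 4 +
      422058944178 * y ^ 3 * w ^ 3 + 344000002592 * y ^ 4 * w ^ 2 +
      146689873784 * y ^ 5 * w ^ 1 + 25680177696 * y ^ 6 := ⟨_, rfl⟩
  obtain ⟨P2, hP2⟩ : ∃ P : ℝ, P = 2687790738 * w ^ 6 + 20554929988 * y ^ 1 * w ^ 5 + 61119582872 * y ^ 2 * w ^ 4 +
      92832968593 * y ^ 3 * w ^ 3 + 77006020507 * y ^ 4 * w ^ 2 +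
      33343755330 * y ^ 5 * w ^ 1 + 5918258120 * y ^ 6 := ⟨_, rfl⟩
  obtain ⟨P3, hP3⟩ : ∃ P : ℝ, P = 306227379 * w ^ 6 + 2455288531 * y ^ 1 * w ^ 5 + 7528022905 * y ^ 2 * w ^ 4 +
      11697840108 * y ^ 3 * w ^ 3 + 9884278862 * y ^ 4 * w ^ 2 + 4348060483 * y ^ 5 * w ^ 1 +
      782659934 * y ^ 6 := ⟨_, rfl⟩
  obtain ⟨P4, hP4⟩ : ∃ P : ℝ, P = 21863142 * w ^ 6 + 184990947 * y ^ 1 * w ^ 5 + 586103923 * y ^ 2 * w ^ 4 +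
      932534662 * y ^ 3 * w ^ 3 + 802921212 * y ^ 4 * w ^ 2 + 358878432 * y ^ 5 * w ^ 1 +
      65515764 * y ^ 6 := ⟨_, rfl⟩
  obtain ⟨P5, hP5⟩ : ∃ P : ℝ, P = 1025454 * w ^ 6 + 9164689 * y ^ 1 * w ^ 5 + 29974593 * y ^ 2 * w ^ 4 +
      48783074 * y ^ 3 * w ^ 3 + 42766421 * y ^ 4 * w ^ 2 + 19411271 * y ^ 5 * w ^ 1 +
      3592566 * y ^ 6 := ⟨_, rfl⟩
  obtain ⟨P6, hP6⟩ : ∃ P : ℝ, P = 31962 * w ^ 6 + 298221 * y ^ 1 * w ^ 5 + 1000379 * y ^ 2 * w ^ 4 +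
      1658825 * y ^ 3 * w ^ 3 + 1476981 * y ^ 4 * w ^ 2 + 679670 * y ^ 5 * w ^ 1 +
      127394 * y ^ 6 := ⟨_, rfl⟩
  obtain ⟨P7, hP7⟩ : ∃ P : ℝ, P = 627 * w ^ 6 + 5946 * y ^ 1 * w ^ 5 + 20206 * y ^ 2 * w ^ 4 + 33904 * y ^ 3 * w ^ 3 +
      30531 * y ^ 4 * w ^ 2 + 14206 * y ^ 5 * w ^ 1 + 2692 * y ^ 6 := ⟨_, rfl⟩
  obtain ⟨P8, hP8⟩ : ∃ P : ℝ, P = 6 * w ^ 6 + 56 * y ^ 1 * w ^ 5 + 190 * y ^ 2 * w ^ 4 + 320 * y ^ 3 * w ^ 3 +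
      290 * y ^ 4 * w ^ 2 + 136 * y ^ 5 * w ^ 1 + 26 * y ^ 6 := ⟨_, rfl⟩
  have p0 : 0 ≤ P0 := by rw [hP0]; positivity
  have p1 : 0 ≤ P1 := by rw [hP1]; positivity
  have p2 : 0 ≤ P2 := by rw [hP2]; positivity
  have p3 : 0 ≤ P3 := by rw [hP3]; positivity
  have p4 : 0 ≤ P4 := by rw [hP4]; positivity
  have p5 : 0 ≤ P5 := by rw [hP5]; positivity
  have p6 : 0 ≤ P6 := by rw [hP6]; positivity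
  have p7 : 0 ≤ P7 := by rw [hP7]; positivity
  have p8 : 0 ≤ P8 := by rw [hP8]; positivity
  have q1 : 0 ≤ P1 * t ^ 1 := mul_nonneg p1 (pow_nonneg ht _)
  have q2 : 0 ≤ P2 * t ^ 2 := mul_nonneg p2 (pow_nonneg ht _)
  have q3 : 0 ≤ P3 * t ^ 3 := mul_nonneg p3 (pow_nonneg ht _)
  have q4 : 0 ≤ P4 * t ^ 4 := mul_nonneg p4 (pow_nonneg ht _)
  have q5 : 0 ≤ P5 * t ^ 5 := mul_nonneg p5 (pow_nonneg ht _)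
  have q6 : 0 ≤ P6 * t ^ 6 := mul_nonneg p6 (pow_nonneg ht _)
  have q7 : 0 ≤ P7 * t ^ 7 := mul_nonneg p7 (pow_nonneg ht _)
  have q8 : 0 ≤ P8 * t ^ 8 := mul_nonneg p8 (pow_nonneg ht _)
  have e : 3 * K2num (13 - y + t) (17 + t) (13 - y + t) (17 + t) (pOdd (17 + t)) (phOdd (13 - y + t) (17 + t)) =
      1 + (P0 + P1 * t ^ 1 + P2 * t ^ 2 + P3 * t ^ 3 + P4 * t ^ 4 + P5 * t ^ 5 + P6 * t ^ 6 + P7 * t ^ 7 + P8 * t ^ 8) := by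
    rw [hP0, hP1, hP2, hP3, hP4, hP5, hP6, hP7, hP8, hw]
    unfold K2num numE numS pOdd phOdd pOdd
    ring
  linarith

lemma k2_odd_b (t y : ℝ) (ht : 0 ≤ t) (hy : 0 ≤ y) (hy1 : y ≤ 1) :
    0 < K2num (13 - y + t) (17 + t) (7 / 10) 1 (pOdd (17 + t)) (phOdd (13 - y + t) (17 + t)) := by
  obtain ⟨w, hw⟩ : ∃ w : ℝ, w = 1 - y := ⟨1 - y, rfl⟩
  have hw0 : 0 ≤ w := by linarith
  obtain ⟨P0, hP0⟩ : ∃ P : ℝ, P = 9104400863 * w ^ 5 + 45597030283 * y ^ 1 * w ^ 4 + 90748458182 * y ^ 2 * w ^ 3 +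
      89800488134 * y ^ 3 * w ^ 2 + 44216211979 * y ^ 4 * w ^ 1 + 8671668167 * y ^ 5 := ⟨_, rfl⟩
  obtain ⟨P1, hP1⟩ : ∃ P : ℝ, P = 4659669774 * w ^ 5 + 23076634601 * y ^ 1 * w ^ 4 + 45580953535 * y ^ 2 * w ^ 3 +
      44895522792 * y ^ 3 * w ^ 2 + 22055823236 * y ^ 4 * w ^ 1 + 4324292122 * y ^ 5 := ⟨_, rfl⟩
  obtain ⟨P2, hP2⟩ : ∃ P : ℝ, P = 1062643615 * w ^ 5 + 5207564444 * y ^ 1 * w ^ 4 + 10200662066 * y ^ 2 * w ^ 3 +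
      9983366911 * y ^ 3 * w ^ 2 + 4881794903 * y ^ 4 * w ^ 1 + 954168959 * y ^ 5 := ⟨_, rfl⟩
  obtain ⟨P3, hP3⟩ : ∃ P : ℝ, P = 140214328 * w ^ 5 + 682445392 * y ^ 1 * w ^ 4 + 1328751970 * y ^ 2 * w ^ 3 +
      1293669517 * y ^ 3 * w ^ 2 + 629794339 * y ^ 4 * w ^ 1 + 122645728 * y ^ 5 := ⟨_, rfl⟩
  obtain ⟨P4, hP4⟩ : ∃ P : ℝ, P = 11519643 * w ^ 5 + 56004189 * y ^ 1 * w ^ 4 + 108917186 * y ^ 2 * w ^ 3 +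
      105920403 * y ^ 3 * w ^ 2 + 51507789 * y ^ 4 * w ^ 1 + 10020026 * y ^ 5 := ⟨_, rfl⟩
  obtain ⟨P5, hP5⟩ : ∃ P : ℝ, P = 584834 * w ^ 5 + 2857251 * y ^ 1 * w ^ 4 + 5582995 * y ^ 2 * w ^ 3 +
      5453819 * y ^ 3 * w ^ 2 + 2663487 * y ^ 4 * w ^ 1 + 520246 * y ^ 5 := ⟨_, rfl⟩
  obtain ⟨P6, hP6⟩ : ∃ P : ℝ, P = 16832 * w ^ 5 + 83053 * y ^ 1 * w ^ 4 + 163892 * y ^ 2 * w ^ 3 +
      161678 * y ^ 3 * w ^ 2 + 79732 * y ^ 4 * w ^ 1 + 15725 * y ^ 5 := ⟨_, rfl⟩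
  obtain ⟨P7, hP7⟩ : ∃ P : ℝ, P = 210 * w ^ 5 + 1050 * y ^ 1 * w ^ 4 + 2100 * y ^ 2 * w ^ 3 + 2100 * y ^ 3 * w ^ 2 +
      1050 * y ^ 4 * w ^ 1 + 210 * y ^ 5 := ⟨_, rfl⟩
  have p0 : 0 ≤ P0 := by rw [hP0]; positivity
  have p1 : 0 ≤ P1 := by rw [hP1]; positivity
  have p2 : 0 ≤ P2 := by rw [hP2]; positivity
  have p3 : 0 ≤ P3 := by rw [hP3]; positivity
  have p4 : 0 ≤ P4 := by rw [hP4]; positivity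
  have p5 : 0 ≤ P5 := by rw [hP5]; positivity
  have p6 : 0 ≤ P6 := by rw [hP6]; positivity
  have p7 : 0 ≤ P7 := by rw [hP7]; positivity
  have q1 : 0 ≤ P1 * t ^ 1 := mul_nonneg p1 (pow_nonneg ht _)
  have q2 : 0 ≤ P2 * t ^ 2 := mul_nonneg p2 (pow_nonneg ht _)
  have q3 : 0 ≤ P3 * t ^ 3 := mul_nonneg p3 (pow_nonneg ht _)
  have q4 : 0 ≤ P4 * t ^ 4 := mul_nonneg p4 (pow_nonneg ht _)
  have q5 : 0 ≤ P5 * t ^ 5 := mul_nonneg p5 (pow_nonneg ht _)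
  have q6 : 0 ≤ P6 * t ^ 6 := mul_nonneg p6 (pow_nonneg ht _)
  have q7 : 0 ≤ P7 * t ^ 7 := mul_nonneg p7 (pow_nonneg ht _)
  have e : 150 * K2num (13 - y + t) (17 + t) (7 / 10) 1 (pOdd (17 + t)) (phOdd (13 - y + t) (17 + t)) =
      1 + (P0 + P1 * t ^ 1 + P2 * t ^ 2 + P3 * t ^ 3 + P4 * t ^ 4 + P5 * t ^ 5 + P6 * t ^ 6 + P7 * t ^ 7) := by
    rw [hP0, hP1, hP2, hP3, hP4, hP5, hP6, hP7, hw]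
    unfold K2num numE numS pOdd phOdd pOdd
    ring
  linarith

end Pool.Agent.CH10ce
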