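import Pool.Agent.Lib.CH10ce.Num

set_option autoImplicit false

namespace Pool.Agent.CH10ce

lemma interp (c L p Ph s n : ℝ) (hc : 0 < c) (hL : 0 < L) (hp : 8 ≤ p)
    (h1a : 0 < K1num c L c L p Ph) (h1b : 0 < K1num c L (7 / 10) 1 p Ph)
    (h2a : 0 < K2num c L c L p Ph) (h2b : 0 < K2num c L (7 / 10) 1 p Ph)
    (hs : 7 / 10 ≤ s) (hsL : s ≤ c / L)
    (hκ1 : c * (p + 1) ≤ Ph) (hκ2 : 9 * p * c ≤ 8 * Ph)
    (hn8 : 8 ≤ n) (hnp : n ≤ p) :
    4 * c * p * (2 * c - (c + 1) * s) * (s * (n + 1) * c ^ 2 * L - 2 * numS c L) <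
      n * ((4 * c ^ 2 * L * s - numE c L) * (c - (c + 1) * s)) * Ph := by
  set s0 : ℝ := c / L with hs0
  have hcL : c = s0 * L := by rw [hs0]; field_simp
  have e1 : K1num c L c L p Ph = L ^ 2 * K1num c L s0 1 p Ph := by
    unfold K1num
    have : s0 * L = c := hcL.symm
    have h2 : 4 * c ^ 2 * L * c - numE c L * L = L * (4 * c ^ 2 * L * s0 - numE c L * 1) := by
      linear_combination (4 * c ^ 2 * L) * (-this)
    have h3 : c * L - (c + 1) * c = L * (c * 1 - (c + 1) * s0) := by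
      linear_combination (c + 1) * this
    have h4 : 2 * c * L - c * c - c = L * (2 * c * 1 - c * s0 - s0) := by
      linear_combination (c + 1) * this
    have h5 : c * (p + 1) * c ^ 2 * L - 2 * numS c L * L =
        L * (s0 * (p + 1) * c ^ 2 * L - 2 * numS c L * 1) := by
      linear_combination ((p + 1) * c ^ 2 * L) * (-this)
    rw [h2, h3, h4, h5]
    ring
  have e2 : K2num c L c L p Ph = L ^ 2 * K2num c L s0 1 p Ph := by
    unfold K2num
    have : s0 * L = c := hcL.symm
    have h2 : 4 * c ^ 2 * L * c - numE c L * L = L * (4 * c ^ 2 * L * s0 - numE c L * 1) := by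
      linear_combination (4 * c ^ 2 * L) * (-this)
    have h3 : c * L - (c + 1) * c = L * (c * 1 - (c + 1) * s0) := by
      linear_combination (c + 1) * this
    have h4 : 2 * c * L - c * c - c = L * (2 * c * 1 - c * s0 - s0) := by
      linear_combination (c + 1) * this
    have h5 : c * 9 * c ^ 2 * L - 2 * numS c L * L =
        L * (s0 * 9 * c ^ 2 * L - 2 * numS c L * 1) := by
      linear_combination (9 * c ^ 2 * L) * (-this)
    rw [h2, h3, h4, h5]
    ring
  have h1a' : 0 < K1num c L s0 1 p Ph := by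
    rw [e1] at h1a
    exact (mul_pos_iff_of_pos_left (by positivity)).mp h1a
  have h2a' : 0 < K2num c L s0 1 p Ph := by
    rw [e2] at h2a
    exact (mul_pos_iff_of_pos_left (by positivity)).mp h2a
  have id1 : (s0 - 7 / 10) * K1num c L s 1 p Ph =
      (s0 - s) * K1num c L (7 / 10) 1 p Ph + (s - 7 / 10) * K1num c L s0 1 p Ph +
        4 * c ^ 2 * L * (c + 1) * (Ph - c * (p + 1)) *
          ((s - 7 / 10) * (s0 - s) * (s0 - 7 / 10)) := by
    unfold K1num
    ring
  have id2 : (s0 - 7 / 10) * K2num c L s 1 p Ph =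
      (s0 - s) * K2num c L (7 / 10) 1 p Ph + (s - 7 / 10) * K2num c L s0 1 p Ph +
        4 * c ^ 2 * L * (c + 1) * (8 * Ph - 9 * p * c) *
          ((s - 7 / 10) * (s0 - s) * (s0 - 7 / 10)) := by
    unfold K2num
    ring
  have hs1 : 0 ≤ s - 7 / 10 := by linarith
  have hs2 : 0 ≤ s0 - s := by linarith
  have hs3 : 0 ≤ s0 - 7 / 10 := by linarith
  have hprod : 0 ≤ (s - 7 / 10) * (s0 - s) * (s0 - 7 / 10) := by positivity
  have k1 : 0 < K1num c L s 1 p Ph := by
    rcases eq_or_lt_of_le hs3 with h | h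
    · have : s = 7 / 10 := by linarith
      rw [this]
      exact h1b
    · have hpos : 0 < (s0 - 7 / 10) * K1num c L s 1 p Ph := by
        rw [id1]
        have t3 : 0 ≤ 4 * c ^ 2 * L * (c + 1) * (Ph - c * (p + 1)) *
            ((s - 7 / 10) * (s0 - s) * (s0 - 7 / 10)) := by
          refine mul_nonneg (mul_nonneg (by positivity) (by linarith)) hprod
        rcases eq_or_lt_of_le hs2 with h' | h'
        · have : s0 = s := by linarith
          rw [this] at h1a' ⊢
          rw [this] at h t3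
          have : 0 < (s - 7 / 10) * K1num c L s 1 p Ph := mul_pos h h1a'
          have h0 : (s - s) * K1num c L (7 / 10) 1 p Ph = 0 := by ring
          linarith
        · have t1 : 0 < (s0 - s) * K1num c L (7 / 10) 1 p Ph := mul_pos h' h1b
          have t2 : 0 ≤ (s - 7 / 10) * K1num c L s0 1 p Ph := mul_nonneg hs1 h1a'.le
          linarith
      exact (mul_pos_iff_of_pos_left h).mp hpos
  have k2 : 0 < K2num c L s 1 p Ph := by
    rcases eq_or_lt_of_le hs3 with h | h
    · have : s = 7 / 10 := by linarith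
      rw [this]
      exact h2b
    · have hpos : 0 < (s0 - 7 / 10) * K2num c L s 1 p Ph := by
        rw [id2]
        have t3 : 0 ≤ 4 * c ^ 2 * L * (c + 1) * (8 * Ph - 9 * p * c) *
            ((s - 7 / 10) * (s0 - s) * (s0 - 7 / 10)) := by
          refine mul_nonneg (mul_nonneg (by positivity) (by linarith)) hprod
        rcases eq_or_lt_of_le hs2 with h' | h'
        · have : s0 = s := by linarith
          rw [this] at h2a' ⊢
          rw [this] at h t3
          have : 0 < (s - 7 / 10) * K2num c L s 1 p Ph := mul_pos h h2a'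
          have h0 : (s - s) * K2num c L (7 / 10) 1 p Ph = 0 := by ring
          linarith
        · have t1 : 0 < (s0 - s) * K2num c L (7 / 10) 1 p Ph := mul_pos h' h2b
          have t2 : 0 ≤ (s - 7 / 10) * K2num c L s0 1 p Ph := mul_nonneg hs1 h2a'.le
          linarith
      exact (mul_pos_iff_of_pos_left h).mp hpos
  -- affine interpolation in `n`
  unfold K1num at k1
  unfold K2num at k2
  set A : ℝ := (4 * c ^ 2 * L * s - numE c L) * (c - (c + 1) * s) with hA
  set B : ℝ := 4 * c * (2 * c - (c + 1) * s) with hB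
  set u : ℝ := s * c ^ 2 * L with hu
  set S2 : ℝ := 2 * numS c L with hS2
  have k1' : 0 < A * Ph - B * (u * (p + 1) - S2) := by
    rw [hA, hB, hu, hS2]
    linarith
  have k2' : 0 < 8 * A * Ph - B * (u * 9 - S2) * p := by
    rw [hA, hB, hu, hS2]
    linarith
  have goal' : 0 < n * A * Ph - B * (u * (n + 1) - S2) * p := by
    rcases le_total 0 (A * Ph - B * u * p) with h | h
    · have h1 : 0 ≤ (n - 8) * (A * Ph - B * u * p) := mul_nonneg (by linarith) h
      nlinarith
    · have h1 : 0 ≤ (n - p) * (A * Ph - B * u * p) :=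
        mul_nonneg_of_nonpos_of_nonpos (by linarith) h
      have h2 : 0 < p * (A * Ph - B * (u * (p + 1) - S2)) := mul_pos (by linarith) k1'
      nlinarith
  rw [hA, hB, hu, hS2] at goal'
  linarith

theorem numeric_even (c L s n : ℝ) (hL : 18 ≤ L) (hc1 : L - 5 < c) (hc2 : c ≤ L - 4)
    (hs : 7 / 10 ≤ s) (hsL : s ≤ c / L) (hn8 : 8 ≤ n) (hnp : n ≤ pEven L) :
    4 * c * pEven L * (2 * c - (c + 1) * s) * (s * (n + 1) * c ^ 2 * L - 2 * numS c L) <
      n * ((4 * c ^ 2 * L * s - numE c L) * (c - (c + 1) * s)) * phEven c L := by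
  obtain ⟨t, ht⟩ : ∃ t : ℝ, t = L - 17 := ⟨_, rfl⟩
  obtain ⟨y, hy⟩ : ∃ y : ℝ, y = L - 4 - c := ⟨_, rfl⟩
  have e1 : L = 17 + t := by linarith
  have e2 : c = 13 - y + t := by linarith
  have h1a := k1_even_a t y (by linarith) (by linarith) (by linarith)
  have h1b := k1_even_b t y (by linarith) (by linarith) (by linarith)
  have h2a := k2_even_a t y (by linarith) (by linarith) (by linarith)
  have h2b := k2_even_b t y (by linarith) (by linarith) (by linarith)
  rw [← e1, ← e2] at h1a h1b h2a h2b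
  have hp8 : 8 ≤ pEven L := by unfold pEven; linarith
  refine interp c L (pEven L) (phEven c L) s n (by linarith) (by linarith) hp8 h1a h1b h2a h2b
    hs hsL ?_ ?_ hn8 hnp
  · set p := pEven L with hp
    have hLp : L = 2 * p + 2 := by rw [hp]; unfold pEven; ring
    have h3 : 2 * p - 3 < c := by linarith
    unfold phEven
    rw [← hp]
    have h4 : 0 ≤ p ^ 2 - 2 * p - 1 := by nlinarith
    have h5 : (2 * p - 3) * (p ^ 2 - 2 * p - 1) ≤ c * (p ^ 2 - 2 * p - 1) :=
      mul_le_mul_of_nonneg_right h3.le h4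
    nlinarith [mul_nonneg (sub_nonneg.mpr hp8) (sub_nonneg.mpr hp8),
      mul_nonneg (mul_nonneg (sub_nonneg.mpr hp8) (sub_nonneg.mpr hp8)) (sub_nonneg.mpr hp8)]
  · set p := pEven L with hp
    have hLp : L = 2 * p + 2 := by rw [hp]; unfold pEven; ring
    have h3 : 2 * p - 3 < c := by linarith
    unfold phEven
    rw [← hp]
    have h4 : 0 ≤ 8 * p * (p - 1) - 9 * p := by nlinarith
    have h5 : (2 * p - 3) * (8 * p * (p - 1) - 9 * p) ≤ c * (8 * p * (p - 1) - 9 * p) :=
      mul_le_mul_of_nonneg_right h3.le h4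
    nlinarith [mul_nonneg (sub_nonneg.mpr hp8) (sub_nonneg.mpr hp8),
      mul_nonneg (mul_nonneg (sub_nonneg.mpr hp8) (sub_nonneg.mpr hp8)) (sub_nonneg.mpr hp8)]

theorem numeric_odd (c L s n : ℝ) (hL : 17 ≤ L) (hc1 : L - 5 < c) (hc2 : c ≤ L - 4)
    (hs : 7 / 10 ≤ s) (hsL : s ≤ c / L) (hn8 : 8 ≤ n) (hnp : n ≤ pOdd L) :
    4 * c * pOdd L * (2 * c - (c + 1) * s) * (s * (n + 1) * c ^ 2 * L - 2 * numS c L) <
      n * ((4 * c ^ 2 * L * s - numE c L) * (c - (c + 1) * s)) * phOdd c L := by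
  obtain ⟨t, ht⟩ : ∃ t : ℝ, t = L - 17 := ⟨_, rfl⟩
  obtain ⟨y, hy⟩ : ∃ y : ℝ, y = L - 4 - c := ⟨_, rfl⟩
  have e1 : L = 17 + t := by linarith
  have e2 : c = 13 - y + t := by linarith
  have h1a := k1_odd_a t y (by linarith) (by linarith) (by linarith)
  have h1b := k1_odd_b t y (by linarith) (by linarith) (by linarith)
  have h2a := k2_odd_a t y (by linarith) (by linarith) (by linarith)
  have h2b := k2_odd_b t y (by linarith) (by linarith) (by linarith)
  rw [← e1, ← e2] at h1a h1b h2a h2b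
  have hp8 : 8 ≤ pOdd L := by unfold pOdd; linarith
  refine interp c L (pOdd L) (phOdd c L) s n (by linarith) (by linarith) hp8 h1a h1b h2a h2b
    hs hsL ?_ ?_ hn8 hnp
  · set p := pOdd L with hp
    have hLp : L = 2 * p + 1 := by rw [hp]; unfold pOdd; ring
    have h3 : 2 * p - 4 < c := by linarith
    unfold phOdd
    rw [← hp]
    have h4 : 0 ≤ (p - 1) ^ 2 - (p + 1) := by nlinarith
    have h5 : (2 * p - 4) * ((p - 1) ^ 2 - (p + 1)) ≤ c * ((p - 1) ^ 2 - (p + 1)) :=
      mul_le_mul_of_nonneg_right h3.le h4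
    nlinarith [mul_nonneg (sub_nonneg.mpr hp8) (sub_nonneg.mpr hp8),
      mul_nonneg (mul_nonneg (sub_nonneg.mpr hp8) (sub_nonneg.mpr hp8)) (sub_nonneg.mpr hp8)]
  · set p := pOdd L with hp
    have hLp : L = 2 * p + 1 := by rw [hp]; unfold pOdd; ring
    have h3 : 2 * p - 4 < c := by linarith
    unfold phOdd
    rw [← hp]
    have h4 : 0 ≤ 8 * (p - 1) ^ 2 - 9 * p := by nlinarith
    have h5 : (2 * p - 4) * (8 * (p - 1) ^ 2 - 9 * p) ≤ c * (8 * (p - 1) ^ 2 - 9 * p) :=
      mul_le_mul_of_nonneg_right h3.le h4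
    nlinarith [mul_nonneg (sub_nonneg.mpr hp8) (sub_nonneg.mpr hp8),
      mul_nonneg (mul_nonneg (sub_nonneg.mpr hp8) (sub_nonneg.mpr hp8)) (sub_nonneg.mpr hp8)]

end Pool.Agent.CH10ce
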